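import Pool.Agent.H254.BR.Defs
import Pool.Graph.R_seed8.H188R3.IndLim

/-!
General facts on inductive limits.
-/

set_option autoImplicit false
set_option linter.unusedSectionVars false
set_option linter.unusedSimpArgs false

noncomputable section

namespace Pool.Agent.H254.BR

open Filter Topology
open scoped ENNReal NNReal
open Pool.Agent.H188R3 (IsLim norm_map_inj norm_map_le')

variable {A : ℕ → Type} [∀ n, CStarAlgebra (A n)] {φ : ∀ n, A n →⋆ₐ[ℂ] A (n + 1)}
variable {L : Type} [CStarAlgebra L] {j : ∀ n, A n →⋆ₐ[ℂ] L}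

/-- a property preserved by the connecting maps can be pushed forward -/
lemma push (hL : IsLim φ j) (Pr : ∀ n, A n → Prop) (hP : ∀ n x, Pr n x → Pr (n + 1) (φ n x))
    {n0 : ℕ} {x : A n0} (hx : Pr n0 x) (n : ℕ) (hn : n0 ≤ n) :
    ∃ x' : A n, j n x' = j n0 x ∧ Pr n x' := by
  induction n, hn using Nat.le_induction with
  | base => exact ⟨x, rfl, hx⟩
  | succ n hn ih =>
    obtain ⟨x', h1, h2⟩ := ih
    exact ⟨φ n x', by rw [hL.comp, h1], hP n x' h2⟩

lemma norm_j (hL : IsLim φ j) (n : ℕ) (x : A n) : ‖j n x‖ = ‖x‖ :=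
  norm_map_inj (j n) (hL.inj n) x

theorem lim_separable (hL : IsLim φ j) (hA : ∀ n, TopologicalSpace.SeparableSpace (A n)) :
    TopologicalSpace.SeparableSpace L := by
  have h1 : TopologicalSpace.IsSeparable (⋃ n, Set.range (j n)) := by
    refine TopologicalSpace.IsSeparable.iUnion fun n => ?_
    have hc : Continuous (j n) := by
      refine AddMonoidHomClass.continuous_of_bound (j n) 1 fun x => ?_
      rw [one_mul, norm_j hL]
    exact TopologicalSpace.isSeparable_range hc
  have h2 : closure (⋃ n, Set.range (j n)) = Set.univ := by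
    rw [Set.eq_univ_iff_forall]
    intro y
    rw [Metric.mem_closure_iff]
    intro ε hε
    obtain ⟨n, x, hx⟩ := hL.dense y ε hε
    exact ⟨j n x, Set.mem_iUnion.2 ⟨n, x, rfl⟩, by rwa [dist_eq_norm]⟩
  rw [← TopologicalSpace.isSeparable_univ_iff, ← h2]
  exact h1.closure

/-- approximating sequences -/
lemma exists_approx (hL : IsLim φ j) (y : L) : ∃ a : ∀ n, A n,
    Tendsto (fun n => ‖y - j n (a n)‖) atTop (𝓝 0) ∧ ∀ n, ‖a n‖ ≤ 2 * ‖y‖ + 1 := by
  have hb : ∀ n, BddBelow (Set.range fun x : A n => ‖y - j n x‖) := fun n =>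
    ⟨0, by rintro _ ⟨x, rfl⟩; exact norm_nonneg _⟩
  have h1 : ∀ n : ℕ, ∃ x : A n, ‖y - j n x‖ < (⨅ x : A n, ‖y - j n x‖) + 1 / ((n : ℝ) + 1) := by
    intro n
    have h2 : (⨅ x : A n, ‖y - j n x‖) < (⨅ x : A n, ‖y - j n x‖) + 1 / ((n : ℝ) + 1) := by
      have : (0 : ℝ) < 1 / ((n : ℝ) + 1) := by positivity
      linarith
    exact exists_lt_of_ciInf_lt h2
  choose a ha using h1
  refine ⟨a, ?_, ?_⟩
  · rw [Metric.tendsto_atTop]
    intro ε hε
    obtain ⟨n0, x0, hx0⟩ := hL.dense y (ε / 2) (by positivity)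
    obtain ⟨N, hN⟩ := exists_nat_one_div_lt (half_pos hε)
    refine ⟨max n0 N, fun n hn => ?_⟩
    obtain ⟨x', hx', _⟩ := push hL (fun _ _ => True) (fun _ _ _ => trivial) (x := x0) trivial n
      ((le_max_left _ _).trans hn)
    rw [Real.dist_eq, sub_zero, abs_of_nonneg (norm_nonneg _)]
    have h3 : (⨅ x : A n, ‖y - j n x‖) ≤ ‖y - j n x'‖ := ciInf_le (hb n) x'
    rw [hx'] at h3
    have h4 : 1 / ((n : ℝ) + 1) ≤ 1 / ((N : ℝ) + 1) := by
      have : (N : ℝ) ≤ n := by exact_mod_cast (le_max_right _ _).trans hn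
      exact one_div_le_one_div_of_le (by positivity) (by linarith)
    have := ha n
    linarith
  · intro n
    have h3 : (⨅ x : A n, ‖y - j n x‖) ≤ ‖y - j n 0‖ := ciInf_le (hb n) 0
    rw [map_zero, sub_zero] at h3
    have h4 : 1 / ((n : ℝ) + 1) ≤ 1 := by
      rw [div_le_one (by positivity)]
      have : (0 : ℝ) ≤ n := Nat.cast_nonneg n
      linarith
    have h5 : ‖j n (a n)‖ ≤ ‖y‖ + ‖y - j n (a n)‖ := by
      have : j n (a n) = y - (y - j n (a n)) := by abel
      calc ‖j n (a n)‖ = ‖y - (y - j n (a n))‖ := by rw [← this]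
        _ ≤ _ := norm_sub_le _ _
    rw [norm_j hL] at h5
    have := ha n
    linarith

/-- limits along an ultrafilter -/
lemma exists_ulim (s : ℕ → ℂ) (C : ℝ) (hs : ∀ n, ‖s n‖ ≤ C) :
    ∃ z, Tendsto s (hyperfilter ℕ : Filter ℕ) (𝓝 z) := by
  obtain ⟨z, _, hz⟩ := (isCompact_closedBall (0 : ℂ) C).ultrafilter_le_nhds
    ((hyperfilter ℕ).map s) (by
      rw [Filter.le_principal_iff]
      refine Filter.mem_map.2 ?_
      filter_upwards with n
      simpa using hs n)
  exact ⟨z, hz⟩

theorem exists_trace (hL : IsLim φ j) (ω : ∀ n, A n → ℂ)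
    (hadd : ∀ n x y, ω n (x + y) = ω n x + ω n y) (hsmul : ∀ n (c : ℂ) x, ω n (c • x) = c * ω n x)
    (hle : ∀ n x, ‖ω n x‖ ≤ ‖x‖) (h1 : ∀ n, ω n 1 = 1)
    (hpos : ∀ n x, 0 ≤ (ω n (star x * x)).re ∧ (ω n (star x * x)).im = 0)
    (htr : ∀ n x y, ω n (x * y) = ω n (y * x)) : (TracialStates L).Nonempty := by
  choose a ha hab using exists_approx hL
  have hbd : ∀ y n, ‖ω n (a y n)‖ ≤ 2 * ‖y‖ + 1 := fun y n => (hle n _).trans (hab y n)
  choose τ hτ using fun y => exists_ulim (fun n => ω n (a y n)) _ (hbd y)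
  have hU : (hyperfilter ℕ : Filter ℕ) ≤ atTop := by
    rw [← Nat.cofinite_eq_atTop]; exact hyperfilter_le_cofinite
  have hsub : ∀ n x y, ω n (x - y) = ω n x - ω n y := by
    intro n x y
    have h2 := hadd n (x - y) y
    rw [sub_add_cancel] at h2
    rw [h2]; ring
  have key : ∀ (y : L) (x : ∀ n, A n), Tendsto (fun n => ‖y - j n (x n)‖) atTop (𝓝 0) →
      Tendsto (fun n => ω n (x n)) (hyperfilter ℕ : Filter ℕ) (𝓝 (τ y)) := by
    intro y x hx
    have h2 : Tendsto (fun n => ω n (x n) - ω n (a y n)) (hyperfilter ℕ : Filter ℕ) (𝓝 0) := by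
      rw [tendsto_zero_iff_norm_tendsto_zero]
      have h3 : Tendsto (fun n => ‖y - j n (x n)‖ + ‖y - j n (a y n)‖)
          (hyperfilter ℕ : Filter ℕ) (𝓝 0) := by
        simpa using ((hx.add (ha y)).mono_left hU)
      refine squeeze_zero (fun n => norm_nonneg _) (fun n => ?_) h3
      rw [← hsub]
      refine (hle n _).trans ?_
      rw [← norm_j hL, map_sub]
      have : j n (x n) - j n (a y n) = -(y - j n (x n)) + (y - j n (a y n)) := by abel
      rw [this]
      refine (norm_add_le _ _).trans ?_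
      rw [norm_neg]
    have h4 := h2.add (hτ y)
    simpa using h4
  have tadd : ∀ x y, τ (x + y) = τ x + τ y := by
    intro x y
    refine tendsto_nhds_unique (key (x + y) (fun n => a x n + a y n) ?_) ?_
    · have h3 : Tendsto (fun n => ‖x - j n (a x n)‖ + ‖y - j n (a y n)‖) atTop (𝓝 0) := by
        simpa using (ha x).add (ha y)
      refine squeeze_zero (fun n => norm_nonneg _) (fun n => ?_) h3
      rw [map_add]
      have : x + y - (j n (a x n) + j n (a y n)) = (x - j n (a x n)) + (y - j n (a y n)) := by abel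
      rw [this]; exact norm_add_le _ _
    · simp only [hadd]
      exact (hτ x).add (hτ y)
  have tsmul : ∀ (c : ℂ) x, τ (c • x) = c * τ x := by
    intro c x
    refine tendsto_nhds_unique (key (c • x) (fun n => c • a x n) ?_) ?_
    · have h3 : Tendsto (fun n => ‖c‖ * ‖x - j n (a x n)‖) atTop (𝓝 0) := by
        simpa using (ha x).const_mul ‖c‖
      refine squeeze_zero (fun n => norm_nonneg _) (fun n => ?_) h3
      rw [map_smul, ← smul_sub, norm_smul]
    · simp only [hsmul]
      exact (hτ x).const_mul c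
  have tone : τ 1 = 1 := by
    refine tendsto_nhds_unique (key 1 (fun n => 1) ?_) ?_
    · simp
    · simp only [h1]; exact tendsto_const_nhds
  have hmul : ∀ x y : L, Tendsto (fun n => ‖x * y - j n (a x n * a y n)‖) atTop (𝓝 0) := by
    intro x y
    have h3 : Tendsto (fun n => ‖x - j n (a x n)‖ * ‖y‖ + (2 * ‖x‖ + 1) * ‖y - j n (a y n)‖) atTop
        (𝓝 0) := by
      simpa using ((ha x).mul_const ‖y‖).add ((ha y).const_mul (2 * ‖x‖ + 1))
    refine squeeze_zero (fun n => norm_nonneg _) (fun n => ?_) h3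
    rw [map_mul]
    have : x * y - j n (a x n) * j n (a y n) =
        (x - j n (a x n)) * y + j n (a x n) * (y - j n (a y n)) := by noncomm_ring
    rw [this]
    refine (norm_add_le _ _).trans (add_le_add (norm_mul_le _ _) ?_)
    refine (norm_mul_le _ _).trans ?_
    refine mul_le_mul_of_nonneg_right ?_ (norm_nonneg _)
    rw [norm_j hL]; exact hab x n
  have ttr : ∀ x y, τ (x * y) = τ (y * x) := by
    intro x y
    refine tendsto_nhds_unique (key (x * y) (fun n => a x n * a y n) (hmul x y)) ?_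
    simp only [htr _ (a x _)]
    exact key (y * x) (fun n => a y n * a x n) (hmul y x)
  have tpos : ∀ x, 0 ≤ (τ (star x * x)).re ∧ (τ (star x * x)).im = 0 := by
    intro x
    have h2 : Tendsto (fun n => ‖star x * x - j n (star (a x n) * a x n)‖) atTop (𝓝 0) := by
      have h3 : Tendsto (fun n => ‖x - j n (a x n)‖ * ‖x‖ + (2 * ‖x‖ + 1) * ‖x - j n (a x n)‖)
          atTop (𝓝 0) := by
        simpa using ((ha x).mul_const ‖x‖).add ((ha x).const_mul (2 * ‖x‖ + 1))
      refine squeeze_zero (fun n => norm_nonneg _) (fun n => ?_) h3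
      rw [map_mul, map_star]
      have : star x * x - star (j n (a x n)) * j n (a x n) =
          star (x - j n (a x n)) * x + star (j n (a x n)) * (x - j n (a x n)) := by
        rw [star_sub]; noncomm_ring
      rw [this]
      refine (norm_add_le _ _).trans (add_le_add ?_ ?_)
      · refine (norm_mul_le _ _).trans ?_
        rw [norm_star]
      · refine (norm_mul_le _ _).trans ?_
        refine mul_le_mul_of_nonneg_right ?_ (norm_nonneg _)
        rw [norm_star, norm_j hL]; exact hab x n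
    have h4 := key _ _ h2
    have h5 := (Complex.continuous_re.tendsto _).comp h4
    have h6 := (Complex.continuous_im.tendsto _).comp h4
    refine ⟨ge_of_tendsto' h5 fun n => (hpos n _).1, ?_⟩
    refine tendsto_nhds_unique h6 ?_
    have : (Complex.im ∘ fun n => ω n (star (a x n) * a x n)) = fun _ => 0 := by
      funext n; exact (hpos n _).2
    rw [this]; exact tendsto_const_nhds
  have tnorm : ∀ x, ‖τ x‖ ≤ 1 * ‖x‖ := by
    intro x
    rw [one_mul]
    have h3 : Tendsto (fun n => ‖x‖ + ‖x - j n (a x n)‖) (hyperfilter ℕ : Filter ℕ)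
        (𝓝 (‖x‖ + 0)) := (tendsto_const_nhds.add (ha x)).mono_left hU
    rw [add_zero] at h3
    refine le_of_tendsto_of_tendsto' (hτ x).norm h3 fun n => ?_
    refine (hle n _).trans ?_
    rw [← norm_j hL]
    have : j n (a x n) = x - (x - j n (a x n)) := by abel
    calc ‖j n (a x n)‖ = ‖x - (x - j n (a x n))‖ := by rw [← this]
      _ ≤ _ := norm_sub_le _ _
  let τl : L →ₗ[ℂ] ℂ :=
    { toFun := τ
      map_add' := tadd
      map_smul' := tsmul }
  refine ⟨StrongDual.toWeakDual (τl.mkContinuous 1 tnorm), tone, tpos, ttr⟩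

end Pool.Agent.H254.BR
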