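import Mathlib

/-!
An element which is a sum of many blocks, all of which can be moved isometrically into one common
zero block, is a limit of invertible elements.
-/

set_option autoImplicit false
set_option linter.unusedSectionVars false
set_option linter.unusedSimpArgs false

noncomputable section

namespace Pool.Agent.H254.BR

section ring

variable {B : Type} [Ring B]

lemma isUnit_one_sub_of_sq_zero {n : B} (h : n * n = 0) : IsUnit (1 - n) := by
  refine ⟨⟨1 - n, 1 + n, ?_, ?_⟩, rfl⟩
  · rw [sub_mul, mul_add, mul_add, one_mul, mul_one, h, one_mul]; abel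
  · rw [mul_sub, add_mul, add_mul, one_mul, mul_one, h, one_mul]; abel

/-- `w` plays the role of `v*`. -/
lemma isUnit_dil {d v w g : B} (hdd : d * d = d) (hwv : w * v = d) (hdv : d * v = 0)
    (hvd : v * d = v) (hdw : d * w = w) (hwd : w * d = 0) (hgd : g * d = g) (hdg : d * g = g) :
    IsUnit (g - w + v + (1 - d - v * w)) := by
  have hvv : v * v = 0 := by
    calc v * v = v * d * v := by rw [hvd]
      _ = 0 := by rw [mul_assoc, hdv, mul_zero]
  have hww : w * w = 0 := by
    calc w * w = w * (d * w) := by rw [hdw]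
      _ = 0 := by rw [← mul_assoc, hwd, zero_mul]
  have hgv : g * v = 0 := by rw [← hgd, mul_assoc, hdv, mul_zero]
  have hwg : w * g = 0 := by rw [← hdg, ← mul_assoc, hwd, zero_mul]
  have a1 : ∀ x, d * (d * x) = d * x := fun x => by rw [← mul_assoc, hdd]
  have a2 : ∀ x, w * (v * x) = d * x := fun x => by rw [← mul_assoc, hwv]
  have a3 : ∀ x, d * (v * x) = 0 := fun x => by rw [← mul_assoc, hdv, zero_mul]
  have a4 : ∀ x, v * (d * x) = v * x := fun x => by rw [← mul_assoc, hvd]
  have a5 : ∀ x, d * (w * x) = w * x := fun x => by rw [← mul_assoc, hdw]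
  have a6 : ∀ x, w * (d * x) = 0 := fun x => by rw [← mul_assoc, hwd, zero_mul]
  have a7 : ∀ x, g * (d * x) = g * x := fun x => by rw [← mul_assoc, hgd]
  have a8 : ∀ x, d * (g * x) = g * x := fun x => by rw [← mul_assoc, hdg]
  have a9 : ∀ x, v * (v * x) = 0 := fun x => by rw [← mul_assoc, hvv, zero_mul]
  have a10 : ∀ x, w * (w * x) = 0 := fun x => by rw [← mul_assoc, hww, zero_mul]
  have a11 : ∀ x, g * (v * x) = 0 := fun x => by rw [← mul_assoc, hgv, zero_mul]
  have a12 : ∀ x, w * (g * x) = 0 := fun x => by rw [← mul_assoc, hwg, zero_mul]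
  refine ⟨⟨g - w + v + (1 - d - v * w), w + v * g * w - v + (1 - d - v * w), ?_, ?_⟩, rfl⟩
  · simp only [mul_add, add_mul, mul_sub, sub_mul, mul_assoc, one_mul, mul_one, hdd, hwv, hdv, hvd,
      hdw, hwd, hgd, hdg, hvv, hww, hgv, hwg, a1, a2, a3, a4, a5, a6, a7, a8, a9, a10, a11, a12,
      mul_zero, zero_mul]
    abel
  · simp only [mul_add, add_mul, mul_sub, sub_mul, mul_assoc, one_mul, mul_one, hdd, hwv, hdv, hvd,
      hdw, hwd, hgd, hdg, hvv, hww, hgv, hwg, a1, a2, a3, a4, a5, a6, a7, a8, a9, a10, a11, a12,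
      mul_zero, zero_mul]
    abel

end ring

section cstar

open Topology Filter

variable {B : Type} [CStarAlgebra B]

lemma closure_unit_mul {X y : B} (hX : IsUnit X) (hy : y ∈ closure {x : B | IsUnit x}) :
    X * y ∈ closure {x : B | IsUnit x} := by
  have hc : Continuous fun y : B => X * y := continuous_const.mul continuous_id
  exact map_mem_closure hc hy fun u (hu : IsUnit u) => hX.mul hu

lemma closure_mul_unit {X y : B} (hX : IsUnit X) (hy : y ∈ closure {x : B | IsUnit x}) :
    y * X ∈ closure {x : B | IsUnit x} := by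
  have hc : Continuous fun y : B => y * X := continuous_id.mul continuous_const
  exact map_mem_closure (f := fun y : B => y * X) hc hy fun u (hu : IsUnit u) => hu.mul hX

/-- the function `1 / max (√s) δ` -/
def rf (δ : ℝ) (s : ℝ) : ℝ := (max (Real.sqrt s) δ)⁻¹

/-- the function `max (√s - δ) 0` -/
def ef (δ : ℝ) (s : ℝ) : ℝ := max (Real.sqrt s - δ) 0

lemma continuous_rf {δ : ℝ} (hδ : 0 < δ) : Continuous (rf δ) := by
  unfold rf
  refine (Real.continuous_sqrt.max continuous_const).inv₀ fun s => ?_
  exact (lt_of_lt_of_le hδ (le_max_right _ _)).ne'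

lemma continuous_ef (δ : ℝ) : Continuous (ef δ) := by
  unfold ef
  exact (Real.continuous_sqrt.sub continuous_const).max continuous_const

lemma rf_ef {δ : ℝ} (hδ : 0 < δ) {s : ℝ} (hs : 0 ≤ s) :
    rf δ s * s * rf δ s * ef δ s = ef δ s := by
  unfold rf ef
  rcases le_or_gt (Real.sqrt s) δ with h | h
  · rw [max_eq_right (by linarith : Real.sqrt s - δ ≤ 0)]; simp
  · rw [max_eq_left h.le]
    have h1 : 0 < Real.sqrt s := hδ.trans h
    have h2 : Real.sqrt s * Real.sqrt s = s := Real.mul_self_sqrt hs
    have h3 : (Real.sqrt s)⁻¹ * s * (Real.sqrt s)⁻¹ = 1 := by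
      field_simp
      nlinarith
    rw [h3, one_mul]

lemma kf_le {δ : ℝ} (hδ : 0 < δ) {s : ℝ} (hs : 0 ≤ s) :
    |(1 - rf δ s * ef δ s) * s * (1 - rf δ s * ef δ s)| ≤ δ ^ 2 := by
  unfold rf ef
  have h2 : Real.sqrt s * Real.sqrt s = s := Real.mul_self_sqrt hs
  rcases le_or_gt (Real.sqrt s) δ with h | h
  · rw [max_eq_right (by linarith : Real.sqrt s - δ ≤ 0)]
    have h0 : 0 ≤ Real.sqrt s := Real.sqrt_nonneg s
    simp only [mul_zero, sub_zero, one_mul, mul_one]
    rw [abs_of_nonneg hs]; nlinarith
  · rw [max_eq_left h.le, max_eq_left (by linarith : 0 ≤ Real.sqrt s - δ)]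
    have h1 : 0 < Real.sqrt s := hδ.trans h
    have h3 : (1 - (Real.sqrt s)⁻¹ * (Real.sqrt s - δ)) = δ / Real.sqrt s := by
      field_simp; ring
    rw [h3]
    have h4 : δ / Real.sqrt s * s * (δ / Real.sqrt s) = δ ^ 2 := by
      have : s = Real.sqrt s ^ 2 := by rw [sq]; exact h2.symm
      calc δ / Real.sqrt s * s * (δ / Real.sqrt s) =
          δ ^ 2 * s / (Real.sqrt s ^ 2) := by field_simp
        _ = δ ^ 2 := by
          rw [← this]
          have hs' : s ≠ 0 := by
            intro h0; rw [h0, Real.sqrt_zero] at h1; exact lt_irrefl _ h1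
          field_simp
    rw [h4, abs_of_nonneg (sq_nonneg δ)]

/-- the functional calculus part -/
lemma exists_calc (G : B) {δ : ℝ} (hδ : 0 < δ) : ∃ g E : B,
    star g * g * E = E ∧ ‖G - g * E‖ ≤ δ ∧
    (∀ x : B, Commute x G → Commute x (star G) →
      Commute x g ∧ (G * x = 0 → g * x = 0) ∧ Commute x E) ∧
    (∀ η : ℝ, 0 < η → ∃ F : B, (E + η • 1) * F = 1 ∧ F * (E + η • 1) = 1 ∧
      ∀ x : B, Commute x G → Commute x (star G) → Commute x F) := by
  set h : B := star G * G with hh
  have hsa : IsSelfAdjoint h := IsSelfAdjoint.star_mul_self G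
  have hsp : ∀ s ∈ spectrum ℝ h, 0 ≤ s := spectrum_star_mul_self_nonneg
  have hcr : ContinuousOn (rf δ) (spectrum ℝ h) := (continuous_rf hδ).continuousOn
  have hce : ContinuousOn (ef δ) (spectrum ℝ h) := (continuous_ef δ).continuousOn
  set r : B := cfc (rf δ) h with hr
  set E : B := cfc (ef δ) h with hE
  have hrsa : star r = r := (cfc_predicate (rf δ) h).star_eq
  have hhid : cfc (fun s : ℝ => s) h = h := cfc_id' ℝ h
  have hcomm : ∀ x : B, Commute x G → Commute x (star G) → Commute x h := by
    intro x h1 h2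
    exact h2.mul_right h1
  have hrE : Commute r E := cfc_commute_cfc _ _ _
  refine ⟨G * r, E, ?_, ?_, ?_, ?_⟩
  · rw [star_mul, hrsa]
    have : r * star G * (G * r) * E = r * h * r * E := by rw [hh]; noncomm_ring
    rw [this]
    conv_lhs => rw [← hhid]
    rw [hr, hE, ← cfc_mul _ _ h, ← cfc_mul _ _ h, ← cfc_mul _ _ h]
    exact cfc_congr fun s hs => rf_ef hδ (hsp s hs)
  · have h1 : G - G * r * E = G * cfc (fun s => 1 - rf δ s * ef δ s) h := by
      rw [cfc_sub (fun _ => (1 : ℝ)) (fun s => rf δ s * ef δ s) h, cfc_mul _ _ h, cfc_const_one ℝ h]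
      rw [mul_sub, mul_one, mul_assoc]
    have h2 : ‖G - G * r * E‖ ^ 2 ≤ δ ^ 2 := by
      rw [h1, sq, ← CStarRing.norm_star_mul_self, star_mul]
      have h3 : star (cfc (fun s => 1 - rf δ s * ef δ s) h) =
          cfc (fun s => 1 - rf δ s * ef δ s) h :=
        (cfc_predicate (fun s : ℝ => 1 - rf δ s * ef δ s) h).star_eq
      rw [h3]
      have h4 : cfc (fun s => 1 - rf δ s * ef δ s) h * star G *
          (G * cfc (fun s => 1 - rf δ s * ef δ s) h) =
          cfc (fun s => (1 - rf δ s * ef δ s) * s * (1 - rf δ s * ef δ s)) h := by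
        have h5 : ContinuousOn (fun s => 1 - rf δ s * ef δ s) (spectrum ℝ h) :=
          (continuous_const.sub ((continuous_rf hδ).mul (continuous_ef δ))).continuousOn
        rw [cfc_mul _ _ h, cfc_mul _ _ h, hhid, hh]
        noncomm_ring
      rw [h4]
      refine norm_cfc_le (by positivity) fun s hs => ?_
      rw [Real.norm_eq_abs]
      exact kf_le hδ (hsp s hs)
    exact le_of_sq_le_sq h2 hδ.le
  · intro x h1 h2
    have h3 := hcomm x h1 h2
    have h4 : Commute x r := (h3.symm.cfc_real (rf δ)).symm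
    refine ⟨h1.mul_right h4, ?_, (h3.symm.cfc_real (ef δ)).symm⟩
    intro h5
    rw [mul_assoc, ← h4.eq, ← mul_assoc, h5, zero_mul]
  · intro η hη
    have h5 : ContinuousOn (fun s => ef δ s + η) (spectrum ℝ h) :=
      ((continuous_ef δ).add continuous_const).continuousOn
    have hne : ∀ s, ef δ s + η ≠ 0 := by
      intro s
      have : 0 ≤ ef δ s := le_max_right _ _
      positivity
    have h6 : ContinuousOn (fun s => (ef δ s + η)⁻¹) (spectrum ℝ h) :=
      (((continuous_ef δ).add continuous_const).inv₀ hne).continuousOn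
    have h7 : E + η • (1 : B) = cfc (fun s => ef δ s + η) h := by
      rw [cfc_add (a := h) (ef δ) (fun _ => η), cfc_const η h, Algebra.algebraMap_eq_smul_one]
    refine ⟨cfc (fun s => (ef δ s + η)⁻¹) h, ?_, ?_, ?_⟩
    · rw [h7, ← cfc_mul (fun s => ef δ s + η) (fun s => (ef δ s + η)⁻¹) h h5 h6]
      have : (fun s => (ef δ s + η) * (ef δ s + η)⁻¹) = fun _ => (1 : ℝ) := by
        funext s; exact mul_inv_cancel₀ (hne s)
      rw [this, cfc_const_one ℝ h]
    · rw [h7, ← cfc_mul (fun s => (ef δ s + η)⁻¹) (fun s => ef δ s + η) h h6 h5]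
      have : (fun s => (ef δ s + η)⁻¹ * (ef δ s + η)) = fun _ => (1 : ℝ) := by
        funext s; exact inv_mul_cancel₀ (hne s)
      rw [this, cfc_const_one ℝ h]
    · intro x h1 h2
      exact ((hcomm x h1 h2).symm.cfc_real _).symm

variable {ι : Type} [Fintype ι] [DecidableEq ι]

/-- the blocks `d l`, their common target `z` and the isometries `v l` -/
structure Dil (d v : ι → B) (z : B) : Prop where
  dsa : ∀ l, star (d l) = d l
  dd : ∀ l, d l * d l = d l
  dd' : ∀ l l', l ≠ l' → d l * d l' = 0
  zsa : star z = z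
  zz : z * z = z
  dz : ∀ l, d l * z = 0
  zv : ∀ l, z * v l = v l
  vd : ∀ l, v l * d l = v l
  vv : ∀ l, star (v l) * v l = d l

namespace Dil

variable {d v : ι → B} {z : B}

lemma zd (h : Dil d v z) (l : ι) : z * d l = 0 := by
  have := congrArg star (h.dz l)
  rwa [star_mul, h.zsa, h.dsa, star_zero] at this

lemma dv (h : Dil d v z) (l l' : ι) : d l * v l' = 0 := by
  rw [← h.zv l', ← mul_assoc, h.dz, zero_mul]

lemma wz (h : Dil d v z) (l : ι) : star (v l) * z = star (v l) := by
  have := congrArg star (h.zv l)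
  rwa [star_mul, h.zsa] at this

lemma dw (h : Dil d v z) (l : ι) : d l * star (v l) = star (v l) := by
  have := congrArg star (h.vd l)
  rwa [star_mul, h.dsa] at this

lemma wd (h : Dil d v z) (l l' : ι) : star (v l) * d l' = 0 := by
  rw [← h.wz l, mul_assoc, h.zd, mul_zero]

lemma exists_X (h : Dil d v z) {g E : B} (hg : ∀ l, Commute (d l) g)
    (hE : ∀ l, Commute (d l) E) (hgg : star g * g * E = E) (s : Finset ι) :
    ∃ X : B, IsUnit X ∧ (∀ l ∈ s, X * (E * d l) = g * E * d l) ∧
      (∀ x, (∀ l ∈ s, d l * x = 0) → z * x = 0 → X * x = x) := by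
  have hgs : ∀ l, Commute (d l) (star g) := by
    intro l
    have := congrArg star (hg l).eq
    rw [star_mul, star_mul, h.dsa] at this
    exact this.symm
  induction s using Finset.induction_on with
  | empty => exact ⟨1, isUnit_one, by simp, by simp⟩
  | insert a s ha ih =>
    obtain ⟨X, hX1, hX2, hX3⟩ := ih
    set W : B := g * d a - star (v a) + v a + (1 - d a - v a * star (v a)) with hW
    have hWu : IsUnit W := by
      refine isUnit_dil (h.dd a) (h.vv a) (h.dv a a) (h.vd a) (h.dw a) (h.wd a a) ?_ ?_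
      · rw [mul_assoc, h.dd]
      · rw [← mul_assoc, (hg a).eq, mul_assoc, h.dd]
    set N : B := v a * (star g * d a) with hN
    have hNu : IsUnit (1 - N) := by
      refine isUnit_one_sub_of_sq_zero ?_
      rw [hN]
      have : star g * d a * v a = 0 := by rw [mul_assoc, h.dv, mul_zero]
      calc v a * (star g * d a) * (v a * (star g * d a))
          = v a * (star g * d a * v a) * (star g * d a) := by noncomm_ring
        _ = 0 := by rw [this, mul_zero, zero_mul]
    -- action on vectors orthogonal to `d a` and `z`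
    have hfix : ∀ x, d a * x = 0 → z * x = 0 → (1 - N) * W * x = x := by
      intro x hx hz
      have e1 : g * d a * x = 0 := by rw [mul_assoc, hx, mul_zero]
      have e2 : star (v a) * x = 0 := by rw [← h.wz a, mul_assoc, hz, mul_zero]
      have e3 : v a * x = 0 := by rw [← h.vd a, mul_assoc, hx, mul_zero]
      have e4 : v a * star (v a) * x = 0 := by rw [mul_assoc, e2, mul_zero]
      have e5 : W * x = x := by
        rw [hW]
        simp only [add_mul, sub_mul, one_mul, e1, e2, e3, e4, hx]
        abel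
      have e6 : N * x = 0 := by rw [hN, mul_assoc, mul_assoc, hx, mul_zero, mul_zero]
      rw [mul_assoc, e5, sub_mul, one_mul, e6, sub_zero]
    have hact : (1 - N) * W * (E * d a) = g * E * d a := by
      have hEd : E * d a = d a * (E * d a) := by
        rw [← mul_assoc, (hE a).eq, mul_assoc, h.dd]
      have e1 : g * d a * (E * d a) = g * E * d a := by
        rw [mul_assoc, ← hEd, mul_assoc]
      have e2 : star (v a) * (E * d a) = 0 := by
        rw [hEd, ← mul_assoc, h.wd, zero_mul]
      have e4 : v a * star (v a) * (E * d a) = 0 := by rw [mul_assoc, e2, mul_zero]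
      have e5 : W * (E * d a) = g * E * d a + v a * (E * d a) := by
        rw [hW]
        simp only [add_mul, sub_mul, one_mul, e1, e2, e4, ← hEd]
        abel
      have e6 : N * (v a * (E * d a)) = 0 := by
        rw [hN]
        calc v a * (star g * d a) * (v a * (E * d a))
            = v a * star g * (d a * v a) * (E * d a) := by noncomm_ring
          _ = 0 := by rw [h.dv, mul_zero, zero_mul]
      have e7 : N * (g * E * d a) = v a * (E * d a) := by
        rw [hN]
        calc v a * (star g * d a) * (g * E * d a)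
            = v a * (star g * (d a * g) * (E * d a)) := by noncomm_ring
          _ = v a * ((star g * g) * (d a * (E * d a))) := by rw [(hg a).eq]; noncomm_ring
          _ = v a * (star g * g * E * d a) := by rw [← hEd]; noncomm_ring
          _ = v a * (E * d a) := by rw [hgg]
      rw [mul_assoc, e5, sub_mul, one_mul, mul_add, e6, e7]
      abel
    refine ⟨(1 - N) * W * X, (hNu.mul hWu).mul hX1, ?_, ?_⟩
    · intro l hl
      rw [Finset.mem_insert] at hl
      rcases hl with rfl | hl
      · have : X * (E * d l) = E * d l := by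
          refine hX3 _ ?_ ?_
          · intro k hk
            have hkl : k ≠ l := by rintro rfl; exact ha hk
            rw [← mul_assoc, (hE k).eq, mul_assoc, h.dd' k l hkl, mul_zero]
          · rw [← (hE l).eq, ← mul_assoc, h.zd, zero_mul]
        rw [mul_assoc, this, hact]
      · have hal : a ≠ l := by rintro rfl; exact ha hl
        rw [mul_assoc, hX2 l hl]
        have h1 : g * E * d l = d l * (g * E) := by
          rw [← mul_assoc, (hg l).eq, mul_assoc, mul_assoc, (hE l).eq]
        refine hfix _ ?_ ?_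
        · rw [h1, ← mul_assoc, h.dd' a l hal, zero_mul]
        · rw [h1, ← mul_assoc, h.zd, zero_mul]
    · intro x hx hz
      have h1 : X * x = x := hX3 x (fun l hl => hx l (Finset.mem_insert_of_mem hl)) hz
      rw [mul_assoc, h1]
      exact hfix x (hx a (Finset.mem_insert_self a s)) hz

/-- **The closure theorem.** -/
theorem mem_closure (h : Dil d v z) {G R R' : B} (hG : ∀ l, Commute (d l) G)
    (hGd : G * ∑ l, d l = G) (hR : R * R' = 1 - ∑ l, d l - z) (hR' : R' * R = 1 - ∑ l, d l - z)
    (hdR : (∑ l, d l + z) * R = 0) (hRd : R * (∑ l, d l + z) = 0)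
    (hdR' : (∑ l, d l + z) * R' = 0) (hRd' : R' * (∑ l, d l + z) = 0) :
    G + R ∈ closure {x : B | IsUnit x} := by
  set D : B := ∑ l, d l with hD
  have hDz : D * z = 0 := by
    rw [hD, Finset.sum_mul]; exact Finset.sum_eq_zero fun l _ => h.dz l
  have hzD : z * D = 0 := by
    rw [hD, Finset.mul_sum]; exact Finset.sum_eq_zero fun l _ => h.zd l
  have hdD : ∀ l, d l * D = d l := by
    intro l
    rw [hD, Finset.mul_sum, Finset.sum_eq_single l]
    · exact h.dd l
    · intro k _ hk; exact h.dd' l k hk.symm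
    · intro hl; exact absurd (Finset.mem_univ l) hl
  have hDD : D * D = D := by
    conv_lhs => rw [hD, Finset.sum_mul]
    exact Finset.sum_congr rfl fun l _ => hdD l
  have hDsa : star D = D := by
    rw [hD, star_sum]; exact Finset.sum_congr rfl fun l _ => h.dsa l
  have hdR1 : ∀ l, d l * R = 0 := by
    intro l
    have : d l * ((D + z) * R) = d l * R := by
      rw [← mul_assoc, mul_add, hdD, h.dz, add_zero]
    rw [← this, hdR, mul_zero]
  have hzR : z * R = 0 := by
    have : z * ((D + z) * R) = z * R := by rw [← mul_assoc, mul_add, hzD, h.zz, zero_add]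
    rw [← this, hdR, mul_zero]
  have hDR : D * R = 0 := by
    rw [hD, Finset.sum_mul]; exact Finset.sum_eq_zero fun l _ => hdR1 l
  have hzR' : z * R' = 0 := by
    have : z * ((D + z) * R') = z * R' := by rw [← mul_assoc, mul_add, hzD, h.zz, zero_add]
    rw [← this, hdR', mul_zero]
  have hDR' : D * R' = 0 := by
    have : D * ((D + z) * R') = D * R' := by rw [← mul_assoc, mul_add, hDD, hDz, add_zero]
    rw [← this, hdR', mul_zero]
  have hRz : R * z = 0 := by
    have : (R * (D + z)) * z = R * z := by rw [mul_assoc, add_mul, hDz, h.zz, zero_add]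
    rw [← this, hRd, zero_mul]
  have hRD : R * D = 0 := by
    have : (R * (D + z)) * D = R * D := by rw [mul_assoc, add_mul, hzD, hDD, add_zero]
    rw [← this, hRd, zero_mul]
  have hRz' : R' * z = 0 := by
    have : (R' * (D + z)) * z = R' * z := by rw [mul_assoc, add_mul, hDz, h.zz, zero_add]
    rw [← this, hRd', zero_mul]
  have hRD' : R' * D = 0 := by
    have : (R' * (D + z)) * D = R' * D := by rw [mul_assoc, add_mul, hzD, hDD, add_zero]
    rw [← this, hRd', zero_mul]
  have hGs : ∀ l, Commute (d l) (star G) := by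
    intro l
    have := congrArg star (hG l).eq
    rw [star_mul, star_mul, h.dsa] at this
    exact this.symm
  rw [← closure_closure, Metric.mem_closure_iff]
  intro ε hε
  have hδ : 0 < ε / 2 := by positivity
  obtain ⟨g, E, hgg, hGg, hcomm, hinv⟩ := exists_calc G hδ
  have hg : ∀ l, Commute (d l) g := fun l => (hcomm _ (hG l) (hGs l)).1
  have hE : ∀ l, Commute (d l) E := fun l => (hcomm _ (hG l) (hGs l)).2.2
  have hDG : Commute D G := Commute.sum_left _ _ _ fun l _ => hG l
  have hDGs : Commute D (star G) := Commute.sum_left _ _ _ fun l _ => hGs l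
  have hDg : Commute D g := (hcomm _ hDG hDGs).1
  have hDE : Commute D E := (hcomm _ hDG hDGs).2.2
  obtain ⟨X, hX1, hX2, hX3⟩ := h.exists_X hg hE hgg Finset.univ
  have hXE : X * (E * D) = g * E * D := by
    rw [hD, Finset.mul_sum, Finset.mul_sum, Finset.mul_sum]
    exact Finset.sum_congr rfl fun l _ => hX2 l (Finset.mem_univ l)
  have hXR : X * R = R := hX3 R (fun l _ => hdR1 l) hzR
  have hbase : E * D + R ∈ closure {x : B | IsUnit x} := by
    rw [Metric.mem_closure_iff]
    intro ρ hρ
    obtain ⟨η, hη, hη2⟩ : ∃ η : ℝ, 0 < η ∧ η * ‖D + z‖ < ρ := by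
      refine ⟨ρ / (‖D + z‖ + 1), by positivity, ?_⟩
      rw [div_mul_eq_mul_div, div_lt_iff₀ (by positivity)]
      nlinarith [norm_nonneg (D + z)]
    obtain ⟨F, hF1, hF2, hF3⟩ := hinv η hη
    obtain ⟨E1, hE1⟩ : ∃ E1 : B, E1 = E + η • 1 := ⟨_, rfl⟩
    rw [← hE1] at hF1 hF2
    have hc : E1 * D = D * E1 := by
      rw [hE1, mul_add, add_mul, hDE.eq, mul_smul_comm, smul_mul_assoc, one_mul, mul_one]
    have e1 : E * D + R + η • (D + z) = E1 * D + R + η • z := by
      rw [hE1, add_mul, smul_mul_assoc, one_mul, smul_add]; abel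
    have hDF : Commute D F := hF3 _ hDG hDGs
    refine ⟨E * D + R + η • (D + z), ?_, ?_⟩
    · refine ⟨⟨E * D + R + η • (D + z), F * D + R' + η⁻¹ • z, ?_, ?_⟩, rfl⟩
      · rw [e1]
        have f1 : E1 * D * (F * D) = D := by
          calc E1 * D * (F * D) = E1 * (D * F) * D := by noncomm_ring
            _ = (E1 * F) * (D * D) := by rw [hDF.eq]; noncomm_ring
            _ = D := by rw [hF1, hDD, one_mul]
        have f2 : E1 * D * R' = 0 := by rw [mul_assoc, hDR', mul_zero]
        have f3 : E1 * D * (η⁻¹ • z) = 0 := by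
          rw [mul_smul_comm, mul_assoc, hDz, mul_zero, smul_zero]
        have f4 : R * (F * D) = 0 := by rw [← hDF.eq, ← mul_assoc, hRD, zero_mul]
        have f5 : R * (η⁻¹ • z) = 0 := by rw [mul_smul_comm, hRz, smul_zero]
        have f6 : (η • z) * (F * D) = 0 := by
          rw [← hDF.eq, smul_mul_assoc, ← mul_assoc, hzD, zero_mul, smul_zero]
        have f7 : (η • z) * R' = 0 := by rw [smul_mul_assoc, hzR', smul_zero]
        have f8 : (η • z) * (η⁻¹ • z) = z := by
          rw [smul_mul_smul_comm, h.zz, mul_inv_cancel₀ hη.ne', one_smul]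
        rw [mul_add, mul_add, add_mul, add_mul, add_mul, add_mul, add_mul, add_mul, f1, f2, f3, f4,
          f5, f6, f7, f8, hR]
        abel
      · rw [e1]
        have f1 : F * D * (E1 * D) = D := by
          calc F * D * (E1 * D) = F * (D * E1) * D := by noncomm_ring
            _ = (F * E1) * (D * D) := by rw [← hc]; noncomm_ring
            _ = D := by rw [hF2, hDD, one_mul]
        have f2 : F * D * R = 0 := by rw [mul_assoc, hDR, mul_zero]
        have f3 : F * D * (η • z) = 0 := by
          rw [mul_smul_comm, mul_assoc, hDz, mul_zero, smul_zero]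
        have f4 : R' * (E1 * D) = 0 := by rw [hc, ← mul_assoc, hRD', zero_mul]
        have f5 : R' * (η • z) = 0 := by rw [mul_smul_comm, hRz', smul_zero]
        have f6 : (η⁻¹ • z) * (E1 * D) = 0 := by
          rw [hc, smul_mul_assoc, ← mul_assoc, hzD, zero_mul, smul_zero]
        have f7 : (η⁻¹ • z) * R = 0 := by rw [smul_mul_assoc, hzR, smul_zero]
        have f8 : (η⁻¹ • z) * (η • z) = z := by
          rw [smul_mul_smul_comm, h.zz, inv_mul_cancel₀ hη.ne', one_smul]
        rw [mul_add, mul_add, add_mul, add_mul, add_mul, add_mul, add_mul, add_mul, f1, f2, f3, f4,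
          f5, f6, f7, f8, hR']
        abel
    · rw [dist_eq_norm]
      have : E * D + R - (E * D + R + η • (D + z)) = -(η • (D + z)) := by abel
      rw [this, norm_neg, norm_smul, Real.norm_eq_abs, abs_of_pos hη]
      exact hη2
  refine ⟨X * (E * D + R), closure_unit_mul hX1 hbase, ?_⟩
  rw [mul_add, hXE, hXR, dist_eq_norm]
  have hD1 : Commute (1 - D) G := (Commute.one_left _).sub_left hDG
  have hD2 : Commute (1 - D) (star G) := (Commute.one_left _).sub_left hDGs
  have e2 : G * (1 - D) = 0 := by rw [mul_sub, mul_one, hGd, sub_self]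
  have e3 : g * (1 - D) = 0 := (hcomm _ hD1 hD2).2.1 e2
  have e4 : g * E * D = g * E := by
    have : g * E * (1 - D) = 0 := by
      rw [mul_assoc, ← (hcomm _ hD1 hD2).2.2.eq, ← mul_assoc, e3, zero_mul]
    rw [mul_sub, mul_one, sub_eq_zero] at this
    exact this.symm
  rw [e4, add_sub_add_right_eq_sub]
  linarith

end Dil

end cstar

end Pool.Agent.H254.BR
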