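import Pool.Agent.H254.BR.Base
import Pool.Graph.R_seed8.Helper133.BUProd

/-!
The obstruction to comparison, from a Borsuk-Ulam theorem for products of spheres.
-/

set_option autoImplicit false
set_option linter.unusedSectionVars false
set_option linter.unusedSimpArgs false

noncomputable section

namespace Pool.Agent.H254.BR

open scoped Matrix.Norms.L2Operator
open Matrix Pool.Agent.Helper133

/-! ### normalisation -/

/-- normalisation of vectors -/
def nz {m : ℕ} (w : EuclideanSpace ℝ (Fin (m + 1))) : Sph m :=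
  if h : w = 0 then ⟨EuclideanSpace.single 0 1, by simp⟩
  else ⟨(‖w‖)⁻¹ • w, by
    rw [mem_sphere_zero_iff_norm, norm_smul, norm_inv, norm_norm]
    exact inv_mul_cancel₀ (norm_ne_zero_iff.2 h)⟩

lemma nz_coe {m : ℕ} {w : EuclideanSpace ℝ (Fin (m + 1))} (h : w ≠ 0) :
    (nz w : EuclideanSpace ℝ (Fin (m + 1))) = (‖w‖)⁻¹ • w := by
  unfold nz
  rw [dif_neg h]

lemma nz_neg {m : ℕ} {w : EuclideanSpace ℝ (Fin (m + 1))} (h : w ≠ 0) :
    nz (-w) = -(nz w) := by
  apply Subtype.ext
  have : (↑(-(nz w)) : EuclideanSpace ℝ (Fin (m + 1))) = -(nz w : EuclideanSpace ℝ _) := rfl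
  rw [this, nz_coe h, nz_coe (neg_ne_zero.2 h), norm_neg, smul_neg]

lemma continuousOn_nz {m : ℕ} :
    ContinuousOn (nz : EuclideanSpace ℝ (Fin (m + 1)) → Sph m) {w | w ≠ 0} := by
  have hind : Topology.IsInducing (Subtype.val : Sph m → EuclideanSpace ℝ (Fin (m + 1))) :=
    Topology.IsInducing.subtypeVal
  rw [hind.continuousOn_iff]
  have h1 : ContinuousOn (fun w : EuclideanSpace ℝ (Fin (m + 1)) => (‖w‖)⁻¹ • w) {w | w ≠ 0} := by
    have h2 : ContinuousOn (fun w : EuclideanSpace ℝ (Fin (m + 1)) => (‖w‖)⁻¹) {w | w ≠ 0} :=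
      continuous_norm.continuousOn.inv₀ fun w hw => norm_ne_zero_iff.2 hw
    have h3 : ContinuousOn (fun w : EuclideanSpace ℝ (Fin (m + 1)) => w) {w | w ≠ 0} :=
      continuousOn_id
    exact h2.smul h3
  exact h1.congr fun w hw => nz_coe hw

lemma exists_code {J O : Type} [Fintype J] [DecidableEq O] (Q : J → Prop) [DecidablePred Q]
    (χ : J → O) : ∃ code : J → ℕ,
      (∀ j j', Q j → Q j' → χ j = χ j' → code j = code j' → j = j') ∧
      (∀ j, Q j → code j < Fintype.card {j' // Q j' ∧ χ j' = χ j}) := by
  refine ⟨fun j => if h : Q j then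
    (Fintype.equivFin {j' // Q j' ∧ χ j' = χ j} ⟨j, h, rfl⟩ : ℕ) else 0, ?_, ?_⟩
  · intro j j' hj hj' hχ hc
    have key : ∀ (o : O) (k : J) (hk : Q k) (ho : χ k = o),
        (Fintype.equivFin {j' // Q j' ∧ χ j' = χ k} ⟨k, hk, rfl⟩ : ℕ) =
        (Fintype.equivFin {j' // Q j' ∧ χ j' = o} ⟨k, hk, ho⟩ : ℕ) := by
      intro o k hk ho
      subst ho; rfl
    simp only [hj, hj', dif_pos] at hc
    rw [key (χ j') j hj hχ] at hc
    have h1 := (Fintype.equivFin {j'' // Q j'' ∧ χ j'' = χ j'}).injective (Fin.ext hc)
    exact congrArg Subtype.val h1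
  · intro j hj
    simp only [hj, dif_pos]
    exact Fin.is_lt _

variable {I J : Type} [Fintype I] [DecidableEq I] [Fintype J] [DecidableEq J]

/-- the system of equivariant functions has a common zero -/
theorem exists_zero (M : I → ℕ) (χ : J → Option I) (P Q : J → Prop) [DecidablePred P]
    [DecidablePred Q]
    (hx : Fintype.card {j // Q j ∧ χ j = none} < Fintype.card {j // P j ∧ χ j = none})
    (hi : ∀ i, 2 * Fintype.card {j // Q j ∧ χ j = some i} ≤ M i) (hM : ∀ i, 1 ≤ M i)
    (V : AT M χ) :
    ∃ (p : XX M) (α : J → ℂ), α ≠ 0 ∧ (∀ j, ¬ P j → α j = 0) ∧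
      ∀ j, Q j → (ev p V *ᵥ α) j = 0 := by
  classical
  obtain ⟨code, hc1, hc2⟩ := exists_code Q χ
  set x : ℕ := Fintype.card {j // P j ∧ χ j = none} with hxdef
  set N : ℕ := Fintype.card I with hN
  set e : I ≃ Fin N := Fintype.equivFin I with he
  set n : ℕ → ℕ := fun k => Nat.casesOn k (2 * x - 1)
    (fun k => if h : k < N then M (e.symm ⟨k, h⟩) else 1) with hn
  have hn0 : n 0 = 2 * x - 1 := rfl
  have hne : ∀ i : I, n ((e i : ℕ) + 1) = M i := by
    intro i
    have : n ((e i : ℕ) + 1) = if h : (e i : ℕ) < N then M (e.symm ⟨(e i : ℕ), h⟩) else 1 := rfl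
    rw [this, dif_pos (e i).2]
    simp
  have hn1 : ∀ k, 1 ≤ n k := by
    intro k
    rcases k with _ | k
    · rw [hn0]; omega
    · show 1 ≤ if h : k < N then M (e.symm ⟨k, h⟩) else 1
      split_ifs with h
      · exact hM _
      · exact le_rfl
  have hcard : Fintype.card ({j // P j ∧ χ j = none} × Fin 2) = Fintype.card (Fin (n 0 + 1)) := by
    rw [Fintype.card_prod, Fintype.card_fin, Fintype.card_fin, hn0, ← hxdef]; omega
  set g : ({j // P j ∧ χ j = none} × Fin 2) ≃ Fin (n 0 + 1) := Fintype.equivOfCardEq hcard with hg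
  -- the vector
  set al : BT.Om n → J → ℂ := fun v j => if h : P j ∧ χ j = none then
    ((v 0 (g (⟨j, h⟩, 0)) : ℝ) : ℂ) + ((v 0 (g (⟨j, h⟩, 1)) : ℝ) : ℂ) * Complex.I else 0 with hal
  -- the point
  set wt : BT.Om n → ∀ i : I, EuclideanSpace ℝ (Fin (M i + 1)) := fun v i =>
    WithLp.toLp 2 (fun k : Fin (M i + 1) => v ((e i : ℕ) + 1) (Fin.cast (by rw [hne i]) k)) with hwt
  set pt : BT.Om n → XX M := fun v i => nz (wt v i) with hpt
  -- the components
  set comp : J → Fin 2 → BT.Om n → ℝ := fun j b v => if b = 0 then ((ev (pt v) V *ᵥ al v) j).re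
    else ((ev (pt v) V *ᵥ al v) j).im with hcomp
  set idx : Option I → ℕ := fun o => o.elim 0 (fun i => (e i : ℕ) + 1) with hidx
  set f : ℕ → ℕ → BT.Om n → ℝ := fun k s v => ∑ j : J, ∑ b : Fin 2,
    if Q j ∧ idx (χ j) = k ∧ 2 * code j + b = s then comp j b v else 0 with hf
  set pp : ℕ → ℕ → ℕ → ZMod 2 := fun k _ k' => if k' = k ∨ k' = 0 then 1 else 0 with hpp
  have hwne : ∀ v ∈ BT.PP n, ∀ i, wt v i ≠ 0 := by
    intro v hv i h0
    have h1 := hv ((e i : ℕ) + 1)
    simp only [BU.K, Set.mem_ofPred_eq] at h1
    have h2 : ∀ k, v ((e i : ℕ) + 1) k = 0 := by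
      intro k
      have h3 := congrFun (congrArg WithLp.ofLp h0) (Fin.cast (by rw [hne i]) k)
      simpa [hwt] using h3
    simp [h2] at h1
  have hcal : ∀ j, Continuous fun v : BT.Om n => al v j := by
    intro j
    simp only [hal]
    split_ifs with h
    · have h1 : ∀ k, Continuous fun v : BT.Om n => v 0 k := fun k =>
        (continuous_apply k).comp (continuous_apply 0)
      exact (Complex.continuous_ofReal.comp (h1 _)).add
        ((Complex.continuous_ofReal.comp (h1 _)).mul continuous_const)
    · exact continuous_const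
  have hcwt : ∀ i, Continuous fun v : BT.Om n => wt v i := by
    intro i
    simp only [hwt]
    refine (PiLp.continuous_toLp 2 _).comp ?_
    refine continuous_pi fun k => ?_
    exact (continuous_apply _).comp (continuous_apply _)
  have hcpt : ContinuousOn pt (BT.PP n) := by
    rw [continuousOn_pi]
    intro i
    exact continuousOn_nz.comp (hcwt i).continuousOn fun v hv => hwne v hv i
  have hccomp : ∀ j b, ContinuousOn (comp j b) (BT.PP n) := by
    intro j b
    have h1 : ContinuousOn (fun v => (ev (pt v) V *ᵥ al v) j) (BT.PP n) := by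
      have h2 : (fun v => (ev (pt v) V *ᵥ al v) j) =
          fun v => ∑ k, ev (pt v) V j k * al v k := by
        funext v; rfl
      rw [h2]
      refine continuousOn_finsetSum _ fun k _ => ?_
      refine ContinuousOn.mul ?_ (hcal k).continuousOn
      have h3 : Continuous fun q : XX M => ev q V j k := (continuous_ev V).matrix_elem j k
      exact h3.comp_continuousOn hcpt
    simp only [hcomp]
    split_ifs
    · exact Complex.continuous_re.comp_continuousOn h1
    · exact Complex.continuous_im.comp_continuousOn h1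
  have hcf : ∀ k s, ContinuousOn (f k s) (BT.PP n) := by
    intro k s
    simp only [hf]
    refine continuousOn_finsetSum _ fun j _ => continuousOn_finsetSum _ fun b _ => ?_
    split_ifs
    · exact hccomp j b
    · exact continuousOn_const
  -- parity
  have hpar0 : ∀ v, ∀ j b, comp j b (BT.flp n 0 v) = - comp j b v := by
    intro v j b
    have h1 : al (BT.flp n 0 v) = - al v := by
      funext k
      simp only [hal, BT.flp, Function.update_self, Pi.neg_apply]
      split_ifs
      · push_cast; ring
      · simp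
    have h2 : pt (BT.flp n 0 v) = pt v := by
      funext i
      simp only [hpt, hwt, BT.flp]
      congr 2
    simp only [hcomp, h1, h2, Matrix.mulVec_neg, Pi.neg_apply, Complex.neg_re, Complex.neg_im]
    split_ifs <;> rfl
  have hpar1 : ∀ v ∈ BT.PP n, ∀ i : I, ∀ j b, comp j b (BT.flp n ((e i : ℕ) + 1) v) =
      (if χ j = some i then -1 else 1) * comp j b v := by
    intro v hv i j b
    have h1 : al (BT.flp n ((e i : ℕ) + 1) v) = al v := by
      funext k
      simp only [hal, BT.flp]
      have : (0 : ℕ) ≠ (e i : ℕ) + 1 := by omega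
      rw [Function.update_of_ne this]
    have h2 : pt (BT.flp n ((e i : ℕ) + 1) v) = flp i (pt v) := by
      funext a
      by_cases ha : a = i
      · subst ha
        simp only [flp, Function.update_self, hpt]
        rw [← nz_neg (hwne v hv a)]
        congr 1
        simp only [hwt, BT.flp, Function.update_self]
        rfl
      · simp only [flp, Function.update_of_ne ha, hpt, hwt, BT.flp]
        have : (e a : ℕ) + 1 ≠ (e i : ℕ) + 1 := by
          intro h
          exact ha (e.injective (Fin.ext (by omega)))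
        rw [Function.update_of_ne this]
    have h3 : (ev (pt (BT.flp n ((e i : ℕ) + 1) v)) V *ᵥ al (BT.flp n ((e i : ℕ) + 1) v)) j =
        (if χ j = some i then -1 else 1) * (ev (pt v) V *ᵥ al v) j := by
      rw [h1, h2]
      simp only [Matrix.mulVec, dotProduct]
      rw [Finset.mul_sum]
      refine Finset.sum_congr rfl fun k _ => ?_
      have hq : ev (flp i (pt v)) V j k = sg χ i j * ev (pt v) V j k * sg χ i k :=
        eqv_ev V i (pt v) j k
      rw [hq]
      by_cases hk : P k ∧ χ k = none
      · have : sg χ i k = 1 := by simp [sg, hk.2]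
        rw [this, mul_one, mul_assoc]; rfl
      · have : al v k = 0 := by simp only [hal]; rw [dif_neg hk]
        rw [this]; simp
    simp only [hcomp]
    rw [h3]
    by_cases hb : b = 0
    · rw [if_pos hb, if_pos hb]
      split_ifs <;> simp
    · rw [if_neg hb, if_neg hb]
      split_ifs <;> simp
  have hpar : ∀ k < N + 1, ∀ s < n k, ∀ k' < N + 1, ∀ v ∈ BT.PP n,
      f k s (BT.flp n k' v) = BT.sgn (pp k s k') * f k s v := by
    intro k _ s _ k' hk' v hv
    simp only [hf]
    rw [Finset.mul_sum]
    refine Finset.sum_congr rfl fun j _ => ?_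
    rw [Finset.mul_sum]
    refine Finset.sum_congr rfl fun b _ => ?_
    by_cases hcond : Q j ∧ idx (χ j) = k ∧ 2 * code j + b = s
    · rw [if_pos hcond, if_pos hcond]
      rcases k' with _ | k'
      · rw [hpar0]
        simp [hpp, BT.sgn]
      · have hlt : k' < N := by omega
        obtain ⟨i, hi'⟩ : ∃ i : I, (e i : ℕ) = k' := ⟨e.symm ⟨k', hlt⟩, by simp⟩
        subst hi'
        rw [hpar1 v hv i]
        congr 1
        have h4 : (χ j = some i) ↔ ((e i : ℕ) + 1 = k) := by
          rw [← hcond.2.1]
          simp only [hidx]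
          rcases χ j with _ | a
          · simp
          · simp only [Option.some.injEq, Option.elim_some]
            constructor
            · rintro rfl; rfl
            · intro h
              exact (e.injective (Fin.ext (by omega : (e a : ℕ) = e i)))
        simp only [hpp, BT.sgn]
        by_cases h5 : χ j = some i
        · rw [if_pos h5, if_pos (Or.inl (h4.1 h5)), if_neg one_ne_zero]
        · have h6 : ¬ ((e i : ℕ) + 1 = k ∨ (e i : ℕ) + 1 = 0) := by
            rintro (h | h)
            · exact h5 (h4.2 h)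
            · omega
          rw [if_neg h5, if_neg h6, if_pos rfl]
    · rw [if_neg hcond, if_neg hcond, mul_zero]
  obtain ⟨v, hv, hz⟩ := BT.triangular n hn1 (N + 1) pp (by intro i r; simp [hpp])
    (by
      intro i r k hik
      show (if k = i ∨ k = 0 then (1 : ZMod 2) else 0) = 0
      rw [if_neg]
      rintro (h | h) <;> omega) f hcf hpar
  refine ⟨pt v, al v, ?_, ?_, ?_⟩
  · intro h0
    have h1 := hv 0
    simp only [BU.K, Set.mem_ofPred_eq] at h1
    have h2 : ∀ k, v 0 k = 0 := by
      intro k
      obtain ⟨⟨⟨j, hj⟩, b⟩, rfl⟩ := g.surjective k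
      have h3 := congrFun h0 j
      simp only [hal, dif_pos hj, Pi.zero_apply] at h3
      have h4 := congrArg Complex.re h3
      have h5 := congrArg Complex.im h3
      simp at h4 h5
      fin_cases b
      · exact h4
      · exact h5
    simp [h2] at h1
  · intro j hj
    simp only [hal]
    rw [dif_neg]
    rintro ⟨h, _⟩; exact hj h
  · intro j hj
    have key : ∀ b : Fin 2, comp j b v = 0 := by
      intro b
      have hlt : idx (χ j) < N + 1 := by
        simp only [hidx]
        rcases χ j with _ | a
        · simp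
        · simp only [Option.elim_some]; have := (e a).2; omega
      have hlt2 : 2 * code j + b < n (idx (χ j)) := by
        have h1 := hc2 j hj
        have hb := b.2
        rcases h : χ j with _ | a
        · rw [h] at h1
          show 2 * code j + b < n 0
          rw [hn0]; omega
        · rw [h] at h1
          show 2 * code j + b < n ((e a : ℕ) + 1)
          rw [hne a]
          have := hi a
          omega
      have h2 := hz _ hlt _ hlt2
      simp only [hf] at h2
      rw [Finset.sum_eq_single j, Finset.sum_eq_single b] at h2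
      · simpa [hj] using h2
      · intro b' _ hb'
        rw [if_neg]
        rintro ⟨_, _, h3⟩
        exact hb' (Fin.ext (by omega))
      · intro h; exact absurd (Finset.mem_univ _) h
      · intro j' _ hj'
        refine Finset.sum_eq_zero fun b' _ => ?_
        rw [if_neg]
        rintro ⟨h3, h4, h5⟩
        apply hj'
        have hb1 := b.2
        have hb2 := b'.2
        refine hc1 j' j h3 hj ?_ (by omega)
        simp only [hidx] at h4
        rcases h6 : χ j' with _ | a <;> rcases h7 : χ j with _ | a'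
        · rfl
        · rw [h6, h7] at h4; simp at h4
        · rw [h6, h7] at h4; simp at h4
        · rw [h6, h7] at h4
          simp only [Option.elim_some] at h4
          rw [e.injective (Fin.ext (by omega : (e a : ℕ) = e a'))]
      · intro h; exact absurd (Finset.mem_univ _) h
    have h0 : ((ev (pt v) V *ᵥ al v) j).re = 0 := by simpa [hcomp] using key 0
    have h1 : ((ev (pt v) V *ᵥ al v) j).im = 0 := by simpa [hcomp] using key 1
    exact Complex.ext h0 h1

/-- **The obstruction.** -/
theorem obstruction (M : I → ℕ) (χ : J → Option I) (P Q : J → Prop) [DecidablePred P]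
    [DecidablePred Q]
    (hx : Fintype.card {j // Q j ∧ χ j = none} < Fintype.card {j // P j ∧ χ j = none})
    (hi : ∀ i, 2 * Fintype.card {j // Q j ∧ χ j = some i} ≤ M i) (hM : ∀ i, 1 ≤ M i)
    (V : AT M χ) :
    1 ≤ ‖star V * dg (fun j => if Q j then 1 else 0) * V - dg (fun j => if P j then 1 else 0)‖ := by
  obtain ⟨p, α, hα, hP, hQ⟩ := exists_zero M χ P Q hx hi hM V
  set W : AT M χ := star V * dg (fun j => if Q j then 1 else 0) * V -
    dg (fun j => if P j then 1 else 0) with hW
  have h1 : ev p W *ᵥ α = -α := by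
    rw [hW, ev_sub, ev_mul, ev_mul, ev_dg, ev_dg, Matrix.sub_mulVec, ← Matrix.mulVec_mulVec,
      ← Matrix.mulVec_mulVec]
    have h2 : Matrix.diagonal (fun j => if Q j then (1 : ℂ) else 0) *ᵥ (ev p V *ᵥ α) = 0 := by
      funext j
      rw [Matrix.mulVec_diagonal]
      by_cases h : Q j
      · rw [hQ j h]; simp
      · simp [h]
    have h3 : Matrix.diagonal (fun j => if P j then (1 : ℂ) else 0) *ᵥ α = α := by
      funext j
      rw [Matrix.mulVec_diagonal]
      by_cases h : P j
      · simp [h]
      · rw [hP j h]; simp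
    rw [h2, h3, Matrix.mulVec_zero, zero_sub]
  have h2 := Matrix.l2_opNorm_mulVec (ev p W) (WithLp.toLp 2 α)
  have h3 : ‖(WithLp.toLp 2 (-α) : EuclideanSpace ℂ J)‖ = ‖(WithLp.toLp 2 α : EuclideanSpace ℂ J)‖ := by
    have : (WithLp.toLp 2 (-α) : EuclideanSpace ℂ J) = -(WithLp.toLp 2 α) := rfl
    rw [this, norm_neg]
  have h4 : 0 < ‖(WithLp.toLp 2 α : EuclideanSpace ℂ J)‖ := by
    rw [norm_pos_iff]
    intro h
    apply hα
    exact congrArg WithLp.ofLp h
  have h5 : ‖(WithLp.toLp 2 α : EuclideanSpace ℂ J)‖ ≤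
      ‖ev p W‖ * ‖(WithLp.toLp 2 α : EuclideanSpace ℂ J)‖ := by
    have h6 : (WithLp.ofLp (WithLp.toLp 2 α : EuclideanSpace ℂ J)) = α := rfl
    rw [h6, h1] at h2
    rw [← h3]
    exact h2.trans (by rw [h3])
  have h7 : 1 ≤ ‖ev p W‖ := by
    by_contra h
    push Not at h
    nlinarith
  exact h7.trans (norm_ev_le W p)

end Pool.Agent.H254.BR
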