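import Mathlib

/-!
Sign-equivariant matrix valued functions on products of spheres.
-/

set_option autoImplicit false
set_option linter.unusedSectionVars false

noncomputable section

namespace Pool.Agent.H254.BR

open scoped Matrix.Norms.L2Operator
open Matrix

/-- the unit sphere of dimension `m` -/
abbrev Sph (m : ℕ) : Type := Metric.sphere (0 : EuclideanSpace ℝ (Fin (m + 1))) 1

/-- products of spheres -/
abbrev XX {I : Type} (M : I → ℕ) : Type := ∀ i, Sph (M i)

variable {I J : Type} [DecidableEq I] [Fintype J] [DecidableEq J]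

/-- change the sign of one coordinate -/
def flp {M : I → ℕ} (i : I) (p : XX M) : XX M := Function.update p i (-(p i))

lemma continuous_flp {M : I → ℕ} (i : I) : Continuous (flp i : XX M → XX M) := by
  unfold flp
  exact continuous_id.update i (continuous_neg.comp (continuous_apply i))

/-- the sign of the line `j` under the flip of the sphere `i` -/
def sg (χ : J → Option I) (i : I) (j : J) : ℂ := if χ j = some i then -1 else 1

@[simp] lemma sg_mul_self (χ : J → Option I) (i : I) (j : J) : sg χ i j * sg χ i j = 1 := by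
  unfold sg; split_ifs <;> simp

@[simp] lemma star_sg (χ : J → Option I) (i : I) (j : J) : star (sg χ i j) = sg χ i j := by
  unfold sg; split_ifs <;> simp

/-- equivariance -/
def IsEqv {M : I → ℕ} (χ : J → Option I) (f : XX M → Matrix J J ℂ) : Prop :=
  ∀ i p j j', f (flp i p) j j' = sg χ i j * f p j j' * sg χ i j'

lemma IsEqv.const_diag {M : I → ℕ} (χ : J → Option I) (s : J → ℂ) :
    IsEqv (M := M) χ (fun _ => Matrix.diagonal s) := by
  intro i p j j'
  beta_reduce
  by_cases h : j = j'
  · subst h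
    rw [Matrix.diagonal_apply_eq, mul_comm (sg χ i j), mul_assoc, sg_mul_self, mul_one]
  · rw [Matrix.diagonal_apply_ne _ h]; simp

lemma IsEqv.mul {M : I → ℕ} {χ : J → Option I} {f g : XX M → Matrix J J ℂ}
    (hf : IsEqv χ f) (hg : IsEqv χ g) : IsEqv χ (fun p => f p * g p) := by
  intro i p j j'
  beta_reduce
  rw [Matrix.mul_apply, Matrix.mul_apply, Finset.mul_sum, Finset.sum_mul]
  refine Finset.sum_congr rfl fun k _ => ?_
  rw [hf i p j k, hg i p k j']
  calc sg χ i j * f p j k * sg χ i k * (sg χ i k * g p k j' * sg χ i j')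
      = (sg χ i k * sg χ i k) * (sg χ i j * (f p j k * g p k j') * sg χ i j') := by ring
    _ = _ := by rw [sg_mul_self, one_mul]

/-- the algebra of equivariant functions -/
def Alg (M : I → ℕ) (χ : J → Option I) : StarSubalgebra ℂ C(XX M, Matrix J J ℂ) where
  carrier := {f | IsEqv χ f}
  mul_mem' := by
    intro f g hf hg
    exact IsEqv.mul hf hg
  add_mem' := by
    intro f g hf hg i p j j'
    have h1 := hf i p j j'
    have h2 := hg i p j j'
    simp only [ContinuousMap.add_apply, Matrix.add_apply]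
    rw [h1, h2]; ring
  algebraMap_mem' := by
    intro c
    exact IsEqv.const_diag χ (fun _ => c)
  star_mem' := by
    intro f hf i p j j'
    have h1 := hf i p j' j
    simp only [ContinuousMap.star_apply, Matrix.star_apply]
    rw [h1]
    simp only [star_mul', star_sg]; ring

lemma mem_Alg {M : I → ℕ} {χ : J → Option I} {f : C(XX M, Matrix J J ℂ)} :
    f ∈ Alg M χ ↔ IsEqv χ f := Iff.rfl

lemma isClosed_Alg (M : I → ℕ) (χ : J → Option I) :
    IsClosed (Alg M χ : Set C(XX M, Matrix J J ℂ)) := by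
  have : (Alg M χ : Set C(XX M, Matrix J J ℂ)) =
      ⋂ i, ⋂ p, ⋂ j, ⋂ j', {f : C(XX M, Matrix J J ℂ) |
        f (flp i p) j j' = sg χ i j * f p j j' * sg χ i j'} := by
    ext f
    simp only [Set.mem_iInter]
    exact Iff.rfl
  rw [this]
  refine isClosed_iInter fun i => isClosed_iInter fun p => isClosed_iInter fun j =>
    isClosed_iInter fun j' => ?_
  have hc : ∀ q : XX M, ∀ a b : J, Continuous fun f : C(XX M, Matrix J J ℂ) => f q a b := by
    intro q a b
    exact (ContinuousEvalConst.continuous_eval_const q).matrix_elem a b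
  exact isClosed_eq (hc _ _ _) ((continuous_const.mul (hc _ _ _)).mul continuous_const)

instance instCS0 (M : I → ℕ) (χ : J → Option I) : CStarAlgebra ↥(Alg M χ) :=
  StarSubalgebra.cstarAlgebra (Alg M χ) (h_closed := isClosed_Alg M χ)

/-- the algebra as a type -/
def AT (M : I → ℕ) (χ : J → Option I) : Type := ↥(Alg M χ)

instance instCS (M : I → ℕ) (χ : J → Option I) : CStarAlgebra (AT M χ) :=
  inferInstanceAs (CStarAlgebra ↥(Alg M χ))

/-- the element of the algebra given by a function -/
def mk {M : I → ℕ} {χ : J → Option I} (f : XX M → Matrix J J ℂ) (hf : Continuous f)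
    (he : IsEqv χ f) : AT M χ := ⟨⟨f, hf⟩, he⟩

/-- evaluation at a point -/
def ev {M : I → ℕ} {χ : J → Option I} (p : XX M) (f : AT M χ) : Matrix J J ℂ := f.1 p

@[simp] lemma ev_mk {M : I → ℕ} {χ : J → Option I} (f : XX M → Matrix J J ℂ) (hf : Continuous f)
    (he : IsEqv χ f) (p : XX M) : ev p (mk f hf he) = f p := rfl

lemma at_ext {M : I → ℕ} {χ : J → Option I} {f g : AT M χ} (h : ∀ p, ev p f = ev p g) : f = g :=
  Subtype.ext (ContinuousMap.ext h)

@[simp] lemma ev_add {M : I → ℕ} {χ : J → Option I} (p : XX M) (f g : AT M χ) :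
    ev p (f + g) = ev p f + ev p g := rfl
@[simp] lemma ev_sub {M : I → ℕ} {χ : J → Option I} (p : XX M) (f g : AT M χ) :
    ev p (f - g) = ev p f - ev p g := rfl
@[simp] lemma ev_neg {M : I → ℕ} {χ : J → Option I} (p : XX M) (f : AT M χ) :
    ev p (-f) = - ev p f := rfl
@[simp] lemma ev_mul {M : I → ℕ} {χ : J → Option I} (p : XX M) (f g : AT M χ) :
    ev p (f * g) = ev p f * ev p g := rfl
@[simp] lemma ev_one {M : I → ℕ} {χ : J → Option I} (p : XX M) :
    ev p (1 : AT M χ) = 1 := rfl
@[simp] lemma ev_zero {M : I → ℕ} {χ : J → Option I} (p : XX M) :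
    ev p (0 : AT M χ) = 0 := rfl
@[simp] lemma ev_star {M : I → ℕ} {χ : J → Option I} (p : XX M) (f : AT M χ) :
    ev p (star f) = star (ev p f) := rfl
@[simp] lemma ev_smul {M : I → ℕ} {χ : J → Option I} (p : XX M) (c : ℂ) (f : AT M χ) :
    ev p (c • f) = c • ev p f := rfl

/-- evaluation as a star homomorphism -/
def evHom {M : I → ℕ} {χ : J → Option I} (p : XX M) : AT M χ →⋆ₐ[ℂ] Matrix J J ℂ where
  toFun := ev p
  map_one' := rfl
  map_mul' _ _ := rfl
  map_zero' := rfl
  map_add' _ _ := rfl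
  commutes' _ := rfl
  map_star' _ := rfl

@[simp] lemma ev_sum {M : I → ℕ} {χ : J → Option I} {ι : Type} (s : Finset ι) (p : XX M)
    (f : ι → AT M χ) : ev p (∑ a ∈ s, f a) = ∑ a ∈ s, ev p (f a) :=
  map_sum (evHom p) f s

lemma continuous_ev {M : I → ℕ} {χ : J → Option I} (f : AT M χ) : Continuous fun p => ev p f :=
  f.1.continuous

lemma eqv_ev {M : I → ℕ} {χ : J → Option I} (f : AT M χ) : IsEqv χ (fun p => ev p f) := f.2

lemma norm_le_iff {M : I → ℕ} {χ : J → Option I} (f : AT M χ) {C : ℝ} (hC : 0 ≤ C) :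
    ‖f‖ ≤ C ↔ ∀ p, ‖ev p f‖ ≤ C :=
  ContinuousMap.norm_le f.1 hC

lemma norm_ev_le {M : I → ℕ} {χ : J → Option I} (f : AT M χ) (p : XX M) : ‖ev p f‖ ≤ ‖f‖ :=
  (norm_le_iff f (norm_nonneg f)).1 le_rfl p

lemma isUnit_iff {M : I → ℕ} {χ : J → Option I} (f : AT M χ) :
    IsUnit f ↔ ∀ p, IsUnit (ev p f) := by
  constructor
  · intro h p
    exact h.map (evHom p)
  · intro h
    have : IsClosed (Alg M χ : Set C(XX M, Matrix J J ℂ)) := isClosed_Alg M χ
    have h1 : IsUnit (f.1) := (ContinuousMap.isUnit_iff_forall_isUnit f.1).2 h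
    exact (StarSubalgebra.coe_isUnit (Alg M χ)).1 h1

/-- constant diagonal elements -/
def dg {M : I → ℕ} {χ : J → Option I} (s : J → ℂ) : AT M χ :=
  mk (fun _ => Matrix.diagonal s) continuous_const (IsEqv.const_diag χ s)

@[simp] lemma ev_dg {M : I → ℕ} {χ : J → Option I} (s : J → ℂ) (p : XX M) :
    ev p (dg s : AT M χ) = Matrix.diagonal s := rfl

end Pool.Agent.H254.BR
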