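import Pool.Agent.H254.BR.Tr
import Pool.Agent.H254.BR.Abs

/-!
Properties of the connecting maps.
-/

set_option autoImplicit false
set_option linter.unusedSectionVars false
set_option linter.unusedSimpArgs false

noncomputable section

namespace Pool.Agent.H254.BR

open scoped Matrix.Norms.L2Operator
open Matrix

variable {I J : Type} [DecidableEq I] [Fintype J] [DecidableEq J]

section blockdiag

variable {B : Type} [Fintype B] [DecidableEq B]

/-- block diagonal matrices as a star homomorphism -/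
def bdHom : (B → Matrix J J ℂ) →⋆ₐ[ℂ] Matrix (J × B) (J × B) ℂ where
  toFun N := Matrix.blockDiagonal N
  map_one' := Matrix.blockDiagonal_one
  map_mul' N N' := Matrix.blockDiagonal_mul N N'
  map_zero' := Matrix.blockDiagonal_zero
  map_add' N N' := Matrix.blockDiagonal_add N N'
  commutes' z := by
    rw [Algebra.algebraMap_eq_smul_one, Algebra.algebraMap_eq_smul_one,
      Matrix.blockDiagonal_smul]
    congr 1
    exact Matrix.blockDiagonal_one
  map_star' N := by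
    rw [Matrix.star_eq_conjTranspose, Matrix.blockDiagonal_conjTranspose]
    rfl

lemma norm_blockDiagonal_le (N : B → Matrix J J ℂ) {C : ℝ} (hC : 0 ≤ C) (h : ∀ b, ‖N b‖ ≤ C) :
    ‖Matrix.blockDiagonal N‖ ≤ C := by
  have h1 : ‖(bdHom : (B → Matrix J J ℂ) →⋆ₐ[ℂ] _) N‖ ≤ ‖N‖ :=
    Pool.Agent.H188R3.norm_map_le' bdHom N
  exact h1.trans ((pi_norm_le_iff_of_nonneg hC).2 h)

end blockdiag

variable {c t K r m : ℕ} {M : I → ℕ} {χ : J → Option I}

/-- a base point -/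
def sph0 (m : ℕ) : Sph m := ⟨EuclideanSpace.single 0 1, by simp⟩

/-- a point of the next space all of whose projections are `q` -/
def lft (q : XX M) : XX (MN c r m M)
  | Sum.inl (_, i) => q i
  | Sum.inr _ => sph0 m

lemma prj_lft (l : Fin c) (q : XX M) : prj l (lft q : XX (MN c r m M)) = q := rfl

lemma stp_injective (hc : 0 < c) (pt : Fin t → XX M) :
    Function.Injective (stp pt : AT M χ →⋆ₐ[ℂ] AT (MN c r m M) (χN c t K r χ)) := by
  rw [injective_iff_map_eq_zero]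
  intro f hf
  refine at_ext fun q => ?_
  have h1 : ev (lft q) (stp pt f : AT (MN c r m M) (χN c t K r χ)) = 0 := by rw [hf]; rfl
  rw [stp_apply, ev_blk] at h1
  have h2 := congrFun (Matrix.blockDiagonal_injective (h1.trans Matrix.blockDiagonal_zero.symm))
    (Sum.inl ⟨0, hc⟩)
  exact h2

lemma stp_sing (hc : 0 < c) (pt : Fin t → XX M) {f : AT M χ} {q : XX M}
    (h : ¬ IsUnit (ev q f)) :
    ¬ IsUnit (ev (lft q) (stp pt f : AT (MN c r m M) (χN c t K r χ))) := by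
  intro h1
  apply h
  rw [stp_apply, ev_blk, Matrix.isUnit_iff_isUnit_det, Matrix.det_blockDiagonal] at h1
  rw [Matrix.isUnit_iff_isUnit_det]
  rw [isUnit_iff_ne_zero] at h1 ⊢
  rw [Finset.prod_ne_zero_iff] at h1
  exact h1 (Sum.inl ⟨0, hc⟩) (Finset.mem_univ _)

lemma stp_modulus [Fintype I] (pt : Fin t → XX M) (f : AT M χ) {ε δ : ℝ} (hε : 0 ≤ ε)
    (h : ∀ p q, dist p q ≤ δ → ‖ev p f - ev q f‖ ≤ ε) (p q : XX (MN c r m M))
    (hpq : dist p q ≤ δ) :
    ‖ev p (stp pt f : AT (MN c r m M) (χN c t K r χ)) - ev q (stp pt f)‖ ≤ ε := by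
  rw [stp_apply, ev_blk, ev_blk, ← Matrix.blockDiagonal_sub]
  refine norm_blockDiagonal_le _ hε fun b => ?_
  rcases b with l | a
  · refine h _ _ (le_trans ?_ hpq)
    refine (dist_pi_le_iff dist_nonneg).2 fun i => ?_
    exact dist_le_pi_dist p q (Sum.inl (l, i))
  · simp only [bk, Pi.sub_apply, sub_self, norm_zero]
    exact hε

lemma stp_dg (pt : Fin t → XX M) (s : J → ℂ) :
    (stp pt (dg s : AT M χ) : AT (MN c r m M) (χN c t K r χ)) = dg (fun x => s x.1) := by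
  refine at_ext fun p => ?_
  rw [stp_apply, ev_blk, ev_dg]
  have : (bk (fun q => ev q (dg s : AT M χ)) (fun a => ev (pt a.1) (dg s : AT M χ)) p :
      BN c t K r J → Matrix J J ℂ) = fun _ => Matrix.diagonal s := by
    funext b
    rcases b with l | a <;> rfl
  rw [this, Matrix.blockDiagonal_diagonal]

/-! ### fullness -/

/-- columns in a trivial block -/
def Xc (t0 : Fin t) (κ0 : J × Fin K) (u : J → ℂ) (β : JN c t K r J) (n : ℕ) :
    AT (MN c r m M) (χN c t K r χ) :=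
  ∑ j, u j • yy (j, Sum.inr (t0, Sum.inl κ0)) 0 β n

lemma stp_mul_Xc (pt : Fin t → XX M) (f : AT M χ) (t0 : Fin t) (κ0 : J × Fin K) (u : J → ℂ)
    (β : JN c t K r J) (n : ℕ) :
    (stp pt f : AT (MN c r m M) (χN c t K r χ)) * Xc t0 κ0 u β n =
      Xc t0 κ0 (ev (pt t0) f *ᵥ u) β n := by
  refine at_ext fun p => ?_
  unfold Xc
  simp only [ev_mul, ev_sum, ev_smul, ev_yy, stp_apply, ev_blk]
  ext a b
  rw [Matrix.mul_apply, Matrix.sum_apply]
  simp only [Matrix.sum_apply, Matrix.smul_apply, Matrix.single_apply, smul_eq_mul,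
    Matrix.mulVec, dotProduct]
  by_cases hb : β = b
  · subst hb
    obtain ⟨a1, a2⟩ := a
    rw [Fintype.sum_prod_type]
    simp only [Matrix.blockDiagonal_apply, Prod.mk.injEq, and_true]
    by_cases ha : a2 = Sum.inr (t0, Sum.inl κ0)
    · subst ha
      rw [Finset.sum_comm]
      rw [Finset.sum_eq_single (Sum.inr (t0, Sum.inl κ0) : BN c t K r J)]
      · simp [bk, χN, Finset.sum_mul, mul_assoc]
      · intro y _ hy
        simp [hy.symm]
      · intro h; exact absurd (Finset.mem_univ _) h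
    · have h1 : ∀ x : J, ¬ (x = a1 ∧ (Sum.inr (t0, Sum.inl κ0) : BN c t K r J) = a2) := by
        rintro x ⟨_, h⟩; exact ha h.symm
      simp only [h1, if_false, mul_zero, Finset.sum_const_zero]
      refine Finset.sum_eq_zero fun x _ => ?_
      refine Finset.sum_eq_zero fun y _ => ?_
      by_cases h2 : a2 = y
      · subst h2
        have h3 : ¬ ((Sum.inr (t0, Sum.inl κ0) : BN c t K r J) = a2) := fun h => ha h.symm
        simp [h3]
      · simp [h2]
  · simp [hb]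

lemma star_Xc_mul_Xc (t0 : Fin t) (κ0 : J × Fin K) (u w : J → ℂ) (β : JN c t K r J) (n : ℕ) :
    star (Xc t0 κ0 u β n : AT (MN c r m M) (χN c t K r χ)) * Xc t0 κ0 w β n =
      (∑ j, star (u j) * w j) • yy β n β n := by
  unfold Xc
  rw [star_sum, Finset.sum_mul, Finset.sum_smul]
  refine Finset.sum_congr rfl fun j _ => ?_
  rw [Finset.mul_sum, Finset.sum_eq_single j]
  · rw [star_smul, star_yy, smul_mul_smul_comm]
    rw [yy_triv (by rfl)]
  · intro j' _ hj
    rw [star_smul, star_yy, smul_mul_smul_comm, yy_mul_yy_ne, smul_zero]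
    intro h
    exact hj (congrArg Prod.fst h).symm
  · intro h; exact absurd (Finset.mem_univ _) h

lemma MN_le (hK' : ∀ a, M a + 1 ≤ K) {K' : ℕ} (hKK : K ≤ K') (hm : m + 1 ≤ K') :
    ∀ a, MN c r m M a + 1 ≤ K' := by
  rintro (⟨l, i⟩ | s)
  · exact (hK' i).trans hKK
  · exact hm

lemma sum_Xc [Nonempty J] (hK' : ∀ a, M a + 1 ≤ K) (t0 : Fin t) (κ0 : J × Fin K)
    (u : J → ℂ) :
    ∑ β : JN c t K r J, ∑ n : Fin (K + m + 1),
      star (Xc t0 κ0 u β n : AT (MN c r m M) (χN c t K r χ)) * Xc t0 κ0 u β n =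
      (∑ j, star (u j) * u j) • 1 := by
  have h1 : ∀ β : JN c t K r J, ∑ n : Fin (K + m + 1),
      star (Xc t0 κ0 u β n : AT (MN c r m M) (χN c t K r χ)) * Xc t0 κ0 u β n =
      (∑ j, star (u j) * u j) • dg (Pi.single β 1) := by
    intro β
    simp only [star_Xc_mul_Xc]
    rw [← Finset.smul_sum, sum_yy_self (K + m + 1) (by omega) β
      (fun a _ => MN_le hK' (by omega) (by omega) a)]
  rw [Finset.sum_congr rfl fun β _ => h1 β, ← Finset.smul_sum, sum_dg_single]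

/-- a vector on which the matrix is large -/
lemma exists_vec (N : Matrix J J ℂ) {s : ℝ} (hs : 0 ≤ s) (h : s < ‖N‖) :
    ∃ (u : J → ℂ) (b a : ℝ), 0 ≤ b ∧ b ≤ 1 ∧ s ^ 2 ≤ a ∧ ∑ j, star (u j) * u j = (b : ℂ) ∧
      ∑ j, star ((N *ᵥ u) j) * (N *ᵥ u) j = (a : ℂ) := by
  rw [Matrix.l2_opNorm_def] at h
  obtain ⟨x, hx1, hx2⟩ := ContinuousLinearMap.exists_lt_apply_of_lt_opNorm _ h
  have key : ∀ y : EuclideanSpace ℂ J, ∑ j, star (y j) * y j = ((‖y‖ ^ 2 : ℝ) : ℂ) := by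
    intro y
    rw [EuclideanSpace.norm_sq_eq]
    push_cast
    refine Finset.sum_congr rfl fun j _ => ?_
    rw [Complex.star_def, ← Complex.normSq_eq_conj_mul_self, Complex.normSq_eq_norm_sq]
    push_cast; rfl
  set y : EuclideanSpace ℂ J := WithLp.toLp 2 (N *ᵥ (WithLp.ofLp x)) with hy
  refine ⟨WithLp.ofLp x, ‖x‖ ^ 2, ‖y‖ ^ 2, by positivity, ?_, ?_, key x, key y⟩
  · have := norm_nonneg x
    nlinarith
  · have h3 : s < ‖y‖ := hx2
    nlinarith

/-- **Fullness** of the images. -/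
theorem stp_full [Nonempty J] (hK : 1 ≤ K) (hK' : ∀ a, M a + 1 ≤ K) (pt : Fin t → XX M)
    (f : AT M χ) (t0 : Fin t) {s : ℝ} (hs : 0 ≤ s) (h : s < ‖ev (pt t0) f‖) :
    ∃ (x : JN c t K r J × Fin (K + m + 1) → AT (MN c r m M) (χN c t K r χ)) (b a : ℝ),
      0 ≤ b ∧ b ≤ 1 ∧ s ^ 2 ≤ a ∧ ∑ k, star (x k) * x k = (b : ℂ) • 1 ∧
      ∑ k, star (stp pt f * x k) * (stp pt f * x k) = (a : ℂ) • 1 := by
  obtain ⟨u, b, a, hb0, hb, ha, h1, h2⟩ := exists_vec _ hs h
  obtain ⟨j0⟩ := ‹Nonempty J›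
  have : Nonempty J := ⟨j0⟩
  refine ⟨fun k => Xc t0 (j0, ⟨0, hK⟩) u k.1 k.2, b, a, hb0, hb, ha, ?_, ?_⟩
  · rw [Fintype.sum_prod_type]
    rw [sum_Xc hK' t0 (j0, ⟨0, hK⟩) u, h1]
  · simp only [stp_mul_Xc]
    rw [Fintype.sum_prod_type]
    rw [sum_Xc hK' t0 (j0, ⟨0, hK⟩) _, h2]

end Pool.Agent.H254.BR
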