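import Mathlib

/-!
Definitions for the statement.
-/

set_option autoImplicit false

noncomputable section

namespace Pool.Agent.H254.BR

open Filter Topology
open scoped ENNReal NNReal

/-- `A` is stably finite: in every matrix algebra over `A` every isometry is a unitary. -/
def StablyFinite (A : Type) [CStarAlgebra A] : Prop :=
  ∀ (n : ℕ) (v : Matrix (Fin n) (Fin n) A), star v * v = 1 → v * star v = 1

/-- `A` has stable rank one: the invertible elements are dense. -/
def StableRankOne (A : Type) [CStarAlgebra A] : Prop := Dense {x : A | IsUnit x}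

/-- The space of tracial states `T(A)`, in the weak* topology. -/
def TracialStates (A : Type) [CStarAlgebra A] : Set (WeakDual ℂ A) :=
  {τ | τ 1 = 1 ∧ (∀ x : A, 0 ≤ (τ (star x * x)).re ∧ (τ (star x * x)).im = 0) ∧
    ∀ x y : A, τ (x * y) = τ (y * x)}

/-- The simplex `T(A)` is nonempty and its set of extreme points is closed. -/
def BauerTraceSpace (A : Type) [CStarAlgebra A] : Prop :=
  (TracialStates A).Nonempty ∧ IsClosed ((TracialStates A).extremePoints ℝ)

/-- Positive elements. -/
def IsPos {R : Type} [Mul R] [Star R] (x : R) : Prop := ∃ y : R, x = star y * y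

/-- The axioms of a quasitrace on a unital *-algebra: `0 ≤ τ(x* x) = τ(x x*)`,
`τ(a + i b) = τ(a) + i τ(b)` for self-adjoint `a`, `b`, and `τ` is linear on commutative
*-subalgebras (two elements lie in a common commutative *-subalgebra if and only if they are normal
and each commutes with the other and its adjoint). -/
structure IsQuasitrace {R : Type} [Ring R] [StarRing R] [Algebra ℂ R] (τ : R → ℂ) : Prop where
  nonneg : ∀ x : R, 0 ≤ (τ (star x * x)).re ∧ (τ (star x * x)).im = 0
  comm : ∀ x : R, τ (star x * x) = τ (x * star x)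
  add_I : ∀ a b : R, IsSelfAdjoint a → IsSelfAdjoint b →
    τ (a + Complex.I • b) = τ a + Complex.I * τ b
  linear : ∀ (c : ℂ) (x y : R), IsStarNormal x → IsStarNormal y → Commute x y →
    Commute x (star y) → τ (c • x + y) = c * τ x + τ y

/-- The upper left corner embedding of `M_n(A)` in `M_{n+1}(A)`. -/
def corner {A : Type} [Zero A] {n : ℕ} (x : Matrix (Fin n) (Fin n) A) :
    Matrix (Fin (n + 1)) (Fin (n + 1)) A :=
  Matrix.of fun i j => if h : (i : ℕ) < n ∧ (j : ℕ) < n then x ⟨i, h.1⟩ ⟨j, h.2⟩ else 0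

/-- A normalised lower semicontinuous 2-quasitrace on `A`, given together with its canonical
extension to all matrix algebras over `A`. -/
structure QT (A : Type) [CStarAlgebra A] where
  val : ∀ n : ℕ, Matrix (Fin n) (Fin n) A → ℂ
  isQuasitrace : ∀ n, IsQuasitrace (val n)
  lsc : ∀ n, LowerSemicontinuousOn (fun x => (val n x).re) {x | IsPos x}
  compat : ∀ (n : ℕ) (x : Matrix (Fin n) (Fin n) A), val (n + 1) (corner x) = val n x
  map_one : val 1 1 = 1

/-- `d_τ(a) = lim τ(a^{1/n})` is equal to `s`; here `c n` is the positive `(n+1)`-st root of the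
positive element `a` of `M_k(A)`. -/
def HasRank {A : Type} [CStarAlgebra A] (τ : QT A) {k : ℕ} (a : Matrix (Fin k) (Fin k) A)
    (s : ℝ) : Prop :=
  ∃ c : ℕ → Matrix (Fin k) (Fin k) A, (∀ n, IsPos (c n) ∧ c n ^ (n + 1) = a) ∧
    Tendsto (fun n => (τ.val k (c n)).re) atTop (𝓝 s)

/-- Cuntz subequivalence `a ≾ b` in `M_∞(A)`. -/
def CuntzLE {A : Type} [CStarAlgebra A] {k l : ℕ} (a : Matrix (Fin k) (Fin k) A)
    (b : Matrix (Fin l) (Fin l) A) : Prop :=
  ∀ ε : ℝ, 0 < ε → ∃ v : Matrix (Fin l) (Fin k) A,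
    ∀ i j, ‖(v.conjTranspose * b * v - a) i j‖ < ε

/-- `A` has `r`-comparison: if `d_τ(a) + r < d_τ(b)` for every normalised quasitrace `τ`, then
`a ≾ b`. -/
def Comparison (A : Type) [CStarAlgebra A] (r : ℝ) : Prop :=
  ∀ (k l : ℕ) (a : Matrix (Fin k) (Fin k) A) (b : Matrix (Fin l) (Fin l) A), IsPos a → IsPos b →
    (∀ τ : QT A, ∃ s t : ℝ, HasRank τ a s ∧ HasRank τ b t ∧ s + r < t) → CuntzLE a b

/-- The radius of comparison. -/
def rc (A : Type) [CStarAlgebra A] : ℝ≥0∞ :=
  sInf {x : ℝ≥0∞ | ∃ r : ℝ≥0, x = r ∧ Comparison A r}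

end Pool.Agent.H254.BR
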