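import Pool.Agent.H254.BR.Stage
import Pool.Agent.H254.BR.Lim
import Pool.Agent.H254.BR.BUApp

/-!
The limit algebra.
-/

set_option autoImplicit false
set_option linter.unusedSectionVars false
set_option linter.unusedSimpArgs false

noncomputable section

namespace Pool.Agent.H254.BR

open scoped Matrix.Norms.L2Operator
open Matrix Filter Topology
open Pool.Agent.H188R3 (IsLim norm_map_inj norm_map_le')

section general

variable {I J : Type} [Fintype I] [DecidableEq I] [Fintype J] [DecidableEq J]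
variable {M : I → ℕ} {χ : J → Option I}

lemma separable_AT : TopologicalSpace.SeparableSpace (AT M χ) := by
  have h1 : SecondCountableTopology C(XX M, Matrix J J ℂ) := inferInstance
  have h2 : SecondCountableTopology ↥(Alg M χ) :=
    TopologicalSpace.Subtype.secondCountableTopology _
  have h3 : TopologicalSpace.SeparableSpace ↥(Alg M χ) := inferInstance
  exact h3

lemma exists_modulus (f : AT M χ) {ε : ℝ} (hε : 0 < ε) :
    ∃ δ : ℝ, 0 < δ ∧ ∀ p q, dist p q ≤ δ → ‖ev p f - ev q f‖ ≤ ε := by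
  have h1 : UniformContinuous fun p => ev p f :=
    CompactSpace.uniformContinuous_of_continuous (continuous_ev f)
  rw [Metric.uniformContinuous_iff] at h1
  obtain ⟨δ, hδ, h2⟩ := h1 ε hε
  refine ⟨δ / 2, by positivity, fun p q hpq => ?_⟩
  have h3 := h2 (lt_of_le_of_lt hpq (half_lt_self hδ))
  rw [dist_eq_norm] at h3
  exact h3.le

lemma exists_big (f : AT M χ) {s : ℝ} (hs : 0 ≤ s) (h : s < ‖f‖) : ∃ p, s < ‖ev p f‖ := by
  by_contra hcon
  push Not at hcon
  exact absurd ((norm_le_iff f hs).2 hcon) (not_le.2 h)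

instance nontrivial_AT [Nonempty J] : Nontrivial (AT M χ) := by
  refine ⟨⟨0, 1, ?_⟩⟩
  intro h
  obtain ⟨p⟩ : Nonempty (XX M) := inferInstance
  have h1 : ev p (0 : AT M χ) = ev p (1 : AT M χ) := by rw [h]
  rw [ev_zero, ev_one] at h1
  exact zero_ne_one h1

end general

section lim

variable {L : Type} [CStarAlgebra L] {j : ∀ n, (stg n).A →⋆ₐ[ℂ] L}

/-- the nets are fine in late stages -/
lemma net_fine {δ : ℝ} (hδ : 0 < δ) : ∃ N : ℕ, ∀ n, N ≤ n → ∀ x : XX (stg n).M,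
    ∃ i, dist x ((par n (stg n)).pt i) ≤ δ := by
  obtain ⟨N, hN⟩ := exists_nat_one_div_lt hδ
  refine ⟨N, fun n hn x => ?_⟩
  obtain ⟨i, hi⟩ := netP_spec n (stg n) x
  refine ⟨i, hi.le.trans ?_⟩
  have h4 : 1 / ((n : ℝ) + 1) ≤ 1 / ((N : ℝ) + 1) := by
    have : (N : ℝ) ≤ n := by exact_mod_cast hn
    exact one_div_le_one_div_of_le (by positivity) (by linarith)
  linarith

lemma phi_norm (n : ℕ) (x : (stg n).A) : ‖φ n x‖ = ‖x‖ :=
  norm_map_inj (φ n) (stp_injective (par n (stg n)).hc (par n (stg n)).pt) x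

/-- the modulus of continuity is preserved -/
def Mod (ε δ : ℝ) (n : ℕ) (x : (stg n).A) : Prop :=
  ∀ p q, dist p q ≤ δ → ‖ev p x - ev q x‖ ≤ ε

lemma mod_step {ε δ : ℝ} (hε : 0 ≤ ε) (n : ℕ) (x : (stg n).A) (h : Mod ε δ n x) :
    Mod ε δ (n + 1) (φ n x) :=
  fun p q hpq => stp_modulus (par n (stg n)).pt x hε h p q hpq

lemma stg_full (n : ℕ) (f : (stg n).A) (t0 : Fin (par n (stg n)).t) {s : ℝ} (hs : 0 ≤ s)
    (h : s < ‖ev ((par n (stg n)).pt t0) f‖) :
    ∃ (ι : Type) (_ : Fintype ι) (x : ι → (stg (n + 1)).A) (b a : ℝ),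
      0 ≤ b ∧ b ≤ 1 ∧ s ^ 2 ≤ a ∧ ∑ k, star (x k) * x k = (b : ℂ) • 1 ∧
      ∑ k, star (φ n f * x k) * (φ n f * x k) = (a : ℂ) • 1 := by
  obtain ⟨x, b, a, h⟩ := stp_full (m := (par n (stg n)).m)
    (c := (par n (stg n)).c) (r := (par n (stg n)).r)
    (par n (stg n)).hK (par n (stg n)).hK' (par n (stg n)).pt f t0 hs h
  exact ⟨_, inferInstance, x, b, a, h⟩

theorem full_L (hL : IsLim φ j) (y : L) (hy : y ≠ 0) :
    ∃ (ι : Type) (_ : Fintype ι) (x : ι → L) (a : ℝ) (q : L), 0 < a ∧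
      ∑ k, star (y * x k) * (y * x k) = (a : ℂ) • 1 + star q * q := by
  let _ : PartialOrder L := CStarAlgebra.spectralOrder L
  let _ : StarOrderedRing L := CStarAlgebra.spectralOrderedRing L
  set ρ : ℝ := ‖y‖ with hρ
  have hρ0 : 0 < ρ := norm_pos_iff.2 hy
  obtain ⟨n0, f0, hf0⟩ := hL.dense y (ρ / 8) (by positivity)
  obtain ⟨δ, hδ, hmod⟩ := exists_modulus f0 (ε := ρ / 8) (by positivity)
  obtain ⟨N, hN⟩ := net_fine hδ
  obtain ⟨n, hnN, hn0⟩ : ∃ n, N ≤ n ∧ n0 ≤ n := ⟨max N n0, le_max_left _ _, le_max_right _ _⟩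
  obtain ⟨f, hf1, hf2⟩ := push hL (Mod (ρ / 8) δ) (fun n x h => mod_step (by positivity) n x h)
    (x := f0) hmod n hn0
  have hfn : 7 * ρ / 8 < ‖f‖ := by
    rw [← norm_j hL n f, hf1]
    have : ‖y‖ ≤ ‖y - j n0 f0‖ + ‖j n0 f0‖ := by
      calc ‖y‖ = ‖(y - j n0 f0) + j n0 f0‖ := by rw [sub_add_cancel]
        _ ≤ _ := norm_add_le _ _
    linarith
  obtain ⟨q, hq⟩ := exists_big f (by positivity) hfn
  obtain ⟨t0, ht0⟩ := hN n hnN q
  have h1 : ρ / 2 < ‖ev ((par n (stg n)).pt t0) f‖ := by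
    have h2 := hf2 q _ ht0
    have h3 : ‖ev q f‖ ≤ ‖ev q f - ev ((par n (stg n)).pt t0) f‖ +
        ‖ev ((par n (stg n)).pt t0) f‖ := by
      calc ‖ev q f‖ = ‖(ev q f - ev ((par n (stg n)).pt t0) f) +
          ev ((par n (stg n)).pt t0) f‖ := by rw [sub_add_cancel]
        _ ≤ _ := norm_add_le _ _
    linarith
  obtain ⟨ι, hι, x, b, a, hb0, hb1, ha, hx1, hx2⟩ := stg_full n f t0 (s := ρ / 2)
    (by positivity) h1
  set X : ι → L := fun k => j (n + 1) (x k) with hX
  set F : L := j n0 f0 with hF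
  have hF1 : F = j (n + 1) (φ n f) := by rw [hL.comp, hf1]
  have hX1 : ∑ k, star (X k) * X k = (b : ℂ) • 1 := by
    have := congrArg (j (n + 1)) hx1
    rw [map_sum, map_smul, map_one] at this
    rw [← this]
    refine Finset.sum_congr rfl fun k _ => ?_
    rw [map_mul, map_star]
  have hX2 : ∑ k, star (F * X k) * (F * X k) = (a : ℂ) • 1 := by
    have := congrArg (j (n + 1)) hx2
    rw [map_sum, map_smul, map_one] at this
    rw [← this]
    refine Finset.sum_congr rfl fun k _ => ?_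
    rw [hF1, map_mul, map_star, map_mul]
  set d : L := y - F with hd
  have hdn : ‖d‖ < ρ / 8 := hf0
  -- the decomposition
  have key : ∀ u v : L, star u * u = (1 / 2 : ℂ) • (star (u - v) * (u - v)) - star v * v +
      (1 / 2 : ℂ) • (star (u + v) * (u + v)) := by
    intro u v
    have e1 : star (u - v) * (u - v) + star (u + v) * (u + v) =
        (2 : ℂ) • (star u * u) + (2 : ℂ) • (star v * v) := by
      rw [star_sub, star_add, two_smul, two_smul]; noncomm_ring
    have e2 : (1 / 2 : ℂ) • (star (u - v) * (u - v)) + (1 / 2 : ℂ) • (star (u + v) * (u + v)) =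
        star u * u + star v * v := by
      rw [← smul_add, e1, smul_add, smul_smul, smul_smul]; norm_num
    have : (1 / 2 : ℂ) • (star (u - v) * (u - v)) - star v * v +
      (1 / 2 : ℂ) • (star (u + v) * (u + v)) = ((1 / 2 : ℂ) • (star (u - v) * (u - v)) +
      (1 / 2 : ℂ) • (star (u + v) * (u + v))) - star v * v := by abel
    rw [this, e2]; abel
  have hsum : ∑ k, star (y * X k) * (y * X k) = ((a / 2 : ℝ) : ℂ) • 1 -
      ∑ k, star (d * X k) * (d * X k) +
      (1 / 2 : ℂ) • ∑ k, star (y * X k + d * X k) * (y * X k + d * X k) := by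
    have h2 : ∀ k, star (y * X k) * (y * X k) = (1 / 2 : ℂ) • (star (F * X k) * (F * X k)) -
        star (d * X k) * (d * X k) +
        (1 / 2 : ℂ) • (star (y * X k + d * X k) * (y * X k + d * X k)) := by
      intro k
      have h3 : y * X k - d * X k = F * X k := by rw [hd, sub_mul]; abel
      conv_lhs => rw [key (y * X k) (d * X k), h3]
    rw [Finset.sum_congr rfl fun k _ => h2 k, Finset.sum_add_distrib, Finset.sum_sub_distrib,
      ← Finset.smul_sum, ← Finset.smul_sum, hX2, smul_smul]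
    congr 3
    push_cast; ring
  have hdle : ∑ k, star (d * X k) * (d * X k) ≤ (ρ ^ 2 / 64 : ℝ) • (1 : L) := by
    have h2 : ∀ k, star (d * X k) * (d * X k) ≤ ‖d‖ ^ 2 • (star (X k) * X k) := by
      intro k
      have h3 : star (d * X k) * (d * X k) = star (X k) * (star d * d) * X k := by
        rw [star_mul]; noncomm_ring
      have h4 : ‖star d * d‖ = ‖d‖ ^ 2 := by rw [CStarRing.norm_star_mul_self, sq]
      rw [h3, ← h4]
      exact CStarAlgebra.star_left_conjugate_le_norm_smul (IsSelfAdjoint.star_mul_self d)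
    refine (Finset.sum_le_sum fun k _ => h2 k).trans ?_
    rw [← Finset.smul_sum, hX1, Complex.coe_smul, smul_smul]
    refine smul_le_smul_of_nonneg_right ?_ zero_le_one
    nlinarith [norm_nonneg d]
  have hge : (0 : L) ≤ ∑ k, star (y * X k) * (y * X k) - ((ρ ^ 2 / 16 : ℝ) : ℂ) • (1 : L) := by
    rw [hsum]
    have h2 : (0 : L) ≤ (1 / 2 : ℂ) • ∑ k, star (y * X k + d * X k) * (y * X k + d * X k) := by
      have h3 : (1 / 2 : ℂ) = ((1 / 2 : ℝ) : ℂ) := by push_cast; rfl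
      rw [h3, Complex.coe_smul]
      exact smul_nonneg (by norm_num) (Finset.sum_nonneg fun k _ => star_mul_self_nonneg _)
    have h3 : ((ρ ^ 2 / 16 : ℝ) : ℂ) • (1 : L) + (ρ ^ 2 / 64 : ℝ) • (1 : L) ≤
        ((a / 2 : ℝ) : ℂ) • 1 := by
      rw [Complex.coe_smul, Complex.coe_smul, ← add_smul]
      refine smul_le_smul_of_nonneg_right ?_ zero_le_one
      nlinarith
    have h4 : ((a / 2 : ℝ) : ℂ) • (1 : L) - ∑ k, star (d * X k) * (d * X k) +
        (1 / 2 : ℂ) • ∑ k, star (y * X k + d * X k) * (y * X k + d * X k) -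
          ((ρ ^ 2 / 16 : ℝ) : ℂ) • (1 : L) =
        (((a / 2 : ℝ) : ℂ) • (1 : L) - (((ρ ^ 2 / 16 : ℝ) : ℂ) • (1 : L) +
          (ρ ^ 2 / 64 : ℝ) • (1 : L))) +
        ((ρ ^ 2 / 64 : ℝ) • (1 : L) - ∑ k, star (d * X k) * (d * X k)) +
        (1 / 2 : ℂ) • ∑ k, star (y * X k + d * X k) * (y * X k + d * X k) := by abel
    rw [h4]
    exact add_nonneg (add_nonneg (sub_nonneg.2 h3) (sub_nonneg.2 hdle)) h2
  obtain ⟨q', hq'⟩ := (CStarAlgebra.nonneg_iff_eq_star_mul_self).1 hge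
  refine ⟨_, inferInstance, X, ρ ^ 2 / 16, q', by positivity, ?_⟩
  rw [← hq']; abel

end lim

end Pool.Agent.H254.BR
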