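import Pool.Agent.H254.BR.Main

/-!
The limit algebra is simple, has stable rank one and a unique trace.
-/

set_option autoImplicit false
set_option linter.unusedSectionVars false
set_option linter.unusedSimpArgs false

noncomputable section

namespace Pool.Agent.H254.BR

open scoped Matrix.Norms.L2Operator
open Matrix Filter Topology
open Pool.Agent.H188R3 (IsLim norm_map_inj norm_map_le')

section lim

variable {L : Type} [CStarAlgebra L] {j : ∀ n, (stg n).A →⋆ₐ[ℂ] L}

lemma isUnit_of_sum (a : ℝ) (ha : 0 < a) (q : L) : IsUnit ((a : ℂ) • (1 : L) + star q * q) := by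
  let _ : PartialOrder L := CStarAlgebra.spectralOrder L
  let _ : StarOrderedRing L := CStarAlgebra.spectralOrderedRing L
  have h1 : IsStrictlyPositive ((a : ℂ) • (1 : L)) := by
    rw [Complex.coe_smul]
    exact IsStrictlyPositive.smul ha isStrictlyPositive_one
  refine CStarAlgebra.isUnit_of_le ((a : ℂ) • (1 : L)) ?_ h1
  exact le_add_of_nonneg_right (star_mul_self_nonneg q)

theorem nontrivial_L (hL : IsLim φ j) : Nontrivial L := (hL.inj 0).nontrivial

theorem simple_L (hL : IsLim φ j) : IsSimpleRing L := by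
  have hnt : Nontrivial L := nontrivial_L hL
  apply IsSimpleRing.of_eq_bot_or_eq_top
  intro I
  by_cases hI : ∀ x ∈ I, x = 0
  · left
    exact le_bot_iff.mp fun x hx => by
      rw [hI x hx]
      exact TwoSidedIdeal.zero_mem _
  · right
    push Not at hI
    obtain ⟨y, hy, hy0⟩ := hI
    obtain ⟨ι, _, x, a, q, ha, hs⟩ := full_L hL y hy0
    have h1 : (a : ℂ) • (1 : L) + star q * q ∈ I := by
      rw [← hs]
      refine sum_mem fun k _ => ?_
      exact I.mul_mem_left _ _ (I.mul_mem_right _ _ hy)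
    have h2 : (1 : L) ∈ I := by
      obtain ⟨u, hu⟩ := isUnit_of_sum a ha q
      have h3 := I.mul_mem_left (↑u⁻¹) _ h1
      rw [← hu, Units.inv_mul] at h3
      exact h3
    refine top_le_iff.mp fun y _ => ?_
    have := I.mul_mem_left y 1 h2
    rwa [mul_one] at this

/-! ### stable rank one -/

/-- there is a singular point -/
def Sing (n : ℕ) (x : (stg n).A) : Prop := ∃ q, ¬ IsUnit (ev q x)

lemma sing_step (n : ℕ) (x : (stg n).A) (h : Sing n x) : Sing (n + 1) (φ n x) := by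
  obtain ⟨q, hq⟩ := h
  exact ⟨_, stp_sing (par n (stg n)).hc (par n (stg n)).pt hq⟩

theorem stp_sr {I J : Type} [DecidableEq I] [Fintype J] [DecidableEq J] {c t K r m : ℕ}
    {M : I → ℕ} {χ : J → Option I} (hK : 1 ≤ K) (hK' : ∀ a, M a + 1 ≤ K) (pt : Fin t → XX M)
    (f : AT M χ) (q : XX M) (hq : ¬ IsUnit (ev q f)) (t0 : Fin t) {ε : ℝ} (hε : 0 ≤ ε)
    (h : ‖ev q f - ev (pt t0) f‖ ≤ ε) :
    ∃ g ∈ closure {x : AT (MN c r m M) (χN c t K r χ) | IsUnit x},
      ‖(stp pt f : AT (MN c r m M) (χN c t K r χ)) - g‖ ≤ ε := by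
  set C : Fin t × ((J × Fin K) ⊕ Fin r) → Matrix J J ℂ := fun a =>
    if a.1 = t0 then ev q f else ev (pt a.1) f with hC
  refine ⟨blk (f, C), ?_, ?_⟩
  · refine blk_mem_closure hK hK' f t0 C (ev q f) hq ?_
    intro a ha
    rw [hC]; beta_reduce; rw [if_pos ha]
  · have h1 : (stp pt f : AT (MN c r m M) (χN c t K r χ)) - blk (f, C) = blk ((0 : AT M χ),
        (fun a => ev (pt a.1) f) - C) := by
      rw [stp_apply, ← map_sub]
      congr 1
      ext1
      · simp
      · simp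
    have h2 : ‖(stp pt f : AT (MN c r m M) (χN c t K r χ)) - blk (f, C)‖ ≤ ‖((0 : AT M χ),
        (fun a => ev (pt a.1) f) - C)‖ := by
      rw [h1]; exact norm_blk_le _
    refine h2.trans ?_
    rw [Prod.norm_def]
    simp only [norm_zero]
    rw [max_eq_right (norm_nonneg _)]
    refine (pi_norm_le_iff_of_nonneg hε).2 fun a => ?_
    rw [Pi.sub_apply, hC]; beta_reduce
    split_ifs with h3
    · rw [h3, ← norm_neg, neg_sub]; exact h
    · rw [sub_self, norm_zero]; exact hε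

lemma stg_sr (n : ℕ) (f : (stg n).A) (q : XX (stg n).M) (hq : ¬ IsUnit (ev q f))
    (t0 : Fin (par n (stg n)).t) {ε : ℝ} (hε : 0 ≤ ε)
    (h : ‖ev q f - ev ((par n (stg n)).pt t0) f‖ ≤ ε) :
    ∃ g ∈ closure {x : (stg (n + 1)).A | IsUnit x}, ‖φ n f - g‖ ≤ ε :=
  stp_sr (c := (par n (stg n)).c) (m := (par n (stg n)).m) (r := (par n (stg n)).r)
    (par n (stg n)).hK (par n (stg n)).hK' (par n (stg n)).pt f q hq t0 hε h

theorem sr1_L (hL : IsLim φ j) : StableRankOne L := by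
  intro y
  rw [Metric.mem_closure_iff]
  intro ε hε
  obtain ⟨n0, f0, hf0⟩ := hL.dense y (ε / 4) (by positivity)
  by_cases hu : IsUnit f0
  · refine ⟨j n0 f0, hu.map (j n0), ?_⟩
    rw [dist_eq_norm]; linarith
  · have hs : Sing n0 f0 := by
      by_contra hcon
      apply hu
      rw [isUnit_iff]
      intro p
      by_contra h
      exact hcon ⟨p, h⟩
    obtain ⟨δ, hδ, hmod⟩ := exists_modulus f0 (ε := ε / 4) (by positivity)
    obtain ⟨N, hN⟩ := net_fine hδ
    obtain ⟨n, hnN, hn0⟩ : ∃ n, N ≤ n ∧ n0 ≤ n := ⟨max N n0, le_max_left _ _, le_max_right _ _⟩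
    obtain ⟨f, hf1, hf2, hf3⟩ := push hL (fun n x => Mod (ε / 4) δ n x ∧ Sing n x)
      (fun n x h => ⟨mod_step (by positivity) n x h.1, sing_step n x h.2⟩) (x := f0) ⟨hmod, hs⟩ n hn0
    obtain ⟨q, hq⟩ := hf3
    obtain ⟨t0, ht0⟩ := hN n hnN q
    obtain ⟨g, hg1, hg2⟩ := stg_sr n f q hq t0 (ε := ε / 4) (by positivity) (hf2 q _ ht0)
    rw [Metric.mem_closure_iff] at hg1
    obtain ⟨u, hu1, hu2⟩ := hg1 (ε / 4) (by positivity)
    refine ⟨j (n + 1) u, (hu1 : IsUnit u).map (j (n + 1)), ?_⟩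
    rw [dist_eq_norm] at hu2 ⊢
    have e1 : j n0 f0 = j (n + 1) (φ n f) := by rw [hL.comp, hf1]
    have e2 : y - j (n + 1) u = (y - j n0 f0) + (j (n + 1) (φ n f - g) + j (n + 1) (g - u)) := by
      rw [map_sub, map_sub, e1]; abel
    rw [e2]
    have e3 : ‖j (n + 1) (φ n f - g)‖ ≤ ε / 4 := by rw [norm_j hL]; exact hg2
    have e4 : ‖j (n + 1) (g - u)‖ < ε / 4 := by rw [norm_j hL]; exact hu2
    have e5 := norm_add_le (y - j n0 f0) (j (n + 1) (φ n f - g) + j (n + 1) (g - u))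
    have e6 := norm_add_le (j (n + 1) (φ n f - g)) (j (n + 1) (g - u))
    linarith

end lim

end Pool.Agent.H254.BR
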