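import Pool.Agent.H254.BR.Main2

/-!
The trace of the limit algebra, and stable finiteness.
-/

set_option autoImplicit false
set_option linter.unusedSectionVars false
set_option linter.unusedSimpArgs false

noncomputable section

namespace Pool.Agent.H254.BR

open scoped Matrix.Norms.L2Operator
open Matrix Filter Topology
open Pool.Agent.H188R3 (IsLim norm_map_inj norm_map_le')

section block

variable {I J : Type} [DecidableEq I] [Fintype J] [DecidableEq J] [Nonempty J]
variable {c t K r m : ℕ} {M : I → ℕ} {χ : J → Option I}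

lemma ev_blk_diag (x : AT M χ × (Fin t × ((J × Fin K) ⊕ Fin r) → Matrix J J ℂ))
    (p : XX (MN c r m M)) (α : JN c t K r J) :
    ev p (blk x : AT (MN c r m M) (χN c t K r χ)) α α = bk (fun q => ev q x.1) x.2 p α.2 α.1 α.1 := by
  rw [ev_blk, Matrix.blockDiagonal_apply, if_pos rfl]

lemma exists_star_mul_self {R : Type} [CStarAlgebra R] (f : R) (hf : IsSelfAdjoint f) :
    (∃ q : R, (‖f‖ : ℂ) • (1 : R) - f = star q * q) ∧
      ∃ q : R, (‖f‖ : ℂ) • (1 : R) + f = star q * q := by
  let _ : PartialOrder R := CStarAlgebra.spectralOrder R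
  let _ : StarOrderedRing R := CStarAlgebra.spectralOrderedRing R
  have h1 : f ≤ algebraMap ℝ R ‖f‖ := hf.le_algebraMap_norm_self
  have h2 : -(algebraMap ℝ R ‖f‖) ≤ f := hf.neg_algebraMap_norm_le_self
  have e : (‖f‖ : ℂ) • (1 : R) = algebraMap ℝ R ‖f‖ := by
    rw [Complex.coe_smul, Algebra.algebraMap_eq_smul_one]
  constructor
  · exact (CStarAlgebra.nonneg_iff_eq_star_mul_self).1 (by rw [e]; exact sub_nonneg.2 h1)
  · refine (CStarAlgebra.nonneg_iff_eq_star_mul_self).1 ?_
    rw [e]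
    have := neg_le_iff_add_nonneg.1 h2
    rwa [add_comm] at this

/-- on `blk (f, 0)` every tracial state is small -/
lemma tr_blk_small (hK : 1 ≤ K) (hK' : ∀ a, M a + 1 ≤ K) (hc : 0 < c)
    (τ : AT (MN c r m M) (χN c t K r χ) →ₗ[ℂ] ℂ) (h1 : τ 1 = 1)
    (hpos : ∀ x, 0 ≤ (τ (star x * x)).re ∧ (τ (star x * x)).im = 0)
    (htr : ∀ x y, τ (x * y) = τ (y * x)) (f : AT M χ) (hf : IsSelfAdjoint f) :
    ‖τ (blk (f, 0))‖ ≤ ‖f‖ * ((c : ℝ) / (c + t * (Fintype.card J * K + r))) := by
  have hne : Nonempty (JN c t K r J) := ⟨(Classical.arbitrary J, Sum.inl ⟨0, hc⟩)⟩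
  have hK2 : ∀ a, MN c r m M a + 1 ≤ K + m + 1 := MN_le hK' (by omega) (by omega)
  -- the trace of the projection
  have hd : τ (blk ((1 : AT M χ), 0)) = (((c : ℝ) / (c + t * (Fintype.card J * K + r)) : ℝ) : ℂ) := by
    rw [tr_const_diag τ htr (K + m + 1) (by omega) hK2 (blk ((1 : AT M χ), 0))
      (fun α => Sum.elim (fun _ => (1 : ℂ)) (fun _ => 0) α.2) ?_, h1, mul_one]
    · have e1 : ∑ α : JN c t K r J, Sum.elim (fun _ => (1 : ℂ)) (fun _ => 0) α.2 =
          Fintype.card J * c := by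
        rw [Fintype.sum_prod_type]
        simp [Fintype.sum_sum_type]
      have e2 : (Fintype.card (JN c t K r J) : ℂ) =
          Fintype.card J * (c + t * (Fintype.card J * K + r)) := by
        simp [Fintype.card_prod, Fintype.card_sum]
      rw [e1, e2]
      have hJ : (Fintype.card J : ℂ) ≠ 0 := by exact_mod_cast Fintype.card_ne_zero
      have hd : ((c : ℂ) + t * (Fintype.card J * K + r)) ≠ 0 := by
        have : (c + t * (Fintype.card J * K + r) : ℕ) ≠ 0 := by omega
        exact_mod_cast this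
      push_cast
      field_simp
    · intro p α
      rw [ev_blk_diag]
      obtain ⟨i, l | a⟩ := α
      · simp [bk]
      · simp [bk]
  obtain ⟨⟨q1, hq1⟩, q2, hq2⟩ := exists_star_mul_self f hf
  have e1 : (blk (star q1 * q1, 0) : AT (MN c r m M) (χN c t K r χ)) =
      star (blk (q1, 0)) * blk (q1, 0) := by
    rw [← map_star, ← map_mul]; congr 1; ext1 <;> simp
  have e2 : (blk (star q2 * q2, 0) : AT (MN c r m M) (χN c t K r χ)) =
      star (blk (q2, 0)) * blk (q2, 0) := by
    rw [← map_star, ← map_mul]; congr 1; ext1 <;> simp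
  have e3 : (blk (star q1 * q1, 0) : AT (MN c r m M) (χN c t K r χ)) =
      (‖f‖ : ℂ) • blk ((1 : AT M χ), 0) - blk (f, 0) := by
    rw [← hq1, ← map_smul, ← map_sub]; congr 1; ext1 <;> simp
  have e4 : (blk (star q2 * q2, 0) : AT (MN c r m M) (χN c t K r χ)) =
      (‖f‖ : ℂ) • blk ((1 : AT M χ), 0) + blk (f, 0) := by
    rw [← hq2, ← map_smul, ← map_add]; congr 1; ext1 <;> simp
  have p1 := hpos (blk (q1, 0))
  have p2 := hpos (blk (q2, 0))
  rw [← e1, e3, map_sub, map_smul, hd, smul_eq_mul, ← Complex.ofReal_mul] at p1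
  rw [← e2, e4, map_add, map_smul, hd, smul_eq_mul, ← Complex.ofReal_mul] at p2
  simp only [Complex.sub_re, Complex.sub_im, Complex.ofReal_re, Complex.ofReal_im] at p1
  simp only [Complex.add_re, Complex.add_im, Complex.ofReal_re, Complex.ofReal_im] at p2
  have him : (τ (blk (f, 0))).im = 0 := by linarith [p2.2]
  have hz : τ (blk (f, 0)) = ((τ (blk (f, 0))).re : ℂ) := by
    apply Complex.ext
    · simp
    · simp [him]
  rw [hz, Complex.norm_real, Real.norm_eq_abs, abs_le]
  constructor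
  · linarith [p2.1]
  · linarith [p1.1]

/-- two tracial states almost agree -/
lemma tr_stp (hK : 1 ≤ K) (hK' : ∀ a, M a + 1 ≤ K) (hc : 0 < c) (pt : Fin t → XX M)
    (τ τ' : AT (MN c r m M) (χN c t K r χ) →ₗ[ℂ] ℂ) (h1 : τ 1 = 1)
    (hpos : ∀ x, 0 ≤ (τ (star x * x)).re ∧ (τ (star x * x)).im = 0)
    (htr : ∀ x y, τ (x * y) = τ (y * x)) (h1' : τ' 1 = 1)
    (hpos' : ∀ x, 0 ≤ (τ' (star x * x)).re ∧ (τ' (star x * x)).im = 0)
    (htr' : ∀ x y, τ' (x * y) = τ' (y * x)) (f : AT M χ) (hf : IsSelfAdjoint f) :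
    ‖τ (stp pt f) - τ' (stp pt f)‖ ≤
      2 * (‖f‖ * ((c : ℝ) / (c + t * (Fintype.card J * K + r)))) := by
  have hne : Nonempty (JN c t K r J) := ⟨(Classical.arbitrary J, Sum.inl ⟨0, hc⟩)⟩
  have hK2 : ∀ a, MN c r m M a + 1 ≤ K + m + 1 := MN_le hK' (by omega) (by omega)
  set C : Fin t × ((J × Fin K) ⊕ Fin r) → Matrix J J ℂ := fun a => ev (pt a.1) f with hC
  have h2 : (stp pt f : AT (MN c r m M) (χN c t K r χ)) = blk (f, 0) + blk (0, C) := by
    rw [stp_apply, ← map_add]; congr 1; ext1 <;> simp [hC]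
  have h3 : τ (blk ((0 : AT M χ), C)) = τ' (blk ((0 : AT M χ), C)) := by
    have hd : ∀ (p : XX (MN c r m M)) (α : JN c t K r J),
        ev p (blk ((0 : AT M χ), C) : AT (MN c r m M) (χN c t K r χ)) α α =
          Sum.elim (fun _ => (0 : ℂ)) (fun a => C a α.1 α.1) α.2 := by
      intro p α
      rw [ev_blk_diag]
      obtain ⟨i, l | a⟩ := α
      · simp [bk]
      · simp [bk]
    rw [tr_const_diag τ htr (K + m + 1) (by omega) hK2 _ _ hd,
      tr_const_diag τ' htr' (K + m + 1) (by omega) hK2 _ _ hd, h1, h1']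
  rw [h2, map_add, map_add, h3, add_sub_add_right_eq_sub]
  refine (norm_sub_le _ _).trans ?_
  have b1 := tr_blk_small hK hK' hc τ h1 hpos htr f hf
  have b2 := tr_blk_small hK hK' hc τ' h1' hpos' htr' f hf
  linarith

end block

section lim

variable {L : Type} [CStarAlgebra L] {j : ∀ n, (stg n).A →⋆ₐ[ℂ] L}

/-- the restriction of a tracial state -/
def res (n : ℕ) (j : ∀ n, (stg n).A →⋆ₐ[ℂ] L) (τ : WeakDual ℂ L) : (stg n).A →ₗ[ℂ] ℂ where
  toFun x := τ (j n x)
  map_add' x y := by rw [map_add, map_add]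
  map_smul' c x := by rw [map_smul, map_smul]; rfl

lemma res_one (n : ℕ) {τ : WeakDual ℂ L} (hτ : τ ∈ TracialStates L) : res n j τ 1 = 1 := by
  show τ (j n 1) = 1
  rw [map_one]; exact hτ.1

lemma res_pos (n : ℕ) {τ : WeakDual ℂ L} (hτ : τ ∈ TracialStates L) (x : (stg n).A) :
    0 ≤ (res n j τ (star x * x)).re ∧ (res n j τ (star x * x)).im = 0 := by
  show 0 ≤ (τ (j n (star x * x))).re ∧ (τ (j n (star x * x))).im = 0
  rw [map_mul, map_star]; exact hτ.2.1 _

lemma res_tr (n : ℕ) {τ : WeakDual ℂ L} (hτ : τ ∈ TracialStates L) (x y : (stg n).A) :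
    res n j τ (x * y) = res n j τ (y * x) := by
  show τ (j n (x * y)) = τ (j n (y * x))
  rw [map_mul (j n), map_mul (j n)]; exact hτ.2.2 _ _

lemma stg_tr (n : ℕ) (τ τ' : WeakDual ℂ L) (hτ : τ ∈ TracialStates L) (hτ' : τ' ∈ TracialStates L)
    (f : (stg n).A) (hf : IsSelfAdjoint f) :
    ‖τ (j (n + 1) (φ n f)) - τ' (j (n + 1) (φ n f))‖ ≤ 2 * (‖f‖ * (1 / ((n : ℝ) + 1))) := by
  have h := tr_stp (c := (par n (stg n)).c) (m := (par n (stg n)).m) (r := (par n (stg n)).r)
    (par n (stg n)).hK (par n (stg n)).hK' (par n (stg n)).hc (par n (stg n)).pt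
    (res (n + 1) j τ) (res (n + 1) j τ')
    (res_one (n + 1) hτ) (res_pos (n + 1) hτ) (res_tr (n + 1) hτ)
    (res_one (n + 1) hτ') (res_pos (n + 1) hτ') (res_tr (n + 1) hτ') f hf
  refine h.trans ?_
  refine mul_le_mul_of_nonneg_left (mul_le_mul_of_nonneg_left ?_ (norm_nonneg _)) zero_le_two
  have hr : ((par n (stg n)).r : ℝ) = n * (par n (stg n)).c := by
    have : (par n (stg n)).r = n * (par n (stg n)).c := rfl
    exact_mod_cast this
  have ht : (1 : ℝ) ≤ (par n (stg n)).t := by exact_mod_cast (par n (stg n)).ht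
  have hc : (0 : ℝ) < (par n (stg n)).c := by exact_mod_cast (par n (stg n)).hc
  have hn : (0 : ℝ) ≤ n := Nat.cast_nonneg n
  rw [div_le_div_iff₀ (by positivity) (by positivity), hr]
  have h5 : (n : ℝ) * (par n (stg n)).c ≤ (par n (stg n)).t *
      (Fintype.card (stg n).J * (par n (stg n)).K + n * (par n (stg n)).c) := by
    have h6 : (0 : ℝ) ≤ Fintype.card (stg n).J * (par n (stg n)).K := by positivity
    nlinarith [mul_nonneg hn hc.le]
  nlinarith

theorem trace_unique (hL : IsLim φ j) (τ τ' : WeakDual ℂ L) (hτ : τ ∈ TracialStates L)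
    (hτ' : τ' ∈ TracialStates L) : τ = τ' := by
  have key : ∀ (n0 : ℕ) (f0 : (stg n0).A), IsSelfAdjoint f0 → τ (j n0 f0) = τ' (j n0 f0) := by
    intro n0 f0 hf0
    have h1 : ∀ n, n0 ≤ n → ‖τ (j n0 f0) - τ' (j n0 f0)‖ ≤ 2 * (‖f0‖ * (1 / ((n : ℝ) + 1))) := by
      intro n hn
      obtain ⟨f, hf1, hf2, hf3⟩ := push hL (fun n x => ‖x‖ = ‖f0‖ ∧ IsSelfAdjoint x)
        (fun n x h => ⟨by rw [phi_norm]; exact h.1, h.2.map (φ n)⟩) (x := f0) ⟨rfl, hf0⟩ n hn
      have h2 := stg_tr (j := j) n τ τ' hτ hτ' f hf3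
      rw [hL.comp, hf1, hf2] at h2
      exact h2
    have h3 : Tendsto (fun n : ℕ => 2 * (‖f0‖ * (1 / ((n : ℝ) + 1)))) atTop (𝓝 0) := by
      have := (tendsto_one_div_add_atTop_nhds_zero_nat (𝕜 := ℝ)).const_mul ‖f0‖
      have := this.const_mul 2
      simpa using this
    have h4 : ‖τ (j n0 f0) - τ' (j n0 f0)‖ ≤ 0 := by
      refine ge_of_tendsto h3 ?_
      filter_upwards [eventually_ge_atTop n0] with n hn
      exact h1 n hn
    exact sub_eq_zero.1 (norm_le_zero_iff.1 h4)
  have key2 : ∀ (n0 : ℕ) (f0 : (stg n0).A), τ (j n0 f0) = τ' (j n0 f0) := by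
    intro n0 f0
    have h1 : f0 = (realPart f0 : (stg n0).A) + Complex.I • (imaginaryPart f0 : (stg n0).A) :=
      (realPart_add_I_smul_imaginaryPart f0).symm
    rw [h1]
    simp only [map_add, map_smul]
    rw [key n0 _ (realPart f0).2, key n0 _ (imaginaryPart f0).2]
  have hcont : Continuous fun y : L => τ y - τ' y :=
    (map_continuous τ).sub (map_continuous τ')
  have hzero : ∀ y : L, τ y - τ' y = 0 := by
    intro y
    have hcl : IsClosed {y : L | τ y - τ' y = 0} := isClosed_eq hcont continuous_const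
    have hd : y ∈ closure {y : L | τ y - τ' y = 0} := by
      rw [Metric.mem_closure_iff]
      intro ε hε
      obtain ⟨n, x, hx⟩ := hL.dense y ε hε
      exact ⟨j n x, by show τ (j n x) - τ' (j n x) = 0; rw [key2, sub_self],
        by rwa [dist_eq_norm]⟩
    rw [hcl.closure_eq] at hd
    exact hd
  exact DFunLike.ext _ _ fun y => sub_eq_zero.1 (hzero y)

/-! ### existence of the trace -/

/-- the normalised trace at a point -/
def ntr {J : Type} [Fintype J] (N : Matrix J J ℂ) : ℂ := (Fintype.card J : ℂ)⁻¹ * N.trace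

lemma norm_entry_le {J : Type} [Fintype J] [DecidableEq J] (N : Matrix J J ℂ) (i : J) :
    ‖N i i‖ ≤ ‖N‖ := by
  have h := Matrix.l2_opNorm_mulVec N (EuclideanSpace.single i 1)
  rw [PiLp.norm_single, norm_one, mul_one] at h
  refine le_trans ?_ h
  have h2 := EuclideanSpace.norm_sq_eq ((EuclideanSpace.equiv J ℂ).symm
    (N *ᵥ (EuclideanSpace.single i (1 : ℂ)).ofLp))
  have h3 : ((EuclideanSpace.equiv J ℂ).symm
    (N *ᵥ (EuclideanSpace.single i (1 : ℂ)).ofLp)) i = N i i := by
    show (N *ᵥ (EuclideanSpace.single i (1 : ℂ)).ofLp) i = N i i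
    simp [Matrix.mulVec, dotProduct]
  refine le_of_sq_le_sq ?_ (norm_nonneg _)
  rw [h2, ← h3]
  exact Finset.single_le_sum (f := fun k => ‖((EuclideanSpace.equiv J ℂ).symm
    (N *ᵥ (EuclideanSpace.single i (1 : ℂ)).ofLp)) k‖ ^ 2) (fun k _ => by positivity)
    (Finset.mem_univ i)

lemma norm_ntr_le {J : Type} [Fintype J] [DecidableEq J] [Nonempty J] (N : Matrix J J ℂ) :
    ‖ntr N‖ ≤ ‖N‖ := by
  unfold ntr
  rw [norm_mul, norm_inv, Complex.norm_natCast, Matrix.trace]
  have h1 : ‖∑ i, N.diag i‖ ≤ Fintype.card J * ‖N‖ := by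
    refine (norm_sum_le _ _).trans ?_
    refine (Finset.sum_le_card_nsmul _ _ ‖N‖ fun i _ => norm_entry_le N i).trans ?_
    rw [nsmul_eq_mul, Finset.card_univ]
  have h2 : (0 : ℝ) < Fintype.card J := by exact_mod_cast Fintype.card_pos
  rw [inv_mul_le_iff₀ h2]
  exact h1

theorem trace_exists (hL : IsLim φ j) : (TracialStates L).Nonempty := by
  refine exists_trace hL (fun n f => ntr (ev (Classical.arbitrary (XX (stg n).M)) f)) ?_ ?_ ?_ ?_ ?_ ?_
  · intro n x y
    rw [ev_add]; unfold ntr; rw [Matrix.trace_add, mul_add]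
  · intro n c x
    rw [ev_smul]; unfold ntr; rw [Matrix.trace_smul, smul_eq_mul]; ring
  · intro n x
    exact (norm_ntr_le _).trans (norm_ev_le x _)
  · intro n
    rw [ev_one]; unfold ntr; rw [Matrix.trace_one]
    have : (Fintype.card (stg n).J : ℂ) ≠ 0 := by exact_mod_cast Fintype.card_ne_zero
    field_simp
  · intro n x
    rw [ev_mul, ev_star]
    set N := ev (Classical.arbitrary (XX (stg n).M)) x with hN
    have h1 : ntr (star N * N) = (((Fintype.card (stg n).J : ℝ)⁻¹ *
        ∑ i, ∑ k, ‖N k i‖ ^ 2 : ℝ) : ℂ) := by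
      unfold ntr
      push_cast
      congr 1
      rw [Matrix.trace]
      refine Finset.sum_congr rfl fun i _ => ?_
      rw [Matrix.diag_apply, Matrix.mul_apply]
      refine Finset.sum_congr rfl fun k _ => ?_
      rw [Matrix.star_apply, Complex.star_def, ← Complex.normSq_eq_conj_mul_self,
        Complex.normSq_eq_norm_sq]
      push_cast; rfl
    rw [h1]
    refine ⟨?_, Complex.ofReal_im _⟩
    rw [Complex.ofReal_re]
    positivity
  · intro n x y
    rw [ev_mul, ev_mul]; unfold ntr; rw [Matrix.trace_mul_comm]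

/-! ### faithfulness and stable finiteness -/

theorem trace_faithful (hL : IsLim φ j) {τ : WeakDual ℂ L} (hτ : τ ∈ TracialStates L) (y : L)
    (hy : τ (star y * y) = 0) : y = 0 := by
  by_contra hne
  obtain ⟨ι, _, x, a, q, ha, hs⟩ := full_L hL y hne
  -- `τ (star (y x) (y x)) = 0`
  have hzero : ∀ x : L, (τ (star (y * x) * (y * x))).re ≤ 0 := by
    intro x
    have h1 : τ (star (y * x) * (y * x)) = τ (y * (x * star x) * star y) := by
      rw [hτ.2.2 (star (y * x)) (y * x), star_mul]; congr 1; noncomm_ring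
    obtain ⟨⟨w, hw⟩, _⟩ := exists_star_mul_self (x * star x) (IsSelfAdjoint.mul_star_self x)
    have h2 := hτ.2.1 (w * star y)
    have h3 : star (w * star y) * (w * star y) = (‖x * star x‖ : ℂ) • (y * star y) -
        y * (x * star x) * star y := by
      rw [star_mul, star_star]
      have : y * star w * (w * star y) = y * (star w * w) * star y := by noncomm_ring
      rw [this, ← hw, mul_sub, sub_mul, mul_smul_comm, mul_one, smul_mul_assoc]
    rw [h3, map_sub, map_smul, hτ.2.2 y (star y), hy, smul_zero, zero_sub, ← h1] at h2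
    simp only [Complex.neg_re] at h2
    linarith [h2.1]
  have h1 := congrArg (fun z => (τ z).re) hs
  simp only [map_sum, map_add, map_smul, Complex.re_sum, Complex.add_re] at h1
  have h2 : ∑ k, (τ (star (y * x k) * (y * x k))).re ≤ 0 :=
    Finset.sum_nonpos fun k _ => hzero _
  have h3 := (hτ.2.1 q).1
  rw [h1, hτ.1] at h2
  simp at h2
  linarith

theorem stablyFinite_L (hL : IsLim φ j) : StablyFinite L := by
  obtain ⟨τ, hτ⟩ := trace_exists hL
  intro n v hv
  set p : Matrix (Fin n) (Fin n) L := 1 - v * star v with hp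
  have hpp : star p * p = p := by
    have h1 : star p = p := by rw [hp, star_sub, star_one, star_mul, star_star]
    rw [h1, hp]
    have h2 : v * star v * (v * star v) = v * star v := by
      calc v * star v * (v * star v) = v * (star v * v) * star v := by noncomm_ring
        _ = v * star v := by rw [hv, mul_one]
    rw [sub_mul, one_mul, mul_sub, mul_one, h2]; abel
  have htr : ∀ x y : Matrix (Fin n) (Fin n) L, ∑ i, τ ((x * y) i i) = ∑ i, τ ((y * x) i i) := by
    intro x y
    simp only [Matrix.mul_apply, map_sum]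
    rw [Finset.sum_comm]
    exact Finset.sum_congr rfl fun i _ => Finset.sum_congr rfl fun k _ => hτ.2.2 _ _
  have h0 : ∑ i, τ (p i i) = 0 := by
    have h1 : ∑ i, τ ((v * star v) i i) = ∑ i, τ ((1 : Matrix (Fin n) (Fin n) L) i i) := by
      rw [htr, hv]
    have h2 : ∀ i, τ (p i i) = τ ((1 : Matrix (Fin n) (Fin n) L) i i) - τ ((v * star v) i i) := by
      intro i
      rw [hp, Matrix.sub_apply, map_sub]
    rw [Finset.sum_congr rfl fun i _ => h2 i, Finset.sum_sub_distrib, h1, sub_self]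
  have h3 : ∀ i, τ (p i i) = ∑ k, τ (star (p k i) * p k i) := by
    intro i
    conv_lhs => rw [← hpp, Matrix.mul_apply, map_sum]
    rfl
  rw [Finset.sum_congr rfl fun i _ => h3 i] at h0
  have h4 := congrArg Complex.re h0
  simp only [Complex.re_sum, Complex.zero_re] at h4
  have h5 : ∀ i k, (τ (star (p k i) * p k i)).re = 0 := by
    intro i k
    have h6 := (Finset.sum_eq_zero_iff_of_nonneg (fun i _ => Finset.sum_nonneg fun k _ =>
      (hτ.2.1 (p k i)).1)).1 h4 i (Finset.mem_univ i)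
    exact (Finset.sum_eq_zero_iff_of_nonneg (fun k _ => (hτ.2.1 (p k i)).1)).1 h6 k
      (Finset.mem_univ k)
  have h7 : p = 0 := by
    ext k i
    refine trace_faithful hL hτ _ ?_
    exact Complex.ext (h5 i k) (hτ.2.1 _).2
  rw [hp, sub_eq_zero] at h7
  exact h7.symm

end lim

end Pool.Agent.H254.BR
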