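import Pool.Agent.H254.BR.Main3

/-!
The radius of comparison of the limit algebra.
-/

set_option autoImplicit false
set_option linter.unusedSectionVars false
set_option linter.unusedSimpArgs false

noncomputable section

namespace Pool.Agent.H254.BR

open scoped Matrix.Norms.L2Operator
open Matrix Filter Topology
open scoped ENNReal NNReal
open Pool.Agent.H188R3 (IsLim norm_map_inj norm_map_le')

/-! ### Clifford matrices -/

/-- the Clifford matrix -/
def Cl (y : Fin 5 → ℝ) : Matrix (Fin 4) (Fin 4) ℂ :=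
  !![(y 4 : ℂ), 0, y 2 - y 3 * Complex.I, y 0 - y 1 * Complex.I;
    0, (y 4 : ℂ), y 0 + y 1 * Complex.I, -(y 2 : ℂ) - y 3 * Complex.I;
    y 2 + y 3 * Complex.I, y 0 - y 1 * Complex.I, -(y 4 : ℂ), 0;
    y 0 + y 1 * Complex.I, -(y 2 : ℂ) + y 3 * Complex.I, 0, -(y 4 : ℂ)]

lemma Cl_herm (y : Fin 5 → ℝ) : (Cl y)ᴴ = Cl y := by
  ext i k
  fin_cases i <;> fin_cases k <;> simp [Cl, Matrix.conjTranspose_apply] <;> ring

lemma Cl_sq (y : Fin 5 → ℝ) (hy : ∑ i, y i ^ 2 = 1) : Cl y * Cl y = 1 := by
  have h : ((y 0 : ℂ) ^ 2 + (y 1 : ℂ) ^ 2 + (y 2 : ℂ) ^ 2 + (y 3 : ℂ) ^ 2 + (y 4 : ℂ) ^ 2) = 1 := by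
    rw [Fin.sum_univ_five] at hy
    exact_mod_cast hy
  have hI : Complex.I * Complex.I = -1 := Complex.I_mul_I
  ext i k
  fin_cases i <;> fin_cases k <;>
    simp [Cl, Matrix.mul_apply, Fin.sum_univ_four, Matrix.one_apply] <;>
    first
      | ring1
      | (linear_combination h + (-(y 3 : ℂ) ^ 2 - (y 1 : ℂ) ^ 2) * hI)

/-- the lines of the first stage -/
abbrev J0 : Type := Bool × Fin 4

/-- the dimension of the first sphere -/
def M0 : Unit → ℕ := fun _ => 4

/-- the characters of the first stage -/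
def χ0 : J0 → Option Unit := fun x => if x.1 then some () else none

/-- the coordinates of the first sphere -/
def yc (p : XX M0) (m : Fin 5) : ℝ := crd (M := M0) (some ()) m p

lemma yc_sq (p : XX M0) : ∑ m, yc p m ^ 2 = 1 :=
  sum_crd (M := M0) (some ()) 5 (by norm_num) (fun a _ => by show 4 + 1 ≤ 5; norm_num) p

lemma yc_flp (i : Unit) (p : XX M0) (m : Fin 5) : yc (flp i p) m = - yc p m := by
  unfold yc
  rw [crd_flp]
  have : i = () := rfl
  subst this
  simp

/-- the Clifford matrix as an element of the first algebra -/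
def Uc : AT M0 χ0 :=
  mk (fun p a b => if a.1 = true ∧ b.1 = false then Cl (yc p) a.2 b.2 else 0)
    (by
      refine continuous_matrix fun a b => ?_
      have hc : ∀ m : Fin 5, Continuous fun p : XX M0 => ((yc p m : ℝ) : ℂ) := fun m =>
        Complex.continuous_ofReal.comp (continuous_crd (M := M0) (some ()) m)
      split_ifs with h
      · obtain ⟨a1, a2⟩ := a
        obtain ⟨b1, b2⟩ := b
        simp only [Cl]
        have c0 := hc 0
        have c1 := hc 1
        have c2 := hc 2
        have c3 := hc 3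
        have c4 := hc 4
        fin_cases a2 <;> fin_cases b2 <;> simp <;> fun_prop
      · exact continuous_const)
    (by
      intro i p a b
      beta_reduce
      obtain ⟨a1, a2⟩ := a
      obtain ⟨b1, b2⟩ := b
      have hf : yc (flp i p) = fun m => -(yc p m) := by
        funext m; exact yc_flp i p m
      have hn : ∀ y : Fin 5 → ℝ, Cl (fun m => -(y m)) = - Cl y := by
        intro y
        ext i k
        fin_cases i <;> fin_cases k <;> simp [Cl] <;> ring
      rw [hf, hn]
      have s1 : ∀ k : Fin 4, sg χ0 i (true, k) = -1 := by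
        intro k; have : i = () := rfl
        subst this; simp [sg, χ0]
      have s2 : ∀ k : Fin 4, sg χ0 i (false, k) = 1 := by
        intro k; have : i = () := rfl
        subst this; simp [sg, χ0]
      cases a1 <;> cases b1 <;> simp [s1, s2])

/-- the indicator functions of the two types of lines -/
def ind (b : Bool) : J0 → ℂ := fun x => if x.1 = b then 1 else 0

lemma Uc1 : star Uc * Uc = dg (ind false) := by
  refine at_ext fun p => ?_
  rw [ev_mul, ev_star, ev_dg]
  ext ⟨a1, a2⟩ ⟨b1, b2⟩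
  have h1 : (Cl (yc p))ᴴ * Cl (yc p) = 1 := by rw [Cl_herm, Cl_sq _ (yc_sq p)]
  have h2 := congrFun (congrFun h1 a2) b2
  rw [Matrix.mul_apply] at h2
  rw [Matrix.mul_apply]
  have h3 : ∀ x : J0, (star (ev p Uc)) (a1, a2) x * ev p Uc x (b1, b2) =
      if x.1 = true ∧ a1 = false ∧ b1 = false then
        star (Cl (yc p) x.2 a2) * Cl (yc p) x.2 b2 else 0 := by
    intro x
    rw [Matrix.star_apply]
    simp only [Uc, ev_mk]
    obtain ⟨x1, x2⟩ := x
    cases x1 <;> cases a1 <;> cases b1 <;> simp
  rw [Finset.sum_congr rfl fun x _ => h3 x]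
  have h4 : ∑ x : J0, (if x.1 = true ∧ a1 = false ∧ b1 = false then
        star (Cl (yc p) x.2 a2) * Cl (yc p) x.2 b2 else 0) =
      ∑ x : Bool × Fin 4, (if x.1 = true ∧ a1 = false ∧ b1 = false then
        star (Cl (yc p) x.2 a2) * Cl (yc p) x.2 b2 else 0) := rfl
  rw [h4, Fintype.sum_prod_type, Fintype.sum_bool]
  cases a1 <;> cases b1
  · simp only [Matrix.conjTranspose_apply] at h2
    simp only [and_self, if_true, Bool.false_eq_true, false_and, if_false,
      Finset.sum_const_zero, add_zero]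
    rw [h2, Matrix.one_apply, Matrix.diagonal_apply]
    simp [ind]
  · simp [Matrix.diagonal_apply, ind]
  · simp [Matrix.diagonal_apply, ind]
  · simp [Matrix.diagonal_apply, ind]

lemma Uc2 : Uc * star Uc = dg (ind true) := by
  refine at_ext fun p => ?_
  rw [ev_mul, ev_star, ev_dg]
  ext ⟨a1, a2⟩ ⟨b1, b2⟩
  have h1 : Cl (yc p) * (Cl (yc p))ᴴ = 1 := by rw [Cl_herm, Cl_sq _ (yc_sq p)]
  have h2 := congrFun (congrFun h1 a2) b2
  rw [Matrix.mul_apply] at h2
  rw [Matrix.mul_apply]
  have h3 : ∀ x : J0, (ev p Uc) (a1, a2) x * star (ev p Uc) x (b1, b2) =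
      if x.1 = false ∧ a1 = true ∧ b1 = true then
        Cl (yc p) a2 x.2 * star (Cl (yc p) b2 x.2) else 0 := by
    intro x
    rw [Matrix.star_apply]
    simp only [Uc, ev_mk]
    obtain ⟨x1, x2⟩ := x
    cases x1 <;> cases a1 <;> cases b1 <;> simp
  rw [Finset.sum_congr rfl fun x _ => h3 x]
  have h4 : ∑ x : J0, (if x.1 = false ∧ a1 = true ∧ b1 = true then
        Cl (yc p) a2 x.2 * star (Cl (yc p) b2 x.2) else 0) =
      ∑ x : Bool × Fin 4, (if x.1 = false ∧ a1 = true ∧ b1 = true then
        Cl (yc p) a2 x.2 * star (Cl (yc p) b2 x.2) else 0) := rfl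
  rw [h4, Fintype.sum_prod_type, Fintype.sum_bool]
  cases a1 <;> cases b1
  · simp [Matrix.diagonal_apply, ind]
  · simp [Matrix.diagonal_apply, ind]
  · simp [Matrix.diagonal_apply, ind]
  · simp only [Matrix.conjTranspose_apply] at h2
    simp only [and_self, if_true, Bool.true_eq_false, false_and, if_false,
      Finset.sum_const_zero, zero_add]
    rw [h2, Matrix.one_apply, Matrix.diagonal_apply]
    simp [ind]

/-- constant matrix units between lines of the same type -/
def mu {I J : Type} [DecidableEq I] [Fintype J] [DecidableEq J] {M : I → ℕ} {χ : J → Option I}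
    (α β : J) (h : χ α = χ β) : AT M χ :=
  mk (fun _ => Matrix.single α β 1) continuous_const (by
    intro i p a b
    beta_reduce
    by_cases hab : α = a ∧ β = b
    · obtain ⟨rfl, rfl⟩ := hab
      have : sg χ i α = sg χ i β := by unfold sg; rw [h]
      rw [Matrix.single_apply_same, mul_one, this, sg_mul_self]
    · simp only [Matrix.single_apply, if_neg hab]; ring)

lemma star_mu_mul {I J : Type} [DecidableEq I] [Fintype J] [DecidableEq J] {M : I → ℕ}
    {χ : J → Option I} (α β : J) (h : χ α = χ β) :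
    star (mu α β h : AT M χ) * mu α β h = dg (Pi.single β 1) := by
  refine at_ext fun p => ?_
  rw [ev_mul, ev_star, ev_dg]
  simp only [mu, ev_mk]
  rw [Matrix.star_eq_conjTranspose, Matrix.conjTranspose_single, star_one,
    Matrix.single_mul_single_same, mul_one]
  ext a b
  by_cases hab : a = b
  · subst hab
    rw [Matrix.diagonal_apply_eq, Matrix.single_apply, Pi.single_apply]
    simp [eq_comm]
  · rw [Matrix.diagonal_apply_ne _ hab, Matrix.single_apply, if_neg]
    rintro ⟨rfl, rfl⟩; exact hab rfl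

lemma mu_mul_star {I J : Type} [DecidableEq I] [Fintype J] [DecidableEq J] {M : I → ℕ}
    {χ : J → Option I} (α β : J) (h : χ α = χ β) :
    (mu α β h : AT M χ) * star (mu α β h) = dg (Pi.single α 1) := by
  refine at_ext fun p => ?_
  rw [ev_mul, ev_star, ev_dg]
  simp only [mu, ev_mk]
  rw [Matrix.star_eq_conjTranspose, Matrix.conjTranspose_single, star_one,
    Matrix.single_mul_single_same, mul_one]
  ext a b
  by_cases hab : a = b
  · subst hab
    rw [Matrix.diagonal_apply_eq, Matrix.single_apply, Pi.single_apply]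
    simp [eq_comm]
  · rw [Matrix.diagonal_apply_ne _ hab, Matrix.single_apply, if_neg]
    rintro ⟨rfl, rfl⟩; exact hab rfl

/-! ### quasitraces -/

lemma IsQuasitrace.comp {R R' : Type} [Ring R] [StarRing R] [Algebra ℂ R] [Ring R'] [StarRing R']
    [Algebra ℂ R'] {τ : R' → ℂ} (hτ : IsQuasitrace τ) (ψ : R →⋆ₐ[ℂ] R') :
    IsQuasitrace (fun x => τ (ψ x)) where
  nonneg x := by
    rw [map_mul, map_star]; exact hτ.nonneg _
  comm x := by
    rw [map_mul, map_star, map_mul, map_star]; exact hτ.comm _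
  add_I a b ha hb := by
    rw [map_add, map_smul]; exact hτ.add_I _ _ (ha.map ψ) (hb.map ψ)
  linear c x y hx hy h1 h2 := by
    rw [map_add, map_smul]
    refine hτ.linear c _ _ ?_ ?_ (h1.map ψ) ?_
    · exact ⟨by rw [← map_star]; exact hx.star_comm_self.map ψ⟩
    · exact ⟨by rw [← map_star]; exact hy.star_comm_self.map ψ⟩
    · rw [← map_star]; exact h2.map ψ

lemma normal_dg {I J : Type} [DecidableEq I] [Fintype J] [DecidableEq J] {M : I → ℕ}
    {χ : J → Option I} (s : J → ℂ) : IsStarNormal (dg s : AT M χ) := by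
  refine ⟨?_⟩
  show star (dg s) * dg s = dg s * star (dg s)
  rw [star_dg, dg_mul, dg_mul]
  congr 1; funext x; rw [mul_comm]

lemma quasi_add {I J : Type} [DecidableEq I] [Fintype J] [DecidableEq J] {M : I → ℕ}
    {χ : J → Option I} {σ : AT M χ → ℂ} (hσ : IsQuasitrace σ) (s s' : J → ℂ) :
    σ (dg (s + s')) = σ (dg s) + σ (dg s') := by
  have h := hσ.linear 1 (dg s) (dg s') (normal_dg s) (normal_dg s') (by
    show dg s * dg s' = dg s' * dg s
    rw [dg_mul, dg_mul]; congr 1; funext x; rw [mul_comm]) (by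
    show dg s * star (dg s') = star (dg s') * dg s
    rw [star_dg, dg_mul, dg_mul]; congr 1; funext x; rw [mul_comm])
  rw [one_smul, one_mul] at h
  rw [← h]
  congr 1
  refine at_ext fun p => ?_
  rw [ev_add, ev_dg, ev_dg, ev_dg, Matrix.diagonal_add]
  rfl

/-- the value of a normalised quasitrace on a line of the first stage -/
lemma quasi_line {σ : AT M0 χ0 → ℂ} (hσ : IsQuasitrace σ) (h1 : σ 1 = 1) (α : J0) :
    σ (dg (Pi.single α 1)) = 1 / 8 := by
  have heq : ∀ (b : Bool) (k l : Fin 4), σ (dg (Pi.single ((b, k) : J0) 1)) =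
      σ (dg (Pi.single ((b, l) : J0) 1)) := by
    intro b k l
    have h : χ0 (b, k) = χ0 (b, l) := rfl
    rw [← star_mu_mul (M := M0) (b, l) (b, k) h.symm, ← mu_mul_star (M := M0) (b, l) (b, k) h.symm]
    exact hσ.comm _
  have hind : ∀ b : Bool, σ (dg (ind b)) = 4 * σ (dg (Pi.single ((b, 0) : J0) 1)) := by
    intro b
    have e : ind b = Pi.single ((b, 0) : J0) 1 + (Pi.single ((b, 1) : J0) 1 +
        (Pi.single ((b, 2) : J0) 1 + Pi.single ((b, 3) : J0) 1)) := by
      funext ⟨x1, x2⟩
      simp only [Pi.add_apply, Pi.single_apply, ind]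
      cases b <;> cases x1 <;> fin_cases x2 <;> simp
    rw [e, quasi_add hσ, quasi_add hσ, quasi_add hσ, heq b 1 0, heq b 2 0, heq b 3 0]
    ring
  have hone : σ (dg (ind false)) + σ (dg (ind true)) = 1 := by
    rw [← quasi_add hσ, ← h1]
    congr 1
    refine at_ext fun p => ?_
    rw [ev_dg, ev_one, ← Matrix.diagonal_one]
    congr 1
    funext ⟨x1, x2⟩
    cases x1 <;> simp [ind]
  have hU : σ (dg (ind false)) = σ (dg (ind true)) := by
    rw [← Uc1, ← Uc2]; exact hσ.comm Uc
  obtain ⟨b, k⟩ := α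
  rw [heq b k 0]
  have h3 := hind false
  have h4 := hind true
  have h5 : σ (dg (ind false)) = 1 / 2 := by
    rw [← hU] at hone; linear_combination hone / 2
  have h6 : σ (dg (ind true)) = 1 / 2 := by rw [← hU, h5]
  cases b
  · linear_combination (-1 / 4 : ℂ) * h3 + (1 / 4 : ℂ) * h5
  · linear_combination (-1 / 4 : ℂ) * h4 + (1 / 4 : ℂ) * h6

end Pool.Agent.H254.BR
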