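import Pool.Agent.H254.BR.Main4

/-!
The radius of comparison of the limit algebra is positive.
-/

set_option autoImplicit false
set_option linter.unusedSectionVars false
set_option linter.unusedSimpArgs false

noncomputable section

namespace Pool.Agent.H254.BR

open scoped Matrix.Norms.L2Operator
open Matrix Filter Topology
open scoped ENNReal NNReal
open Pool.Agent.H188R3 (IsLim norm_map_inj norm_map_le')

/-- `1 × 1` matrices -/
def m1 (L : Type) [CStarAlgebra L] : L →⋆ₐ[ℂ] Matrix (Fin 1) (Fin 1) L where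
  toFun x := Matrix.diagonal fun _ => x
  map_one' := Matrix.diagonal_one
  map_mul' x y := (Matrix.diagonal_mul_diagonal _ _).symm
  map_zero' := Matrix.diagonal_zero
  map_add' x y := (Matrix.diagonal_add _ _).symm
  commutes' z := rfl
  map_star' x := by
    rw [Matrix.star_eq_conjTranspose, Matrix.diagonal_conjTranspose]
    rfl

section lim

variable {L : Type} [CStarAlgebra L] {j : ∀ n, (stg n).A →⋆ₐ[ℂ] L}

/-- the indicator of `P` -/
def aP (n : ℕ) : (stg n).A := dg (fun x => if (stg n).P x then 1 else 0)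

/-- the indicator of `Q` -/
def aQ (n : ℕ) : (stg n).A := dg (fun x => if (stg n).Q x then 1 else 0)

lemma phi_aP (n : ℕ) : φ n (aP n) = aP (n + 1) :=
  stp_dg (par n (stg n)).pt (fun x => if (stg n).P x then 1 else 0)

lemma phi_aQ (n : ℕ) : φ n (aQ n) = aQ (n + 1) :=
  stp_dg (par n (stg n)).pt (fun x => if (stg n).Q x then 1 else 0)

lemma j_aP (hL : IsLim φ j) (n : ℕ) : j n (aP n) = j 0 (aP 0) := by
  induction n with
  | zero => rfl
  | succ n ih => rw [← phi_aP, hL.comp, ih]

lemma j_aQ (hL : IsLim φ j) (n : ℕ) : j n (aQ n) = j 0 (aQ 0) := by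
  induction n with
  | zero => rfl
  | succ n ih => rw [← phi_aQ, hL.comp, ih]

/-- the obstruction in the limit -/
theorem not_compare (hL : IsLim φ j) (v : L) :
    ¬ ‖star v * j 0 (aQ 0) * v - j 0 (aP 0)‖ < 1 := by
  intro hv
  have hopen : IsOpen {w : L | ‖star w * j 0 (aQ 0) * w - j 0 (aP 0)‖ < 1} := by
    refine isOpen_lt ?_ continuous_const
    exact (((continuous_star.mul continuous_const).mul continuous_id).sub continuous_const).norm
  obtain ⟨ε, hε, hball⟩ := Metric.isOpen_iff.1 hopen v hv
  obtain ⟨n, x, hx⟩ := hL.dense v ε hε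
  have h1 : j n x ∈ {w : L | ‖star w * j 0 (aQ 0) * w - j 0 (aP 0)‖ < 1} := by
    apply hball
    rw [Metric.mem_ball, dist_comm, dist_eq_norm]
    exact hx
  have h2 : ‖star (j n x) * j 0 (aQ 0) * j n x - j 0 (aP 0)‖ < 1 := h1
  rw [← j_aQ hL n, ← j_aP hL n, ← map_star, ← map_mul, ← map_mul, ← map_sub, norm_j hL] at h2
  have hinv := inv_stg n
  have hcmp : Fintype.card {k // (stg n).Q k ∧ (stg n).χ k = none} <
      Fintype.card {k // (stg n).P k ∧ (stg n).χ k = none} := by
    have e1 := hinv.xy
    have e2 := hinv.x_pos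
    generalize Fintype.card {k // (stg n).Q k ∧ (stg n).χ k = none} = y at *
    generalize Fintype.card {k // (stg n).P k ∧ (stg n).χ k = none} = x at *
    by_contra hcon
    have : 2 ^ n * x ≤ 2 ^ n * y := Nat.mul_le_mul_left _ (not_lt.1 hcon)
    omega
  have h3 := obstruction (stg n).M (stg n).χ (stg n).P (stg n).Q hcmp hinv.cnt hinv.M_pos x
  exact absurd h2 (not_lt.2 h3)

/-- the value of quasitraces on the two projections -/
lemma quasi_P {σ : (stg 0).A → ℂ} (hσ : IsQuasitrace σ) (h1 : σ 1 = 1) : σ (aP 0) = 1 / 8 := by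
  have h := quasi_line (σ := σ) hσ h1 ((false, 0) : J0)
  rw [← h]
  congr 1
  show (dg (fun x : J0 => if x = (false, 0) then (1 : ℂ) else 0) : AT M0 χ0) = _
  congr 1
  funext x
  rw [Pi.single_apply]

lemma quasi_Q {σ : (stg 0).A → ℂ} (hσ : IsQuasitrace σ) (h1 : σ 1 = 1) : σ (aQ 0) = 1 / 4 := by
  have h := quasi_line (σ := σ) hσ h1 ((true, 0) : J0)
  have h' := quasi_line (σ := σ) hσ h1 ((true, 1) : J0)
  have h2 : σ (aQ 0) = σ (dg (Pi.single ((true, 0) : J0) 1 + Pi.single ((true, 1) : J0) 1) :
      AT M0 χ0) := by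
    congr 1
    show (dg (fun x : J0 => if x = (true, 0) ∨ x = (true, 1) then (1 : ℂ) else 0) : AT M0 χ0) = _
    congr 1
    funext x
    rw [Pi.add_apply, Pi.single_apply, Pi.single_apply]
    by_cases e1 : x = (true, 0)
    · subst e1; simp
    · by_cases e2 : x = (true, 1)
      · subst e2; simp
      · simp [e1, e2]
  have h3 : σ (dg (Pi.single ((true, 0) : J0) 1 + Pi.single ((true, 1) : J0) 1) : AT M0 χ0) =
      σ (dg (Pi.single ((true, 0) : J0) 1) : AT M0 χ0) +
      σ (dg (Pi.single ((true, 1) : J0) 1) : AT M0 χ0) := quasi_add (σ := σ) hσ _ _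
  rw [h2, h3, h, h']; norm_num

lemma aP_proj : star (aP 0) * aP 0 = aP 0 := by
  unfold aP
  rw [star_dg, dg_mul]
  congr 1
  funext x
  rw [Pi.star_apply]
  split_ifs <;> simp

lemma aQ_proj : star (aQ 0) * aQ 0 = aQ 0 := by
  unfold aQ
  rw [star_dg, dg_mul]
  congr 1
  funext x
  rw [Pi.star_apply]
  split_ifs <;> simp

lemma hasRank_proj (τ : QT L) {k : ℕ} (p : Matrix (Fin k) (Fin k) L) (hp : star p * p = p) :
    HasRank τ p (τ.val k p).re := by
  have hsa : star p = p := by
    have := congrArg star hp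
    rw [star_mul, star_star, hp] at this
    exact this.symm
  have hpp : p * p = p := by rw [hsa] at hp; exact hp
  refine ⟨fun _ => p, fun n => ⟨⟨p, hp.symm⟩, ?_⟩, tendsto_const_nhds⟩
  induction n with
  | zero => simp
  | succ n ih => rw [pow_succ, ih, hpp]

theorem rc_pos (hL : IsLim φ j) : 0 < rc L := by
  have key : (8⁻¹ : ℝ≥0∞) ≤ rc L := by
    refine le_sInf ?_
    rintro x ⟨r, rfl, hr⟩
    by_contra hlt
    rw [not_le] at hlt
    have hr8 : (r : ℝ) < 1 / 8 := by
      have h1 : (r : ℝ≥0∞) < ((1 / 8 : ℝ≥0) : ℝ≥0∞) := by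
        refine lt_of_lt_of_eq hlt ?_
        rw [ENNReal.coe_div (by norm_num)]
        simp
      have h2 : r < 1 / 8 := by exact_mod_cast h1
      exact_mod_cast h2
    set a : Matrix (Fin 1) (Fin 1) L := m1 L (j 0 (aP 0)) with ha
    set b : Matrix (Fin 1) (Fin 1) L := m1 L (j 0 (aQ 0)) with hb
    have hap : star a * a = a := by
      rw [ha, ← map_star, ← map_mul, ← map_star, ← map_mul, aP_proj]
    have hbp : star b * b = b := by
      rw [hb, ← map_star, ← map_mul, ← map_star, ← map_mul, aQ_proj]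
    have hcz := hr 1 1 a b ⟨a, hap.symm⟩ ⟨b, hbp.symm⟩ (fun τ => by
      refine ⟨_, _, hasRank_proj τ a hap, hasRank_proj τ b hbp, ?_⟩
      have hσ : IsQuasitrace (fun x : (stg 0).A => τ.val 1 ((m1 L).comp (j 0) x)) :=
        (τ.isQuasitrace 1).comp ((m1 L).comp (j 0))
      have h1 : (fun x : (stg 0).A => τ.val 1 ((m1 L).comp (j 0) x)) 1 = 1 := by
        beta_reduce
        rw [map_one]; exact τ.map_one
      have e1 : τ.val 1 a = 1 / 8 := quasi_P hσ h1
      have e2 : τ.val 1 b = 1 / 4 := quasi_Q hσ h1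
      rw [e1, e2]
      norm_num
      linarith)
    obtain ⟨v, hv⟩ := hcz 1 one_pos
    refine not_compare hL (v 0 0) ?_
    have h2 := hv 0 0
    have h3 : (v.conjTranspose * b * v - a) 0 0 =
        star (v 0 0) * j 0 (aQ 0) * v 0 0 - j 0 (aP 0) := by
      rw [Matrix.sub_apply, Matrix.mul_apply, Fin.sum_univ_one, Matrix.mul_apply,
        Fin.sum_univ_one, Matrix.conjTranspose_apply]
      rfl
    rwa [h3] at h2
  refine lt_of_lt_of_le ?_ key
  simp

theorem bauer_L (hL : IsLim φ j) : ∃ τ, TracialStates L = {τ} := by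
  obtain ⟨τ, hτ⟩ := trace_exists hL
  refine ⟨τ, ?_⟩
  ext τ'
  rw [Set.mem_singleton_iff]
  constructor
  · intro h; exact trace_unique hL τ' τ h hτ
  · rintro rfl; exact hτ

end lim

/-- a tracial state gives a quasitrace -/
def qtOfTrace {A : Type} [CStarAlgebra A] {τ : WeakDual ℂ A} (hτ : τ ∈ TracialStates A) : QT A where
  val n x := ∑ i, τ (x i i)
  isQuasitrace n :=
    { nonneg := by
        intro x
        have h : ∑ i, τ ((star x * x) i i) = ∑ i, ∑ k, τ (star (x k i) * x k i) := by
          refine Finset.sum_congr rfl fun i _ => ?_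
          rw [Matrix.mul_apply, map_sum]
          rfl
        rw [h, Complex.re_sum, Complex.im_sum]
        constructor
        · refine Finset.sum_nonneg fun i _ => ?_
          rw [Complex.re_sum]
          exact Finset.sum_nonneg fun k _ => (hτ.2.1 _).1
        · refine Finset.sum_eq_zero fun i _ => ?_
          rw [Complex.im_sum]
          exact Finset.sum_eq_zero fun k _ => (hτ.2.1 _).2
      comm := by
        intro x
        simp only [Matrix.mul_apply, map_sum]
        rw [Finset.sum_comm]
        exact Finset.sum_congr rfl fun i _ => Finset.sum_congr rfl fun k _ => hτ.2.2 _ _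
      add_I := by
        intro a b _ _
        simp only [Matrix.add_apply, Matrix.smul_apply, map_add, map_smul, smul_eq_mul]
        rw [Finset.sum_add_distrib, Finset.mul_sum]
      linear := by
        intro c x y _ _ _ _
        simp only [Matrix.add_apply, Matrix.smul_apply, map_add, map_smul, smul_eq_mul]
        rw [Finset.sum_add_distrib, Finset.mul_sum] }
  lsc n := by
    refine Continuous.lowerSemicontinuous ?_ |>.lowerSemicontinuousOn _
    refine Complex.continuous_re.comp (continuous_finsetSum _ fun i _ => ?_)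
    exact (map_continuous τ).comp (continuous_id.matrix_elem i i)
  compat n x := by
    rw [Fin.sum_univ_castSucc]
    have h1 : corner x (Fin.last n) (Fin.last n) = 0 := by
      unfold corner
      simp
    have h2 : ∀ i : Fin n, corner x i.castSucc i.castSucc = x i i := by
      intro i
      unfold corner
      simp
    rw [h1, map_zero, add_zero]
    exact Finset.sum_congr rfl fun i _ => by rw [h2]
  map_one := by
    rw [Fin.sum_univ_one, Matrix.one_apply_eq]
    exact hτ.1

/-- **The main theorem.** -/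
theorem main : ∃ (A : Type) (_ : CStarAlgebra A), TopologicalSpace.SeparableSpace A ∧
    IsSimpleRing A ∧ StablyFinite A ∧ StableRankOne A ∧ BauerTraceSpace A ∧
    (∃ τ, TracialStates A = {τ}) ∧ Nonempty (QT A) ∧ 0 < rc A := by
  obtain ⟨L, _, j, hL⟩ := Pool.Agent.H188R3.exists_lim φ
    (fun n => stp_injective (par n (stg n)).hc (par n (stg n)).pt)
  obtain ⟨τ, hτ⟩ := bauer_L hL
  refine ⟨L, inferInstance, lim_separable hL fun n => separable_AT, simple_L hL,
    stablyFinite_L hL, sr1_L hL, ⟨?_, ?_⟩, ⟨τ, hτ⟩,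
    ⟨qtOfTrace (by rw [hτ]; exact Set.mem_singleton τ : τ ∈ TracialStates L)⟩, rc_pos hL⟩
  · rw [hτ]; exact Set.singleton_nonempty τ
  · rw [hτ, extremePoints_singleton]
    exact isClosed_singleton

end Pool.Agent.H254.BR
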