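import Pool.Agent.H254.BR.Blk

/-!
Elements with a singular constant block are limits of invertible elements of the next stage.
-/

set_option autoImplicit false
set_option linter.unusedSectionVars false
set_option linter.unusedSimpArgs false

noncomputable section

namespace Pool.Agent.H254.BR

open scoped Matrix.Norms.L2Operator
open Matrix

variable {I J : Type} [DecidableEq I] [Fintype J] [DecidableEq J]
variable {c t K r m : ℕ} {M : I → ℕ} {χ : J → Option I}

/-- the indicator of copy `l` -/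
def dfun (l : Fin c) : JN c t K r J → ℂ
  | (_, Sum.inl l') => if l' = l then 1 else 0
  | (_, Sum.inr _) => 0

/-- the indicator of the target -/
def zfun (t0 : Fin t) (j0 : J) : JN c t K r J → ℂ
  | (_, Sum.inl _) => 0
  | (j, Sum.inr (t', Sum.inl _)) => if t' = t0 ∧ j = j0 then 1 else 0
  | (_, Sum.inr (_, Sum.inr _)) => 0

/-- the target as a family of blocks -/
def Z0 (t0 : Fin t) (j0 : J) : Fin t × ((J × Fin K) ⊕ Fin r) → Matrix J J ℂ
  | (t', Sum.inl _) => if t' = t0 then Matrix.diagonal (Pi.single j0 1) else 0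
  | (_, Sum.inr _) => 0

/-- the isometry of copy `l` into the target -/
def vel (t0 : Fin t) (j0 : J) (l : Fin c) : AT (MN c r m M) (χN c t K r χ) :=
  ∑ κ : J × Fin K, yy (j0, Sum.inr (t0, Sum.inl κ)) 0 (κ.1, Sum.inl l) κ.2

lemma star_dg (s : J → ℂ) : star (dg s : AT M χ) = dg (star s) := by
  refine at_ext fun p => ?_
  rw [ev_star, ev_dg, ev_dg, Matrix.star_eq_conjTranspose, Matrix.diagonal_conjTranspose]

lemma dg_sum {ι : Type} (s : Finset ι) (f : ι → J → ℂ) :
    ∑ a ∈ s, (dg (f a) : AT M χ) = dg (∑ a ∈ s, f a) := by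
  refine at_ext fun p => ?_
  rw [ev_sum]
  simp only [ev_dg]
  exact (map_sum (Matrix.diagonalAddMonoidHom J ℂ) f s).symm

lemma vel_star_mul (hK : 1 ≤ K) (hK' : ∀ a, M a + 1 ≤ K) (t0 : Fin t) (j0 : J) (l : Fin c) :
    star (vel t0 j0 l : AT (MN c r m M) (χN c t K r χ)) * vel t0 j0 l = dg (dfun l) := by
  unfold vel
  rw [star_sum, Finset.sum_mul]
  have h1 : ∀ κ : J × Fin K,
      star (yy (j0, Sum.inr (t0, Sum.inl κ)) 0 (κ.1, Sum.inl l) κ.2 :
        AT (MN c r m M) (χN c t K r χ)) *
        ∑ κ' : J × Fin K, yy (j0, Sum.inr (t0, Sum.inl κ')) 0 (κ'.1, Sum.inl l) κ'.2 =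
      yy (κ.1, Sum.inl l) κ.2 (κ.1, Sum.inl l) κ.2 := by
    intro κ
    rw [Finset.mul_sum, Finset.sum_eq_single κ]
    · rw [star_yy, yy_triv (by rfl)]
    · intro κ' _ hκ
      rw [star_yy, yy_mul_yy_ne]
      intro h
      simp only [Prod.mk.injEq, Sum.inr.injEq, Sum.inl.injEq, true_and] at h
      exact hκ h.symm
    · intro h; exact absurd (Finset.mem_univ _) h
  rw [Finset.sum_congr rfl fun κ _ => h1 κ, Fintype.sum_prod_type]
  have h2 : ∀ j : J, ∑ n : Fin K, (yy (j, Sum.inl l) n (j, Sum.inl l) n :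
      AT (MN c r m M) (χN c t K r χ)) = dg (Pi.single (j, Sum.inl l) 1) := by
    intro j
    refine sum_yy_self K hK _ ?_
    intro a ha
    change (χ j).map (fun i => Sum.inl (l, i)) = some a at ha
    rcases h : χ j with _ | i
    · rw [h] at ha; simp at ha
    · rw [h] at ha
      simp only [Option.map_some, Option.some.injEq] at ha
      subst ha
      exact hK' i
  rw [Finset.sum_congr rfl fun j _ => h2 j, dg_sum]
  congr 1
  funext x
  obtain ⟨j, b⟩ := x
  rw [Finset.sum_apply]
  rcases b with l' | a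
  · by_cases hl : l' = l
    · subst hl
      simp [dfun, Pi.single_apply]
    · simp [dfun, Pi.single_apply, hl]
  · simp [dfun, Pi.single_apply]

lemma dil (hK : 1 ≤ K) (hK' : ∀ a, M a + 1 ≤ K) (t0 : Fin t) (j0 : J) :
    Dil (fun l : Fin c => (dg (dfun l) : AT (MN c r m M) (χN c t K r χ)))
      (fun l => vel t0 j0 l) (dg (zfun t0 j0)) where
  dsa l := by
    rw [star_dg]; congr 1; funext x
    obtain ⟨j, l' | a⟩ := x
    · simp only [Pi.star_apply, dfun]; split_ifs <;> simp
    · simp [dfun]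
  dd l := by
    rw [dg_mul]; congr 1; funext x
    obtain ⟨j, l' | a⟩ := x
    · simp only [dfun]; split_ifs <;> simp
    · simp [dfun]
  dd' l l' h := by
    rw [dg_mul]
    have : (fun x : JN c t K r J => dfun l x * dfun l' x) = 0 := by
      funext x
      obtain ⟨j, l'' | a⟩ := x
      · simp only [dfun]
        by_cases h1 : l'' = l
        · subst h1; simp [h]
        · simp [h1]
      · simp [dfun]
    rw [this]
    refine at_ext fun p => ?_
    rw [ev_dg, ev_zero]; exact Matrix.diagonal_zero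
  zsa := by
    rw [star_dg]; congr 1; funext x
    obtain ⟨j, l' | ⟨t', κ | s⟩⟩ := x
    · simp [zfun]
    · simp only [Pi.star_apply, zfun]; split_ifs <;> simp
    · simp [zfun]
  zz := by
    rw [dg_mul]; congr 1; funext x
    obtain ⟨j, l' | ⟨t', κ | s⟩⟩ := x
    · simp [zfun]
    · simp only [zfun]; split_ifs <;> simp
    · simp [zfun]
  dz l := by
    rw [dg_mul]
    have : (fun x : JN c t K r J => dfun l x * zfun t0 j0 x) = 0 := by
      funext x
      obtain ⟨j, l' | ⟨t', κ | s⟩⟩ := x <;> simp [dfun, zfun]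
    rw [this]
    refine at_ext fun p => ?_
    rw [ev_dg, ev_zero]; exact Matrix.diagonal_zero
  zv l := by
    unfold vel
    rw [Finset.mul_sum]
    refine Finset.sum_congr rfl fun κ _ => ?_
    rw [dg_mul_yy]
    simp [zfun]
  vd l := by
    unfold vel
    rw [Finset.sum_mul]
    refine Finset.sum_congr rfl fun κ _ => ?_
    rw [yy_mul_dg]
    simp [dfun]
  vv l := vel_star_mul hK hK' t0 j0 l

lemma sum_dfun : ∑ l : Fin c, (dg (dfun l) : AT (MN c r m M) (χN c t K r χ)) =
    blk (1, 0) := by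
  rw [dg_sum]
  refine at_ext fun p => ?_
  rw [ev_dg, ev_blk]
  have : (bk (fun q => ev q ((1 : AT M χ), (0 : Fin t × ((J × Fin K) ⊕ Fin r) →
      Matrix J J ℂ)).1) ((1 : AT M χ), (0 : Fin t × ((J × Fin K) ⊕ Fin r) →
      Matrix J J ℂ)).2 p : BN c t K r J → Matrix J J ℂ) =
      fun b => Matrix.diagonal (fun j => (∑ l : Fin c, dfun l) (j, b)) := by
    funext b
    rcases b with l | a
    · have : (fun j : J => (∑ l : Fin c, dfun l) ((j, Sum.inl l) : JN c t K r J)) =
          fun _ => (1 : ℂ) := by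
        funext j; rw [Finset.sum_apply]; simp [dfun]
      rw [this]; exact (Matrix.diagonal_one).symm
    · have : (fun j : J => (∑ l : Fin c, dfun l) ((j, Sum.inr a) : JN c t K r J)) =
          fun _ => (0 : ℂ) := by
        funext j; rw [Finset.sum_apply]; simp [dfun]
      rw [this]; exact (Matrix.diagonal_zero).symm
  rw [this, Matrix.blockDiagonal_diagonal]

lemma zfun_eq (t0 : Fin t) (j0 : J) :
    (dg (zfun t0 j0) : AT (MN c r m M) (χN c t K r χ)) = blk (0, Z0 t0 j0) := by
  refine at_ext fun p => ?_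
  rw [ev_dg, ev_blk]
  have : (bk (fun q => ev q ((0 : AT M χ), (Z0 t0 j0 : Fin t × ((J × Fin K) ⊕ Fin r) →
      Matrix J J ℂ)).1) ((0 : AT M χ), (Z0 t0 j0 : Fin t × ((J × Fin K) ⊕ Fin r) →
      Matrix J J ℂ)).2 p : BN c t K r J → Matrix J J ℂ) =
      fun b => Matrix.diagonal (fun j => zfun t0 j0 (j, b)) := by
    funext b
    rcases b with l | ⟨t', κ | s⟩
    · have : (fun j : J => zfun t0 j0 ((j, Sum.inl l) : JN c t K r J)) =
          fun _ => (0 : ℂ) := by
        funext j; simp [zfun]
      rw [this]; exact (Matrix.diagonal_zero).symm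
    · simp only [bk, Z0]
      by_cases h : t' = t0
      · rw [if_pos h]
        congr 1; funext j
        simp [zfun, h, Pi.single_apply]
      · rw [if_neg h]
        have : (fun j : J => zfun t0 j0 ((j, Sum.inr (t', Sum.inl κ)) : JN c t K r J)) =
          fun _ => (0 : ℂ) := by
          funext j; simp [zfun, h]
        rw [this]; exact (Matrix.diagonal_zero).symm
    · have : (fun j : J => zfun t0 j0 ((j, Sum.inr (t', Sum.inr s)) : JN c t K r J)) =
          fun _ => (0 : ℂ) := by
        funext j; simp [zfun]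
      rw [this]; exact (Matrix.diagonal_zero).symm
  rw [this, Matrix.blockDiagonal_diagonal]

lemma commute_dfun (l : Fin c) (F : AT M χ) (C : Fin t × ((J × Fin K) ⊕ Fin r) → Matrix J J ℂ) :
    Commute (dg (dfun l) : AT (MN c r m M) (χN c t K r χ)) (blk (F, C)) := by
  refine at_ext fun p => ?_
  rw [ev_mul, ev_mul, ev_dg, ev_blk]
  ext a b
  rw [Matrix.diagonal_mul, Matrix.mul_diagonal, Matrix.blockDiagonal_apply]
  by_cases h : a.2 = b.2
  · rw [if_pos h, mul_comm]
    congr 1
    obtain ⟨j, b1⟩ := a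
    obtain ⟨j', b2⟩ := b
    simp only at h
    subst h
    rcases b1 with l' | a <;> rfl
  · rw [if_neg h, mul_zero, zero_mul]

/-- the basic closure statement -/
theorem blk_mem_closure_aux (hK : 1 ≤ K) (hK' : ∀ a, M a + 1 ≤ K) (F : AT M χ) (t0 : Fin t)
    (j0 : J) (C C' : Fin t × ((J × Fin K) ⊕ Fin r) → Matrix J J ℂ)
    (h1 : C * C' = 1 - Z0 t0 j0) (h2 : C' * C = 1 - Z0 t0 j0) (h3 : Z0 t0 j0 * C = 0)
    (h4 : C * Z0 t0 j0 = 0) (h5 : Z0 t0 j0 * C' = 0) (h6 : C' * Z0 t0 j0 = 0) :
    (blk (F, C) : AT (MN c r m M) (χN c t K r χ)) ∈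
      closure {x : AT (MN c r m M) (χN c t K r χ) | IsUnit x} := by
  have key := (dil (c := c) (r := r) (m := m) (χ := χ) hK hK' t0 j0).mem_closure
    (G := blk (F, 0)) (R := blk (0, C)) (R' := blk (0, C')) ?_ ?_ ?_ ?_ ?_ ?_ ?_ ?_
  · rw [← map_add] at key
    simpa using key
  · intro l; exact commute_dfun l F 0
  · rw [sum_dfun, ← map_mul]
    congr 1
    simp
  · rw [sum_dfun, zfun_eq, ← map_mul, ← map_one blk, ← map_sub, ← map_sub]
    congr 1
    ext1
    · simp
    · simp [h1]
  · rw [sum_dfun, zfun_eq, ← map_mul, ← map_one blk, ← map_sub, ← map_sub]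
    congr 1
    ext1
    · simp
    · simp [h2]
  · rw [sum_dfun, zfun_eq, ← map_add, ← map_mul, ← map_zero blk]
    congr 1
    ext1
    · simp
    · simp [h3]
  · rw [sum_dfun, zfun_eq, ← map_add, ← map_mul, ← map_zero blk]
    congr 1
    ext1
    · simp
    · simp [h4]
  · rw [sum_dfun, zfun_eq, ← map_add, ← map_mul, ← map_zero blk]
    congr 1
    ext1
    · simp
    · simp [h5]
  · rw [sum_dfun, zfun_eq, ← map_add, ← map_mul, ← map_zero blk]
    congr 1
    ext1
    · simp
    · simp [h6]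

/-! ### perturbations -/

lemma exists_unit_near (N : Matrix J J ℂ) {ε : ℝ} (hε : 0 < ε) :
    ∃ N' : Matrix J J ℂ, IsUnit N' ∧ ‖N - N'‖ ≤ ε := by
  have hfin : (spectrum ℂ N).Finite := N.finite_spectrum
  have hinf : ((fun s : ℝ => (-(s : ℂ))) '' Set.Ioo 0 ε).Infinite := by
    refine Set.Infinite.image ?_ (Set.Ioo_infinite hε)
    intro a _ b _ hab
    have : (a : ℂ) = b := neg_injective hab
    exact_mod_cast this
  obtain ⟨z, ⟨s, hs, rfl⟩, hz⟩ := (hinf.sdiff hfin).nonempty
  refine ⟨N + (s : ℂ) • 1, ?_, ?_⟩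
  · have h1 : IsUnit (algebraMap ℂ (Matrix J J ℂ) (-(s : ℂ)) - N) := by
      by_contra h
      exact hz h
    have h2 : algebraMap ℂ (Matrix J J ℂ) (-(s : ℂ)) - N = -(N + (s : ℂ) • 1) := by
      rw [Algebra.algebraMap_eq_smul_one, neg_smul]; abel
    rw [h2] at h1
    simpa using h1.neg
  · have : N - (N + (s : ℂ) • 1) = -((s : ℂ) • (1 : Matrix J J ℂ)) := by abel
    rw [this, norm_neg, norm_smul, Complex.norm_real, Real.norm_eq_abs, abs_of_pos hs.1]
    have h1 : ‖(1 : Matrix J J ℂ)‖ ≤ 1 := by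
      rcases isEmpty_or_nonempty J with hJ | hJ
      · rw [Subsingleton.elim (1 : Matrix J J ℂ) 0, norm_zero]; exact zero_le_one
      · exact CStarRing.norm_one.le
    nlinarith [hs.1, hs.2, norm_nonneg (1 : Matrix J J ℂ)]

lemma norm_blk_le (x : AT M χ × (Fin t × ((J × Fin K) ⊕ Fin r) → Matrix J J ℂ)) :
    ‖(blk x : AT (MN c r m M) (χN c t K r χ))‖ ≤ ‖x‖ :=
  Pool.Agent.H188R3.norm_map_le' blk x

/-- the case of a diagonal matrix -/
theorem blk_mem_closure_diag (hK : 1 ≤ K) (hK' : ∀ a, M a + 1 ≤ K) (F : AT M χ) (t0 : Fin t)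
    (C : Fin t × ((J × Fin K) ⊕ Fin r) → Matrix J J ℂ) (D : J → ℂ) (j0 : J) (hj : D j0 = 0)
    (hC : ∀ a, a.1 = t0 → C a = Matrix.diagonal D) :
    (blk (F, C) : AT (MN c r m M) (χN c t K r χ)) ∈
      closure {x : AT (MN c r m M) (χN c t K r χ) | IsUnit x} := by
  rw [← closure_closure, Metric.mem_closure_iff]
  intro ε hε
  have hε2 : 0 < ε / 2 := by positivity
  choose N hN1 hN2 using fun a => exists_unit_near (C a) hε2
  set D2 : J → ℂ := fun j => if D j = 0 then ((ε / 2 : ℝ) : ℂ) else D j with hD2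
  have hD2ne : ∀ j, D2 j ≠ 0 := by
    intro j
    rw [hD2]; beta_reduce
    split_ifs with h
    · exact_mod_cast hε2.ne'
    · exact h
  set D3 : J → ℂ := fun j => if j = j0 then 0 else D2 j with hD3
  have hDD2 : ‖Matrix.diagonal D - Matrix.diagonal D2‖ ≤ ε / 2 := by
    rw [Matrix.diagonal_sub, Matrix.l2_opNorm_diagonal]
    refine (pi_norm_le_iff_of_nonneg hε2.le).2 fun j => ?_
    rw [hD2]; beta_reduce
    split_ifs with h
    · rw [h, zero_sub, norm_neg, Complex.norm_real, Real.norm_eq_abs, abs_of_pos hε2]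
    · rw [sub_self, norm_zero]; exact hε2.le
  have hDD3 : ‖Matrix.diagonal D - Matrix.diagonal D3‖ ≤ ε / 2 := by
    rw [Matrix.diagonal_sub, Matrix.l2_opNorm_diagonal]
    refine (pi_norm_le_iff_of_nonneg hε2.le).2 fun j => ?_
    rw [hD3, hD2]; beta_reduce
    split_ifs with h h'
    · rw [h, hj, sub_zero, norm_zero]; exact hε2.le
    · rw [h', zero_sub, norm_neg, Complex.norm_real, Real.norm_eq_abs, abs_of_pos hε2]
    · rw [sub_self, norm_zero]; exact hε2.le
  set C2 : Fin t × ((J × Fin K) ⊕ Fin r) → Matrix J J ℂ := fun a =>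
    if a.1 = t0 then Sum.elim (fun _ => Matrix.diagonal D3) (fun _ => Matrix.diagonal D2) a.2
      else N a with hC2
  set C3 : Fin t × ((J × Fin K) ⊕ Fin r) → Matrix J J ℂ := fun a =>
    if a.1 = t0 then Sum.elim (fun _ => Matrix.diagonal (fun j => (D3 j)⁻¹))
      (fun _ => Matrix.diagonal (fun j => (D2 j)⁻¹)) a.2
      else (N a)⁻¹ with hC3
  have hdist : ‖C - C2‖ ≤ ε / 2 := by
    refine (pi_norm_le_iff_of_nonneg hε2.le).2 fun a => ?_
    rw [Pi.sub_apply, hC2]; beta_reduce
    by_cases h : a.1 = t0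
    · rw [if_pos h, hC a h]
      rcases h2 : a.2 with κ | s
      · exact hDD3
      · exact hDD2
    · rw [if_neg h]; exact hN2 a
  refine ⟨blk (F, C2), ?_, ?_⟩
  · have hdd : ∀ j, D3 j * (D3 j)⁻¹ = 1 - (Pi.single j0 1 : J → ℂ) j := by
      intro j
      rw [hD3]; beta_reduce
      by_cases h : j = j0
      · simp [h]
      · simp [h, hD2ne j]
    have hzd : ∀ j, (Pi.single j0 1 : J → ℂ) j * D3 j = 0 := by
      intro j
      rw [hD3]; beta_reduce
      by_cases h : j = j0
      · simp [h]
      · simp [h]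
    have hzd' : ∀ j, (Pi.single j0 1 : J → ℂ) j * (D3 j)⁻¹ = 0 := by
      intro j
      rw [hD3]; beta_reduce
      by_cases h : j = j0
      · simp [h]
      · simp [h]
    refine blk_mem_closure_aux hK hK' F t0 j0 C2 C3 ?_ ?_ ?_ ?_ ?_ ?_
    · funext ⟨t', q⟩
      simp only [Pi.mul_apply, Pi.sub_apply, Pi.one_apply, hC2, hC3]
      by_cases h : t' = t0
      · rcases q with κ | s
        · simp only [h, if_true, Sum.elim_inl, Z0, Matrix.diagonal_mul_diagonal, hdd]
          rw [← Matrix.diagonal_one, Matrix.diagonal_sub]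
        · simp only [h, if_true, Sum.elim_inr, Z0, Matrix.diagonal_mul_diagonal, sub_zero]
          rw [← Matrix.diagonal_one]
          congr 1; funext j
          exact mul_inv_cancel₀ (hD2ne j)
      · rcases q with κ | s
        · simp only [h, if_false, Z0, sub_zero]
          exact Matrix.mul_nonsing_inv _ ((Matrix.isUnit_iff_isUnit_det _).1 (hN1 _))
        · simp only [h, if_false, Z0, sub_zero]
          exact Matrix.mul_nonsing_inv _ ((Matrix.isUnit_iff_isUnit_det _).1 (hN1 _))
    · funext ⟨t', q⟩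
      simp only [Pi.mul_apply, Pi.sub_apply, Pi.one_apply, hC2, hC3]
      by_cases h : t' = t0
      · rcases q with κ | s
        · simp only [h, if_true, Sum.elim_inl, Z0, Matrix.diagonal_mul_diagonal]
          rw [← Matrix.diagonal_one, Matrix.diagonal_sub]
          congr 1; funext j
          rw [mul_comm, hdd]
        · simp only [h, if_true, Sum.elim_inr, Z0, Matrix.diagonal_mul_diagonal, sub_zero]
          rw [← Matrix.diagonal_one]
          congr 1; funext j
          exact inv_mul_cancel₀ (hD2ne j)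
      · rcases q with κ | s
        · simp only [h, if_false, Z0, sub_zero]
          exact Matrix.nonsing_inv_mul _ ((Matrix.isUnit_iff_isUnit_det _).1 (hN1 _))
        · simp only [h, if_false, Z0, sub_zero]
          exact Matrix.nonsing_inv_mul _ ((Matrix.isUnit_iff_isUnit_det _).1 (hN1 _))
    · funext ⟨t', q⟩
      simp only [Pi.mul_apply, Pi.zero_apply, hC2, hC3]
      rcases q with κ | s
      · by_cases h : t' = t0
        · simp only [h, if_true, Sum.elim_inl, Z0, Matrix.diagonal_mul_diagonal, hzd]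
          exact Matrix.diagonal_zero
        · simp only [h, if_false, Z0, zero_mul]
      · simp only [Z0, zero_mul]
    · funext ⟨t', q⟩
      simp only [Pi.mul_apply, Pi.zero_apply, hC2, hC3]
      rcases q with κ | s
      · by_cases h : t' = t0
        · simp only [h, if_true, Sum.elim_inl, Z0, Matrix.diagonal_mul_diagonal]
          rw [← Matrix.diagonal_zero]
          congr 1; funext j
          rw [mul_comm, hzd]
        · simp only [h, if_false, Z0, mul_zero]
      · simp only [Z0, mul_zero]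
    · funext ⟨t', q⟩
      simp only [Pi.mul_apply, Pi.zero_apply, hC2, hC3]
      rcases q with κ | s
      · by_cases h : t' = t0
        · simp only [h, if_true, Sum.elim_inl, Z0, Matrix.diagonal_mul_diagonal, hzd']
          exact Matrix.diagonal_zero
        · simp only [h, if_false, Z0, zero_mul]
      · simp only [Z0, zero_mul]
    · funext ⟨t', q⟩
      simp only [Pi.mul_apply, Pi.zero_apply, hC2, hC3]
      rcases q with κ | s
      · by_cases h : t' = t0
        · simp only [h, if_true, Sum.elim_inl, Z0, Matrix.diagonal_mul_diagonal]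
          rw [← Matrix.diagonal_zero]
          congr 1; funext j
          rw [mul_comm, hzd']
        · simp only [h, if_false, Z0, mul_zero]
      · simp only [Z0, mul_zero]
  · rw [dist_eq_norm, ← map_sub]
    refine lt_of_le_of_lt (norm_blk_le _) ?_
    have : ((F, C) - (F, C2) : AT M χ × (Fin t × ((J × Fin K) ⊕ Fin r) → Matrix J J ℂ)) =
        (0, C - C2) := by
      ext1 <;> simp
    rw [this, Prod.norm_def]
    simp only [norm_zero]
    rw [max_eq_right (norm_nonneg _)]
    linarith

/-- **the case of a singular matrix** -/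
theorem blk_mem_closure (hK : 1 ≤ K) (hK' : ∀ a, M a + 1 ≤ K) (F : AT M χ) (t0 : Fin t)
    (C : Fin t × ((J × Fin K) ⊕ Fin r) → Matrix J J ℂ) (N : Matrix J J ℂ) (hN : ¬ IsUnit N)
    (hC : ∀ a, a.1 = t0 → C a = N) :
    (blk (F, C) : AT (MN c r m M) (χN c t K r χ)) ∈
      closure {x : AT (MN c r m M) (χN c t K r χ) | IsUnit x} := by
  obtain ⟨L, L', D, hD⟩ :=
    Matrix.Pivot.exists_list_transvec_mul_diagonal_mul_list_transvec N
  set P : Matrix J J ℂ := (L.map Matrix.TransvectionStruct.toMatrix).prod with hP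
  set Q : Matrix J J ℂ := (L'.map Matrix.TransvectionStruct.toMatrix).prod with hQ
  have hPu : IsUnit P := by
    rw [Matrix.isUnit_iff_isUnit_det, hP, Matrix.TransvectionStruct.det_toMatrix_prod]
    exact isUnit_one
  have hQu : IsUnit Q := by
    rw [Matrix.isUnit_iff_isUnit_det, hQ, Matrix.TransvectionStruct.det_toMatrix_prod]
    exact isUnit_one
  have hj : ∃ j0, D j0 = 0 := by
    by_contra h
    push Not at h
    apply hN
    rw [hD]
    refine (hPu.mul ?_).mul hQu
    rw [Matrix.isUnit_iff_isUnit_det, Matrix.det_diagonal, isUnit_iff_ne_zero]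
    exact Finset.prod_ne_zero_iff.2 fun j _ => h j
  obtain ⟨j0, hj0⟩ := hj
  set C1 : Fin t × ((J × Fin K) ⊕ Fin r) → Matrix J J ℂ := fun a =>
    if a.1 = t0 then Matrix.diagonal D else C a with hC1
  have h1 := blk_mem_closure_diag (c := c) (m := m) hK hK' F t0 C1 D j0 hj0 (fun a ha => by
    rw [hC1]; beta_reduce; rw [if_pos ha])
  set U : Fin t × ((J × Fin K) ⊕ Fin r) → Matrix J J ℂ := fun a =>
    if a.1 = t0 then P else 1 with hU
  set V : Fin t × ((J × Fin K) ⊕ Fin r) → Matrix J J ℂ := fun a =>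
    if a.1 = t0 then Q else 1 with hV
  have hUu : IsUnit (blk ((1 : AT M χ), U) : AT (MN c r m M) (χN c t K r χ)) := by
    refine IsUnit.map blk ?_
    rw [Prod.isUnit_iff]
    refine ⟨isUnit_one, ?_⟩
    rw [Pi.isUnit_iff]
    intro a
    simp only [hU]
    split_ifs
    · exact hPu
    · exact isUnit_one
  have hVu : IsUnit (blk ((1 : AT M χ), V) : AT (MN c r m M) (χN c t K r χ)) := by
    refine IsUnit.map blk ?_
    rw [Prod.isUnit_iff]
    refine ⟨isUnit_one, ?_⟩
    rw [Pi.isUnit_iff]
    intro a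
    simp only [hV]
    split_ifs
    · exact hQu
    · exact isUnit_one
  have h2 : (blk (F, C) : AT (MN c r m M) (χN c t K r χ)) =
      blk ((1 : AT M χ), U) * blk (F, C1) * blk ((1 : AT M χ), V) := by
    rw [← map_mul, ← map_mul]
    congr 1
    ext1
    · simp
    · funext a
      simp only [Prod.snd_mul, Pi.mul_apply, hU, hV, hC1]
      by_cases h : a.1 = t0
      · simp only [h, if_true]
        rw [hC a h, hD]
      · simp only [h, if_false, one_mul, mul_one]
  rw [h2]
  exact closure_mul_unit hVu (closure_unit_mul hUu h1)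

end Pool.Agent.H254.BR
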