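import Pool.Agent.H254.BR.Sr

/-!
The sequence of building blocks.
-/

set_option autoImplicit false
set_option linter.unusedSectionVars false
set_option linter.unusedSimpArgs false

noncomputable section

namespace Pool.Agent.H254.BR

open scoped Matrix.Norms.L2Operator
open Matrix

/-- the data of a building block -/
structure Stage : Type 1 where
  I : Type
  J : Type
  fI : Fintype I
  dI : DecidableEq I
  fJ : Fintype J
  dJ : DecidableEq J
  nJ : Nonempty J
  M : I → ℕ
  χ : J → Option I
  P : J → Prop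
  Q : J → Prop
  dP : DecidablePred P
  dQ : DecidablePred Q

attribute [instance] Stage.fI Stage.dI Stage.fJ Stage.dJ Stage.nJ Stage.dP Stage.dQ

/-- the parameters of a step -/
structure Par (S : Stage) where
  c : ℕ
  t : ℕ
  K : ℕ
  r : ℕ
  m : ℕ
  pt : Fin t → XX S.M
  hc : 0 < c
  ht : 0 < t
  hK : 1 ≤ K
  hK' : ∀ a, S.M a + 1 ≤ K

/-- the next stage -/
def Stage.next (S : Stage) (π : Par S) : Stage where
  I := IN π.c π.r S.I
  J := JN π.c π.t π.K π.r S.J
  fI := inferInstance
  dI := inferInstance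
  fJ := inferInstance
  dJ := inferInstance
  nJ := ⟨(Classical.arbitrary S.J, Sum.inl ⟨0, π.hc⟩)⟩
  M := MN π.c π.r π.m S.M
  χ := χN π.c π.t π.K π.r S.χ
  P := fun x => S.P x.1
  Q := fun x => S.Q x.1
  dP := fun x => S.dP x.1
  dQ := fun x => S.dQ x.1

/-- the algebra of a stage -/
abbrev Stage.A (S : Stage) : Type := AT S.M S.χ

/-- the connecting map -/
def Stage.map (S : Stage) (π : Par S) : S.A →⋆ₐ[ℂ] (S.next π).A :=
  (stp π.pt : AT S.M S.χ →⋆ₐ[ℂ] AT (MN π.c π.r π.m S.M) (χN π.c π.t π.K π.r S.χ))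

/-! ### nets -/

instance {I : Type} (M : I → ℕ) : Nonempty (XX M) := ⟨fun i => sph0 (M i)⟩

lemma exists_net {I : Type} [Fintype I] (M : I → ℕ) {ε : ℝ} (hε : 0 < ε) :
    ∃ (t : ℕ) (pt : Fin t → XX M), 0 < t ∧ ∀ x, ∃ i, dist x (pt i) < ε := by
  obtain ⟨T, _, hT, hcov⟩ := Metric.finite_approx_of_totallyBounded
    (isCompact_univ (X := XX M)).totallyBounded ε hε
  have : Fintype T := hT.fintype
  set e := Fintype.equivFin T with he
  have hx : ∀ x : XX M, ∃ i, dist x ((e.symm i : T) : XX M) < ε := by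
    intro x
    have h1 := hcov (Set.mem_univ x)
    simp only [Set.mem_iUnion] at h1
    obtain ⟨y, hy, hxy⟩ := h1
    exact ⟨e ⟨y, hy⟩, by simpa using hxy⟩
  refine ⟨Fintype.card T, fun i => (e.symm i : T), ?_, hx⟩
  obtain ⟨i, _⟩ := hx (Classical.arbitrary _)
  exact lt_of_le_of_lt (Nat.zero_le _) i.2

/-- the number of points of the net -/
def netT (k : ℕ) (S : Stage) : ℕ :=
  (exists_net S.M (ε := 1 / ((k : ℝ) + 1)) (by positivity)).choose

/-- the points of the net -/
def netP (k : ℕ) (S : Stage) : Fin (netT k S) → XX S.M :=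
  (exists_net S.M (ε := 1 / ((k : ℝ) + 1)) (by positivity)).choose_spec.choose

lemma netT_pos (k : ℕ) (S : Stage) : 0 < netT k S :=
  (exists_net S.M (ε := 1 / ((k : ℝ) + 1)) (by positivity)).choose_spec.choose_spec.1

lemma netP_spec (k : ℕ) (S : Stage) (x : XX S.M) :
    ∃ i, dist x (netP k S i) < 1 / ((k : ℝ) + 1) :=
  (exists_net S.M (ε := 1 / ((k : ℝ) + 1)) (by positivity)).choose_spec.choose_spec.2 x

/-- the bound for the dimensions -/
def KK (S : Stage) : ℕ := 1 + ∑ i, (S.M i + 1)

/-- the number of projections -/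
def cc (k : ℕ) (S : Stage) : ℕ :=
  2 ^ (k + 1) * (Fintype.card S.J * (netT k S * (Fintype.card S.J * KK S))) + 1

/-- the parameters in step `k` -/
def par (k : ℕ) (S : Stage) : Par S where
  c := cc k S
  t := netT k S
  K := KK S
  r := k * cc k S
  m := 2 * (Fintype.card S.J * netT k S) + 1
  pt := netP k S
  hc := Nat.succ_pos _
  ht := netT_pos k S
  hK := Nat.le_add_right 1 _
  hK' := fun a => by
    have : S.M a + 1 ≤ ∑ i, (S.M i + 1) :=
      Finset.single_le_sum (f := fun i => S.M i + 1) (fun i _ => Nat.zero_le _) (Finset.mem_univ a)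
    unfold KK; omega

/-! ### counting -/

section counting

variable {I J : Type} [Fintype I] [DecidableEq I] [Fintype J] [DecidableEq J]
variable {c t K r : ℕ} (χ : J → Option I) (P : J → Prop) [DecidablePred P]

lemma count_none_ge :
    c * Fintype.card {j // P j ∧ χ j = none} ≤
      Fintype.card {x : JN c t K r J // P x.1 ∧ χN c t K r χ x = none} := by
  have h : Fintype.card (Fin c × {j // P j ∧ χ j = none}) ≤
      Fintype.card {x : JN c t K r J // P x.1 ∧ χN c t K r χ x = none} := by
    refine Fintype.card_le_of_injective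
      (fun y => ⟨(y.2.1, Sum.inl y.1), y.2.2.1, ?_⟩) ?_
    · show (χ y.2.1).map (fun i => Sum.inl (y.1, i)) = none
      rw [y.2.2.2]; rfl
    · rintro ⟨l, j, hj⟩ ⟨l', j', hj'⟩ h
      simp only [Subtype.mk.injEq, Prod.mk.injEq, Sum.inl.injEq] at h
      obtain ⟨rfl, rfl⟩ := h
      rfl
  rwa [Fintype.card_prod, Fintype.card_fin] at h

lemma count_none_le :
    Fintype.card {x : JN c t K r J // P x.1 ∧ χN c t K r χ x = none} ≤
      c * Fintype.card {j // P j ∧ χ j = none} +
        Fintype.card J * (t * (Fintype.card J * K)) := by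
  have h : Fintype.card {x : JN c t K r J // P x.1 ∧ χN c t K r χ x = none} ≤
      Fintype.card ((Fin c × {j // P j ∧ χ j = none}) ⊕ (J × (Fin t × (J × Fin K)))) := by
    refine Fintype.card_le_of_injective (fun y =>
      match y with
      | ⟨(j, Sum.inl l), h⟩ => Sum.inl (l, ⟨j, h.1, by
          have h2 : (χ j).map (fun i => (Sum.inl (l, i) : IN c r I)) = none := h.2
          simpa using h2⟩)
      | ⟨(j, Sum.inr (t', Sum.inl κ)), _⟩ => Sum.inr (j, (t', κ))
      | ⟨(_, Sum.inr (_, Sum.inr _)), h⟩ => absurd h.2 (by simp [χN])) ?_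
    rintro ⟨⟨j, b⟩, h⟩ ⟨⟨j', b'⟩, h'⟩ heq
    rcases b with l | ⟨t1, κ | s⟩ <;> rcases b' with l' | ⟨t2, κ' | s'⟩
    · simp only [Sum.inl.injEq, Prod.mk.injEq, Subtype.mk.injEq] at heq
      obtain ⟨rfl, rfl⟩ := heq; rfl
    · simp at heq
    · exact absurd h'.2 (by simp [χN])
    · simp at heq
    · simp only [Sum.inr.injEq, Prod.mk.injEq] at heq
      obtain ⟨rfl, rfl, rfl⟩ := heq; rfl
    · exact absurd h'.2 (by simp [χN])
    · exact absurd h.2 (by simp [χN])
    · exact absurd h.2 (by simp [χN])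
    · exact absurd h.2 (by simp [χN])
  refine h.trans (le_of_eq ?_)
  simp [Fintype.card_sum, Fintype.card_prod]

lemma count_inl (l : Fin c) (i : I) :
    Fintype.card {x : JN c t K r J // P x.1 ∧ χN c t K r χ x = some (Sum.inl (l, i))} ≤
      Fintype.card {j // P j ∧ χ j = some i} := by
  have key : ∀ x : JN c t K r J, χN c t K r χ x = some (Sum.inl (l, i)) →
      x.2 = Sum.inl l ∧ χ x.1 = some i := by
    rintro ⟨j, l' | ⟨t1, κ | s⟩⟩ h
    · have h2 : (χ j).map (fun i => (Sum.inl (l', i) : IN c r I)) = some (Sum.inl (l, i)) := h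
      rcases h3 : χ j with _ | a
      · rw [h3] at h2; simp at h2
      · rw [h3] at h2
        simp only [Option.map_some, Option.some.injEq, Sum.inl.injEq, Prod.mk.injEq] at h2
        exact ⟨by rw [h2.1], by rw [← h2.2]⟩
    · simp [χN] at h
    · simp [χN] at h
  refine Fintype.card_le_of_injective
    (fun y => ⟨y.1.1, y.2.1, (key y.1 y.2.2).2⟩) ?_
  rintro ⟨⟨j, b⟩, h⟩ ⟨⟨j', b'⟩, h'⟩ heq
  simp only [Subtype.mk.injEq] at heq
  have h1 := (key _ h.2).1
  have h2 := (key _ h'.2).1
  simp only at h1 h2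
  subst h1; subst h2; subst heq
  rfl

lemma count_inr (s : Fin r) :
    Fintype.card {x : JN c t K r J // P x.1 ∧ χN c t K r χ x = some (Sum.inr s)} ≤
      Fintype.card J * t := by
  have h : Fintype.card {x : JN c t K r J // P x.1 ∧ χN c t K r χ x = some (Sum.inr s)} ≤
      Fintype.card (J × Fin t) := by
    have key : ∀ x : JN c t K r J, χN c t K r χ x = some (Sum.inr s) →
        ∃ t1, x.2 = Sum.inr (t1, Sum.inr s) := by
      rintro ⟨j, l' | ⟨t1, κ | s'⟩⟩ h
      · have h2 : (χ j).map (fun i => (Sum.inl (l', i) : IN c r I)) = some (Sum.inr s) := h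
        rcases h3 : χ j with _ | a
        · rw [h3] at h2; simp at h2
        · rw [h3] at h2; simp at h2
      · simp [χN] at h
      · simp only [χN, Option.some.injEq, Sum.inr.injEq] at h
        subst h
        exact ⟨t1, rfl⟩
    choose g hg using fun y : {x : JN c t K r J // P x.1 ∧ χN c t K r χ x = some (Sum.inr s)} =>
      key y.1 y.2.2
    refine Fintype.card_le_of_injective (fun y => (y.1.1, g y)) ?_
    intro y y' heq
    simp only [Prod.mk.injEq] at heq
    apply Subtype.ext
    refine Prod.ext heq.1 ?_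
    rw [hg y, hg y', heq.2]
  rwa [Fintype.card_prod, Fintype.card_fin] at h

end counting

/-! ### the invariants -/

/-- the invariants -/
structure Inv (k : ℕ) (S : Stage) : Prop where
  x_pos : 1 ≤ Fintype.card {j // S.P j ∧ S.χ j = none}
  xy : 2 ^ k * Fintype.card {j // S.Q j ∧ S.χ j = none} +
    Fintype.card {j // S.P j ∧ S.χ j = none} ≤ 2 ^ k * Fintype.card {j // S.P j ∧ S.χ j = none}
  cnt : ∀ i, 2 * Fintype.card {j // S.Q j ∧ S.χ j = some i} ≤ S.M i
  M_pos : ∀ i, 1 ≤ S.M i

lemma Inv.step {k : ℕ} {S : Stage} (h : Inv k S) : Inv (k + 1) (S.next (par k S)) := by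
  set π := par k S with hπ
  have h1 : π.c * Fintype.card {j // S.P j ∧ S.χ j = none} ≤
      Fintype.card {j // (S.next π).P j ∧ (S.next π).χ j = none} :=
    count_none_ge (c := π.c) (t := π.t) (K := π.K) (r := π.r) S.χ S.P
  have h2 : Fintype.card {j // (S.next π).Q j ∧ (S.next π).χ j = none} ≤
      π.c * Fintype.card {j // S.Q j ∧ S.χ j = none} +
        Fintype.card S.J * (π.t * (Fintype.card S.J * π.K)) :=
    count_none_le (c := π.c) (t := π.t) (K := π.K) (r := π.r) S.χ S.Q
  refine ⟨?_, ?_, ?_, ?_⟩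
  · have h3 := π.hc
    have h4 := h.x_pos
    nlinarith
  · have hc : π.c = 2 ^ (k + 1) * (Fintype.card S.J * (π.t * (Fintype.card S.J * π.K))) + 1 := rfl
    have h3 := h.xy
    have h4 := h.x_pos
    generalize Fintype.card {j // S.P j ∧ S.χ j = none} = x at *
    generalize Fintype.card {j // S.Q j ∧ S.χ j = none} = y at *
    generalize Fintype.card {j // (S.next π).P j ∧ (S.next π).χ j = none} = x' at *
    generalize Fintype.card {j // (S.next π).Q j ∧ (S.next π).χ j = none} = y' at *
    generalize Fintype.card S.J * (π.t * (Fintype.card S.J * π.K)) = w at *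
    generalize π.c = c at *
    -- `2^(k+1) * y' + x' ≤ 2^(k+1) * x'`
    have h5 : 1 ≤ 2 ^ k := Nat.one_le_two_pow
    have h6 : 2 ^ (k + 1) = 2 * 2 ^ k := by ring
    rw [h6] at hc ⊢
    generalize 2 ^ k = q at *
    -- work in integers
    have e1 : (2 * (q * y') : ℤ) ≤ 2 * (q * (c * y + w)) := by
      have : (y' : ℤ) ≤ c * y + w := by exact_mod_cast h2
      have hq : (0 : ℤ) ≤ q := by positivity
      nlinarith
    have e2 : (q * y + x : ℤ) ≤ q * x := by exact_mod_cast h3
    have e3 : (c * x : ℤ) ≤ x' := by exact_mod_cast h1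
    have e4 : (c : ℤ) = 2 * q * w + 1 := by exact_mod_cast hc
    have e5 : (1 : ℤ) ≤ x := by exact_mod_cast h4
    have e6 : (1 : ℤ) ≤ q := by exact_mod_cast h5
    have e7 : (0 : ℤ) ≤ w := by positivity
    have e8 : (0 : ℤ) ≤ c := by positivity
    have g1 : (c * (q * y + x) : ℤ) ≤ c * (q * x) := mul_le_mul_of_nonneg_left e2 e8
    have g2 : ((2 * q - 1) * (c * x) : ℤ) ≤ (2 * q - 1) * x' :=
      mul_le_mul_of_nonneg_left e3 (by linarith)
    have g3 : (2 * q * w : ℤ) ≤ c * x := by
      have : (c : ℤ) ≤ c * x := by nlinarith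
      linarith
    have : ((2 * q * y' + x' : ℕ) : ℤ) ≤ ((2 * q * x' : ℕ) : ℤ) := by
      push_cast
      nlinarith
    exact_mod_cast this
  · rintro (⟨l, i⟩ | s)
    · have h3 : Fintype.card {j // (S.next π).Q j ∧ (S.next π).χ j = some (Sum.inl (l, i))} ≤
          Fintype.card {j // S.Q j ∧ S.χ j = some i} :=
        count_inl (c := π.c) (t := π.t) (K := π.K) (r := π.r) S.χ S.Q l i
      exact (Nat.mul_le_mul_left 2 h3).trans (h.cnt i)
    · have h3 : Fintype.card {j // (S.next π).Q j ∧ (S.next π).χ j = some (Sum.inr s)} ≤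
          Fintype.card S.J * π.t :=
        count_inr (c := π.c) (t := π.t) (K := π.K) (r := π.r) S.χ S.Q s
      have h4 : (S.next π).M (Sum.inr s) = 2 * (Fintype.card S.J * π.t) + 1 := rfl
      refine (Nat.mul_le_mul_left 2 h3).trans ?_
      rw [h4]; omega
  · rintro (⟨l, i⟩ | s)
    · exact h.M_pos i
    · have h4 : (S.next π).M (Sum.inr s) = 2 * (Fintype.card S.J * π.t) + 1 := rfl
      rw [h4]; omega

/-! ### the first stage and the sequence -/

/-- the first stage: a four-sphere, four trivial lines and four odd lines -/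
def S0 : Stage where
  I := Unit
  J := Bool × Fin 4
  fI := inferInstance
  dI := inferInstance
  fJ := inferInstance
  dJ := inferInstance
  nJ := inferInstance
  M := fun _ => 4
  χ := fun x => if x.1 then some () else none
  P := fun x => x = (false, 0)
  Q := fun x => x = (true, 0) ∨ x = (true, 1)
  dP := inferInstance
  dQ := inferInstance

lemma inv0 : Inv 0 S0 where
  x_pos := by decide
  xy := by decide
  cnt := by decide
  M_pos := by intro i; show 1 ≤ 4; omega

/-- the sequence of stages -/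
def stg : ℕ → Stage
  | 0 => S0
  | k + 1 => (stg k).next (par k (stg k))

lemma inv_stg (k : ℕ) : Inv k (stg k) := by
  induction k with
  | zero => exact inv0
  | succ k ih => exact ih.step

/-- the connecting maps -/
def φ (k : ℕ) : (stg k).A →⋆ₐ[ℂ] (stg (k + 1)).A := (stg k).map (par k (stg k))

end Pool.Agent.H254.BR
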