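import Pool.Agent.H254.BR.Base
import Pool.Graph.R_seed8.H188R3.IndLim

/-!
One step of the construction.
-/

set_option autoImplicit false
set_option linter.unusedSectionVars false
set_option linter.unusedSimpArgs false

noncomputable section

namespace Pool.Agent.H254.BR

open scoped Matrix.Norms.L2Operator
open Matrix

variable {I J : Type} [DecidableEq I] [Fintype J] [DecidableEq J]

/-! ### coordinate functions -/

/-- coordinate `m` of the sphere `o` (the constant function `1` if there is no sphere) -/
def crd {M : I → ℕ} (o : Option I) (m : ℕ) (p : XX M) : ℝ :=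
  match o with
  | none => if m = 0 then 1 else 0
  | some a => if h : m < M a + 1 then (p a : EuclideanSpace ℝ (Fin (M a + 1))) ⟨m, h⟩ else 0

lemma continuous_crd {M : I → ℕ} (o : Option I) (m : ℕ) :
    Continuous (crd o m : XX M → ℝ) := by
  rcases o with _ | a
  · exact continuous_const
  · by_cases h : m < M a + 1
    · have : (crd (some a) m : XX M → ℝ) =
          fun p => (p a : EuclideanSpace ℝ (Fin (M a + 1))) ⟨m, h⟩ := by
        funext p; simp [crd, h]
      rw [this]
      exact (EuclideanSpace.proj (𝕜 := ℝ) (⟨m, h⟩ : Fin (M a + 1))).continuous.comp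
        (continuous_subtype_val.comp (continuous_apply a))
    · have : (crd (some a) m : XX M → ℝ) = fun _ => 0 := by
        funext p; simp [crd, h]
      rw [this]
      exact continuous_const

lemma crd_flp {M : I → ℕ} (o : Option I) (m : ℕ) (i : I) (p : XX M) :
    crd o m (flp i p) = (if o = some i then -1 else 1) * crd o m p := by
  rcases o with _ | a
  · simp [crd]
  · by_cases hai : a = i
    · subst hai
      by_cases h : m < M a + 1
      · simp [crd, h, flp]
      · simp [crd, h]
    · have h1 : (some a : Option I) ≠ some i := by simpa using hai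
      rw [if_neg h1, one_mul]
      simp [crd, flp, Function.update_of_ne hai]

lemma sum_crd {M : I → ℕ} (o : Option I) (K : ℕ) (hK : 1 ≤ K)
    (hK' : ∀ a, o = some a → M a + 1 ≤ K) (p : XX M) : ∑ m : Fin K, crd o m p ^ 2 = 1 := by
  rcases o with _ | a
  · rw [Finset.sum_eq_single (⟨0, hK⟩ : Fin K)]
    · simp [crd]
    · intro b _ hb
      have : (b : ℕ) ≠ 0 := fun h => hb (Fin.ext h)
      simp [crd, this]
    · intro h; exact absurd (Finset.mem_univ _) h
  · have h1 : ‖(p a : EuclideanSpace ℝ (Fin (M a + 1)))‖ = 1 := by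
      simp
    have h2 : ∑ k : Fin (M a + 1), ((p a : EuclideanSpace ℝ (Fin (M a + 1))) k) ^ 2 = 1 := by
      have h3 := EuclideanSpace.norm_sq_eq (p a : EuclideanSpace ℝ (Fin (M a + 1)))
      rw [h1] at h3
      simpa using h3.symm
    obtain ⟨k, hk⟩ := Nat.exists_eq_add_of_le (hK' a rfl)
    subst hk
    rw [Fin.sum_univ_add]
    have h4 : ∑ i : Fin k, crd (some a) (Fin.natAdd (M a + 1) i : Fin (M a + 1 + k)) p ^ 2 = 0 := by
      refine Finset.sum_eq_zero fun i _ => ?_
      simp [crd]
      intro h; omega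
    rw [h4, add_zero]
    rw [← h2]
    refine Finset.sum_congr rfl fun i _ => ?_
    have : (i : ℕ) < M a + 1 := i.2
    simp [crd]
    intro h; omega

/-- matrix units with coordinate functions -/
def yy {M : I → ℕ} {χ : J → Option I} (α : J) (m : ℕ) (β : J) (m' : ℕ) : AT M χ :=
  mk (fun p => Matrix.single α β ((crd (χ α) m p * crd (χ β) m' p : ℝ) : ℂ))
    (by
      refine continuous_matrix fun a b => ?_
      by_cases h : α = a ∧ β = b
      · obtain ⟨rfl, rfl⟩ := h
        simp only [Matrix.single_apply_same]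
        exact Complex.continuous_ofReal.comp ((continuous_crd _ _).mul (continuous_crd _ _))
      · simp only [Matrix.single_apply, if_neg h]
        exact continuous_const)
    (by
      intro i p j j'
      beta_reduce
      by_cases h : α = j ∧ β = j'
      · obtain ⟨rfl, rfl⟩ := h
        simp only [Matrix.single_apply_same, crd_flp, sg]
        split_ifs <;> push_cast <;> ring
      · simp only [Matrix.single_apply, if_neg h]; ring)

@[simp] lemma ev_yy {M : I → ℕ} {χ : J → Option I} (α : J) (m : ℕ) (β : J) (m' : ℕ) (p : XX M) :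
    ev p (yy α m β m' : AT M χ) =
      Matrix.single α β ((crd (χ α) m p * crd (χ β) m' p : ℝ) : ℂ) := rfl

lemma star_yy {M : I → ℕ} {χ : J → Option I} (α : J) (m : ℕ) (β : J) (m' : ℕ) :
    star (yy α m β m' : AT M χ) = yy β m' α m := by
  refine at_ext fun p => ?_
  rw [ev_star, ev_yy, ev_yy, Matrix.star_eq_conjTranspose, Matrix.conjTranspose_single]
  congr 1
  simp [mul_comm]

lemma sum_yy {M : I → ℕ} {χ : J → Option I} (K : ℕ) (hK : 1 ≤ K) (hK' : ∀ a, M a + 1 ≤ K)
    (α β : J) : ∑ m : Fin K, ∑ m' : Fin K, (yy α m β m' : AT M χ) * yy β m' α m =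
      dg (Pi.single α 1) := by
  refine at_ext fun p => ?_
  have h1 : ∀ m m' : Fin K, ev p ((yy α m β m' : AT M χ) * yy β m' α m) =
      Matrix.single α α (((crd (χ α) m p ^ 2 * crd (χ β) m' p ^ 2 : ℝ)) : ℂ) := by
    intro m m'
    rw [ev_mul, ev_yy, ev_yy, Matrix.single_mul_single_same]
    congr 1
    push_cast; ring
  simp only [ev_sum, h1]
  have h2 : ∑ m : Fin K, ∑ m' : Fin K, (crd (χ α) m p ^ 2 * crd (χ β) m' p ^ 2 : ℝ) = 1 := by
    simp_rw [← Finset.mul_sum, sum_crd (χ β) K hK (fun a _ => hK' a) p, mul_one]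
    exact sum_crd (χ α) K hK (fun a _ => hK' a) p
  have h3 : ∑ m : Fin K, ∑ m' : Fin K,
      Matrix.single α α (((crd (χ α) m p ^ 2 * crd (χ β) m' p ^ 2 : ℝ)) : ℂ) =
      Matrix.single α α (1 : ℂ) := by
    rw [← Complex.ofReal_one, ← h2]
    push_cast
    have this : ∀ f : Fin K → ℂ, Matrix.single α α (∑ m : Fin K, f m) =
        ∑ m : Fin K, Matrix.single α α (f m) := fun f =>
      map_sum (Matrix.singleAddMonoidHom (α := ℂ) α α) f Finset.univ
    rw [this]
    refine Finset.sum_congr rfl fun m _ => ?_
    rw [this]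
  rw [h3, ev_dg]
  ext a b
  by_cases hab : a = b
  · subst hab
    rw [Matrix.diagonal_apply_eq, Matrix.single_apply, Pi.single_apply]
    simp [eq_comm]
  · rw [Matrix.diagonal_apply_ne _ hab, Matrix.single_apply, if_neg]
    rintro ⟨rfl, rfl⟩; exact hab rfl

/-! ### the next stage -/

/-- the index set of the spheres of the next stage -/
abbrev IN (c r : ℕ) (I : Type) : Type := (Fin c × I) ⊕ Fin r

/-- the index set of the blocks -/
abbrev BN (c t K r : ℕ) (J : Type) : Type := Fin c ⊕ (Fin t × ((J × Fin K) ⊕ Fin r))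

/-- the index set of the lines of the next stage -/
abbrev JN (c t K r : ℕ) (J : Type) : Type := J × BN c t K r J

/-- the dimensions of the spheres of the next stage -/
def MN (c r m : ℕ) (M : I → ℕ) : IN c r I → ℕ := Sum.elim (fun a => M a.2) (fun _ => m)

/-- the characters of the next stage -/
def χN (c t K r : ℕ) (χ : J → Option I) : JN c t K r J → Option (IN c r I)
  | (j, Sum.inl l) => (χ j).map (fun i => Sum.inl (l, i))
  | (_, Sum.inr (_, Sum.inl _)) => none
  | (_, Sum.inr (_, Sum.inr s)) => some (Sum.inr s)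

variable {c t K r m : ℕ} {M : I → ℕ} {χ : J → Option I}

/-- the coordinate projections -/
def prj (l : Fin c) (p : XX (MN c r m M)) : XX M := fun i => p (Sum.inl (l, i))

lemma continuous_prj (l : Fin c) : Continuous (prj l : XX (MN c r m M) → XX M) :=
  continuous_pi fun i => continuous_apply (Sum.inl (l, i) : IN c r I)

lemma prj_flp_same (l : Fin c) (i : I) (p : XX (MN c r m M)) :
    prj l (flp (Sum.inl (l, i)) p) = flp i (prj l p) := by
  funext a
  by_cases h : a = i
  · subst h; simp [prj, flp]; rfl
  · have : (Sum.inl (l, a) : IN c r I) ≠ Sum.inl (l, i) := by simpa using h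
    simp [prj, flp, Function.update_of_ne h, Function.update_of_ne this]

lemma prj_flp_ne (l l' : Fin c) (h : l ≠ l') (i : I) (p : XX (MN c r m M)) :
    prj l (flp (Sum.inl (l', i)) p) = prj l p := by
  funext a
  have : (Sum.inl (l, a) : IN c r I) ≠ Sum.inl (l', i) := by
    simp [h]
  simp [prj, flp, Function.update_of_ne this]

lemma prj_flp_inr (l : Fin c) (s : Fin r) (p : XX (MN c r m M)) :
    prj l (flp (Sum.inr s) p) = prj l p := by
  funext a
  have : (Sum.inl (l, a) : IN c r I) ≠ Sum.inr s := by simp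
  simp [prj, flp, Function.update_of_ne this]

/-- the blocks -/
def bk (F : XX M → Matrix J J ℂ) (C : Fin t × ((J × Fin K) ⊕ Fin r) → Matrix J J ℂ)
    (p : XX (MN c r m M)) : BN c t K r J → Matrix J J ℂ
  | Sum.inl l => F (prj l p)
  | Sum.inr a => C a

lemma bk_eqv {F : XX M → Matrix J J ℂ} (hF : IsEqv χ F)
    (C : Fin t × ((J × Fin K) ⊕ Fin r) → Matrix J J ℂ) :
    IsEqv (χN c t K r χ) (fun p : XX (MN c r m M) => Matrix.blockDiagonal (bk F C p)) := by
  rintro i p ⟨j, b⟩ ⟨j', b'⟩
  simp only [Matrix.blockDiagonal_apply]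
  by_cases hb : b = b'
  · subst hb
    simp only [if_true]
    rcases b with l | ⟨q, κ | s⟩
    · rcases i with ⟨l', i⟩ | s
      · by_cases hl : l = l'
        · subst hl
          simp only [bk, prj_flp_same]
          rw [hF i (prj l p) j j']
          have h1 : ∀ j : J, sg (χN c t K r χ) (Sum.inl (l, i)) (j, Sum.inl l) = sg χ i j := by
            intro j
            rcases h : χ j with _ | a <;> simp [sg, χN, h]
          rw [h1, h1]
        · simp only [bk, prj_flp_ne l l' hl]
          have h1 : ∀ j : J, sg (χN c t K r χ) (Sum.inl (l', i)) (j, Sum.inl l) = 1 := by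
            intro j
            rcases h : χ j with _ | a <;> simp [sg, χN, h, Ne.symm hl, hl]
          rw [h1, h1]; simp
      · simp only [bk, prj_flp_inr]
        have h1 : ∀ j : J, sg (χN c t K r χ) (Sum.inr s) (j, Sum.inl l) = 1 := by
          intro j
          rcases h : χ j with _ | a <;> simp [sg, χN, h]
        rw [h1, h1]; simp
    · simp only [bk]
      have h1 : ∀ j : J, sg (χN c t K r χ) i (j, Sum.inr (q, Sum.inl κ)) = 1 := by
        intro j; simp [sg, χN]
      rw [h1, h1]; simp
    · simp only [bk]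
      have h1 : ∀ j j' : J, sg (χN c t K r χ) i (j, Sum.inr (q, Sum.inr s)) =
        sg (χN c t K r χ) i (j', Sum.inr (q, Sum.inr s)) := by
        intro j j'; simp [sg, χN]
      rw [h1 j j', mul_comm (sg _ _ _) (C _ j j'), mul_assoc, sg_mul_self, mul_one]
  · simp [hb]

lemma continuous_bk {F : XX M → Matrix J J ℂ} (hF : Continuous F)
    (C : Fin t × ((J × Fin K) ⊕ Fin r) → Matrix J J ℂ) :
    Continuous (fun p : XX (MN c r m M) => (Matrix.blockDiagonal (bk F C p) :
      Matrix (JN c t K r J) (JN c t K r J) ℂ)) := by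
  refine Continuous.matrix_blockDiagonal ?_
  refine continuous_pi fun b => ?_
  rcases b with l | a
  · exact hF.comp (continuous_prj l)
  · exact continuous_const


/-- the element given by blocks, as a star homomorphism -/
def blk : (AT M χ × (Fin t × ((J × Fin K) ⊕ Fin r) → Matrix J J ℂ)) →⋆ₐ[ℂ]
    AT (MN c r m M) (χN c t K r χ) where
  toFun x := mk (fun p => Matrix.blockDiagonal (bk (fun q => ev q x.1) x.2 p))
    (continuous_bk (continuous_ev x.1) x.2) (bk_eqv (eqv_ev x.1) x.2)
  map_one' := by
    refine at_ext fun p => ?_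
    rw [ev_mk, ev_one, ← Matrix.blockDiagonal_one]
    congr 1
    funext b
    rcases b with l | a <;> rfl
  map_mul' x y := by
    refine at_ext fun p => ?_
    rw [ev_mul, ev_mk, ev_mk, ev_mk, ← Matrix.blockDiagonal_mul]
    congr 1
    funext b
    rcases b with l | a <;> rfl
  map_zero' := by
    refine at_ext fun p => ?_
    rw [ev_mk, ev_zero, ← Matrix.blockDiagonal_zero]
    congr 1
    funext b
    rcases b with l | a <;> rfl
  map_add' x y := by
    refine at_ext fun p => ?_
    rw [ev_add, ev_mk, ev_mk, ev_mk, ← Matrix.blockDiagonal_add]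
    congr 1
    funext b
    rcases b with l | a <;> rfl
  commutes' z := by
    refine at_ext fun p => ?_
    rw [ev_mk, Algebra.algebraMap_eq_smul_one, Algebra.algebraMap_eq_smul_one, ev_smul, ev_one,
      ← Matrix.blockDiagonal_one, ← Matrix.blockDiagonal_smul]
    congr 1
    funext b
    rcases b with l | a <;> rfl
  map_star' x := by
    refine at_ext fun p => ?_
    rw [ev_star, ev_mk, ev_mk, Matrix.star_eq_conjTranspose, Matrix.blockDiagonal_conjTranspose]
    congr 1
    funext b
    rcases b with l | a <;> rfl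

lemma ev_blk (x : AT M χ × (Fin t × ((J × Fin K) ⊕ Fin r) → Matrix J J ℂ))
    (p : XX (MN c r m M)) : ev p (blk x : AT (MN c r m M) (χN c t K r χ)) =
      Matrix.blockDiagonal (bk (fun q => ev q x.1) x.2 p) := rfl

/-- the evaluations -/
def evs (pt : Fin t → XX M) :
    AT M χ →⋆ₐ[ℂ] (Fin t × ((J × Fin K) ⊕ Fin r) → Matrix J J ℂ) where
  toFun f a := ev (pt a.1) f
  map_one' := rfl
  map_mul' _ _ := rfl
  map_zero' := rfl
  map_add' _ _ := rfl
  commutes' _ := rfl
  map_star' _ := rfl

/-- the connecting map -/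
def stp (pt : Fin t → XX M) : AT M χ →⋆ₐ[ℂ] AT (MN c r m M) (χN c t K r χ) :=
  blk.comp ((StarAlgHom.id ℂ (AT M χ)).prod (evs pt))

lemma stp_apply (pt : Fin t → XX M) (f : AT M χ) :
    (stp pt f : AT (MN c r m M) (χN c t K r χ)) = blk (f, fun a => ev (pt a.1) f) := rfl

end Pool.Agent.H254.BR
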