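import Pool.Agent.H254.BR.Step

/-!
Traces on the building blocks, and the elements used for simplicity.
-/

set_option autoImplicit false
set_option linter.unusedSectionVars false
set_option linter.unusedSimpArgs false

noncomputable section

namespace Pool.Agent.H254.BR

open scoped Matrix.Norms.L2Operator
open Matrix

variable {I J : Type} [DecidableEq I] [Fintype J] [DecidableEq J]
variable {M : I → ℕ} {χ : J → Option I}

lemma sum_dg_single : ∑ α : J, (dg (Pi.single α 1) : AT M χ) = 1 := by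
  refine at_ext fun p => ?_
  simp only [ev_sum, ev_dg, ev_one]
  ext a b
  rw [Matrix.sum_apply]
  by_cases hab : a = b
  · subst hab
    simp [Matrix.diagonal_apply_eq, Pi.single_apply]
  · simp [Matrix.diagonal_apply_ne _ hab, Matrix.one_apply_ne hab]

lemma dg_mul (s s' : J → ℂ) : (dg s : AT M χ) * dg s' = dg (fun j => s j * s' j) := by
  refine at_ext fun p => ?_
  simp

lemma dg_single_mul_mul (x : AT M χ) (α : J) (c : ℂ) (hx : ∀ p, ev p x α α = c) :
    (dg (Pi.single α 1) : AT M χ) * x * dg (Pi.single α 1) = c • dg (Pi.single α 1) := by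
  refine at_ext fun p => ?_
  simp only [ev_mul, ev_dg, ev_smul]
  ext a b
  rw [Matrix.mul_diagonal, Matrix.diagonal_mul, Matrix.smul_apply]
  by_cases ha : a = α
  · subst ha
    by_cases hb : a = b
    · subst hb
      simp [hx p]
    · rw [Matrix.diagonal_apply_ne _ hb]
      simp [Pi.single_apply, Ne.symm hb]
  · by_cases hb : a = b
    · subst hb
      simp [Pi.single_apply, ha]
    · rw [Matrix.diagonal_apply_ne _ hb]
      simp [Pi.single_apply, ha]

variable (τ : AT M χ →ₗ[ℂ] ℂ)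

lemma tr_single_eq (hτ : ∀ x y, τ (x * y) = τ (y * x)) (K : ℕ) (hK : 1 ≤ K)
    (hK' : ∀ a, M a + 1 ≤ K) (α β : J) :
    τ (dg (Pi.single α 1)) = τ (dg (Pi.single β 1)) := by
  rw [← sum_yy K hK hK' α β, ← sum_yy K hK hK' β α]
  simp only [map_sum]
  rw [Finset.sum_comm]
  refine Finset.sum_congr rfl fun m _ => Finset.sum_congr rfl fun m' _ => ?_
  rw [hτ]

lemma tr_const_diag (hτ : ∀ x y, τ (x * y) = τ (y * x)) (K : ℕ) (hK : 1 ≤ K)
    (hK' : ∀ a, M a + 1 ≤ K) [Nonempty J] (x : AT M χ) (c : J → ℂ)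
    (hx : ∀ p α, ev p x α α = c α) :
    τ x = (∑ α, c α) / (Fintype.card J : ℂ) * τ 1 := by
  obtain ⟨α0⟩ := ‹Nonempty J›
  have hN : (Fintype.card J : ℂ) ≠ 0 := by
    have : 0 < Fintype.card J := Fintype.card_pos_iff.2 ⟨α0⟩
    exact_mod_cast this.ne'
  set w : ℂ := τ (dg (Pi.single α0 1)) with hw
  have h1 : ∀ α, τ (dg (Pi.single α 1)) = w := fun α => tr_single_eq τ hτ K hK hK' α α0
  have h2 : τ 1 = (Fintype.card J : ℂ) * w := by
    rw [← sum_dg_single, map_sum, Finset.sum_congr rfl fun α _ => h1 α]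
    simp
  have h3 : τ x = ∑ α, τ (x * dg (Pi.single α 1)) := by
    conv_lhs => rw [← mul_one x, ← sum_dg_single, Finset.mul_sum, map_sum]
  have h4 : ∀ α, τ (x * dg (Pi.single α 1)) = c α * w := by
    intro α
    have e1 : (dg (Pi.single α 1) : AT M χ) = dg (Pi.single α 1) * dg (Pi.single α 1) := by
      rw [dg_mul]
      congr 1
      funext j
      by_cases h : j = α
      · subst h; simp
      · simp [Pi.single_apply, h]
    conv_lhs => rw [e1]
    rw [← mul_assoc, hτ, ← mul_assoc, dg_single_mul_mul x α (c α) (fun p => hx p α), map_smul, h1,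
      smul_eq_mul]
  rw [h3, Finset.sum_congr rfl fun α _ => h4 α, h2, ← Finset.sum_mul]
  field_simp

/-! ### more matrix units -/

lemma yy_mul_yy_ne {α β β' γ : J} (m m' n n' : ℕ) (h : β ≠ β') :
    (yy α m β m' : AT M χ) * yy β' n γ n' = 0 := by
  refine at_ext fun p => ?_
  rw [ev_mul, ev_yy, ev_yy, Matrix.single_mul_single_of_ne (h := h), ev_zero]

lemma yy_triv {α β γ : J} (h : χ γ = none) (m m' : ℕ) :
    (yy α m γ 0 : AT M χ) * yy γ 0 β m' = yy α m β m' := by
  refine at_ext fun p => ?_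
  rw [ev_mul, ev_yy, ev_yy, Matrix.single_mul_single_same, ev_yy]
  congr 1
  rw [h]
  simp [crd]

lemma sum_yy_self (K : ℕ) (hK : 1 ≤ K) (β : J) (hK' : ∀ a, χ β = some a → M a + 1 ≤ K) :
    ∑ m : Fin K, (yy β m β m : AT M χ) = dg (Pi.single β 1) := by
  refine at_ext fun p => ?_
  simp only [ev_sum, ev_yy, ev_dg]
  have this : ∀ f : Fin K → ℂ, Matrix.single β β (∑ m : Fin K, f m) =
      ∑ m : Fin K, Matrix.single β β (f m) := fun f =>
    map_sum (Matrix.singleAddMonoidHom (α := ℂ) β β) f Finset.univ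
  rw [← this]
  have h2 : ∑ m : Fin K, (((crd (χ β) m p * crd (χ β) m p : ℝ)) : ℂ) = 1 := by
    have := sum_crd (χ β) K hK hK' p
    rw [← Complex.ofReal_one, ← this]
    push_cast
    exact Finset.sum_congr rfl fun m _ => by ring
  rw [h2]
  ext a b
  by_cases hab : a = b
  · subst hab
    rw [Matrix.diagonal_apply_eq, Matrix.single_apply, Pi.single_apply]
    simp [eq_comm]
  · rw [Matrix.diagonal_apply_ne _ hab, Matrix.single_apply, if_neg]
    rintro ⟨rfl, rfl⟩; exact hab rfl

lemma dg_mul_yy (s : J → ℂ) (α β : J) (m m' : ℕ) :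
    (dg s : AT M χ) * yy α m β m' = s α • yy α m β m' := by
  refine at_ext fun p => ?_
  simp only [ev_mul, ev_dg, ev_yy, ev_smul]
  ext a b
  rw [Matrix.diagonal_mul, Matrix.smul_apply, Matrix.single_apply]
  by_cases h : α = a ∧ β = b
  · obtain ⟨rfl, rfl⟩ := h; simp
  · simp [h]

lemma yy_mul_dg (s : J → ℂ) (α β : J) (m m' : ℕ) :
    (yy α m β m' : AT M χ) * dg s = s β • yy α m β m' := by
  refine at_ext fun p => ?_
  simp only [ev_mul, ev_dg, ev_yy, ev_smul]
  ext a b
  rw [Matrix.mul_diagonal, Matrix.smul_apply, Matrix.single_apply]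
  by_cases h : α = a ∧ β = b
  · obtain ⟨rfl, rfl⟩ := h; simp [mul_comm]
  · simp [h]

end Pool.Agent.H254.BR
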